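import Pool.Agent.Ortho.Check

set_option autoImplicit false

/-!
# Ortho/Cert/Data: tables of the certificate (generated)
-/

namespace Pool.Agent.Ortho.Cert

/-- number of states -/
def nSt : ℕ := 208

/-- coded states of branches, in groups of 16 -/
noncomputable def stT : List (List (List Ent)) := [
  [[⟨2, 1, 0, 0, false, false⟩, ⟨3, 3, 0, 0, false, false⟩],
   [⟨2, 3, 0, 0, false, false⟩, ⟨3, 1, 0, 0, false, false⟩],
   [⟨1, 1, 0, 0, false, false⟩, ⟨2, 3, 0, 0, false, false⟩],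
   [⟨1, 3, 0, 0, false, false⟩, ⟨2, 1, 0, 0, false, false⟩],
   [⟨0, 1, 0, 0, false, false⟩, ⟨3, 3, 0, 0, false, false⟩],
   [⟨0, 1, 0, 0, false, false⟩, ⟨1, 3, 0, 0, false, false⟩],
   [⟨0, 3, 0, 0, false, false⟩, ⟨3, 1, 0, 0, false, false⟩],
   [⟨0, 3, 0, 0, false, false⟩, ⟨1, 1, 0, 0, false, false⟩],
   [⟨2, 0, 0, 0, true, false⟩, ⟨3, 3, 0, 0, false, false⟩],
   [⟨2, 1, 0, 0, false, false⟩, ⟨3, 0, 0, 0, false, true⟩],
   [⟨2, 2, 0, 0, false, true⟩, ⟨3, 1, 0, 0, false, false⟩],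
   [⟨2, 3, 0, 0, false, false⟩, ⟨3, 2, 0, 0, true, false⟩],
   [⟨1, 0, 0, 0, true, false⟩, ⟨2, 3, 0, 0, false, false⟩],
   [⟨1, 1, 0, 0, false, false⟩, ⟨2, 0, 0, 0, false, true⟩],
   [⟨1, 2, 0, 0, false, true⟩, ⟨2, 1, 0, 0, false, false⟩],
   [⟨1, 3, 0, 0, false, false⟩, ⟨2, 2, 0, 0, true, false⟩]],
  [[⟨0, 0, 0, 0, false, true⟩, ⟨3, 1, 0, 0, false, false⟩],
   [⟨0, 0, 0, 0, true, false⟩, ⟨1, 3, 0, 0, false, false⟩],
   [⟨0, 1, 0, 0, false, false⟩, ⟨3, 2, 0, 0, false, true⟩],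
   [⟨0, 1, 0, 0, false, false⟩, ⟨1, 0, 0, 0, false, true⟩],
   [⟨0, 2, 0, 0, false, true⟩, ⟨1, 1, 0, 0, false, false⟩],
   [⟨0, 2, 0, 0, true, false⟩, ⟨3, 3, 0, 0, false, false⟩],
   [⟨0, 3, 0, 0, false, false⟩, ⟨3, 0, 0, 0, true, false⟩],
   [⟨0, 3, 0, 0, false, false⟩, ⟨1, 2, 0, 0, true, false⟩],
   [⟨1, 0, 0, 0, false, true⟩, ⟨3, 1, 0, 0, false, false⟩],
   [⟨1, 0, 0, 0, true, false⟩, ⟨3, 3, 0, 0, false, false⟩],
   [⟨1, 1, 0, 0, false, false⟩, ⟨3, 0, 0, 0, false, true⟩],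
   [⟨1, 1, 0, 0, false, false⟩, ⟨3, 2, 0, 0, false, true⟩],
   [⟨1, 2, 0, 0, false, true⟩, ⟨3, 1, 0, 0, false, false⟩],
   [⟨1, 2, 0, 0, true, false⟩, ⟨3, 3, 0, 0, false, false⟩],
   [⟨1, 3, 0, 0, false, false⟩, ⟨3, 0, 0, 0, true, false⟩],
   [⟨1, 3, 0, 0, false, false⟩, ⟨3, 2, 0, 0, true, false⟩]],
  [[⟨0, 0, 0, 0, false, true⟩, ⟨2, 1, 0, 0, false, false⟩],
   [⟨0, 0, 0, 0, true, false⟩, ⟨2, 3, 0, 0, false, false⟩],
   [⟨0, 1, 0, 0, false, false⟩, ⟨2, 0, 0, 0, false, true⟩],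
   [⟨0, 1, 0, 0, false, false⟩, ⟨2, 2, 0, 0, false, true⟩],
   [⟨0, 2, 0, 0, false, true⟩, ⟨2, 1, 0, 0, false, false⟩],
   [⟨0, 2, 0, 0, true, false⟩, ⟨2, 3, 0, 0, false, false⟩],
   [⟨0, 3, 0, 0, false, false⟩, ⟨2, 0, 0, 0, true, false⟩],
   [⟨0, 3, 0, 0, false, false⟩, ⟨2, 2, 0, 0, true, false⟩],
   [⟨1, 0, 0, 0, false, true⟩, ⟨3, 2, 0, 1, true, false⟩],
   [⟨1, 0, 0, 0, true, false⟩, ⟨3, 2, 0, 1, false, true⟩],
   [⟨1, 2, 0, 0, false, true⟩, ⟨3, 0, 0, 1, true, false⟩],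
   [⟨1, 2, 0, 0, true, false⟩, ⟨3, 0, 0, 1, false, true⟩],
   [⟨0, 0, 0, 0, false, true⟩, ⟨2, 2, 0, 1, true, false⟩],
   [⟨0, 0, 0, 0, true, false⟩, ⟨2, 2, 0, 1, false, true⟩],
   [⟨0, 2, 0, 0, false, true⟩, ⟨2, 0, 0, 1, true, false⟩],
   [⟨0, 2, 0, 0, true, false⟩, ⟨2, 0, 0, 1, false, true⟩]],
  [[⟨2, 0, 0, 0, false, true⟩, ⟨3, 1, 0, 0, false, false⟩],
   [⟨2, 1, 0, 0, false, false⟩, ⟨3, 2, 0, 0, false, true⟩],
   [⟨2, 2, 0, 0, true, false⟩, ⟨3, 3, 0, 0, false, false⟩],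
   [⟨2, 3, 0, 0, false, false⟩, ⟨3, 0, 0, 0, true, false⟩],
   [⟨1, 0, 0, 0, false, true⟩, ⟨2, 1, 0, 0, false, false⟩],
   [⟨1, 1, 0, 0, false, false⟩, ⟨2, 2, 0, 0, false, true⟩],
   [⟨1, 2, 0, 0, true, false⟩, ⟨2, 3, 0, 0, false, false⟩],
   [⟨1, 3, 0, 0, false, false⟩, ⟨2, 0, 0, 0, true, false⟩],
   [⟨0, 0, 0, 0, false, true⟩, ⟨1, 1, 0, 0, false, false⟩],
   [⟨0, 0, 0, 0, true, false⟩, ⟨3, 3, 0, 0, false, false⟩],
   [⟨0, 1, 0, 0, false, false⟩, ⟨3, 0, 0, 0, false, true⟩],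
   [⟨0, 1, 0, 0, false, false⟩, ⟨1, 2, 0, 0, false, true⟩],
   [⟨0, 2, 0, 0, false, true⟩, ⟨3, 1, 0, 0, false, false⟩],
   [⟨0, 2, 0, 0, true, false⟩, ⟨1, 3, 0, 0, false, false⟩],
   [⟨0, 3, 0, 0, false, false⟩, ⟨3, 2, 0, 0, true, false⟩],
   [⟨0, 3, 0, 0, false, false⟩, ⟨1, 0, 0, 0, true, false⟩]],
  [[⟨1, 0, 0, 0, true, true⟩, ⟨2, 1, 0, 0, false, false⟩, ⟨3, 3, 0, 0, false, false⟩],
   [⟨1, 1, 0, 0, false, false⟩, ⟨2, 3, 0, 0, false, false⟩, ⟨3, 0, 0, 0, true, true⟩],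
   [⟨1, 2, 0, 0, true, true⟩, ⟨2, 3, 0, 0, false, false⟩, ⟨3, 1, 0, 0, false, false⟩],
   [⟨1, 3, 0, 0, false, false⟩, ⟨2, 1, 0, 0, false, false⟩, ⟨3, 2, 0, 0, true, true⟩],
   [⟨0, 0, 0, 0, true, true⟩, ⟨2, 1, 0, 0, false, false⟩, ⟨3, 3, 0, 0, false, false⟩],
   [⟨0, 0, 0, 0, true, true⟩, ⟨1, 1, 0, 0, false, false⟩, ⟨2, 3, 0, 0, false, false⟩],
   [⟨0, 1, 0, 0, false, false⟩, ⟨2, 2, 0, 0, true, true⟩, ⟨3, 3, 0, 0, false, false⟩],
   [⟨0, 1, 0, 0, false, false⟩, ⟨1, 2, 0, 0, true, true⟩, ⟨3, 3, 0, 0, false, false⟩],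
   [⟨0, 1, 0, 0, false, false⟩, ⟨1, 3, 0, 0, false, false⟩, ⟨3, 0, 0, 0, true, true⟩],
   [⟨0, 1, 0, 0, false, false⟩, ⟨1, 3, 0, 0, false, false⟩, ⟨2, 0, 0, 0, true, true⟩],
   [⟨0, 2, 0, 0, true, true⟩, ⟨2, 3, 0, 0, false, false⟩, ⟨3, 1, 0, 0, false, false⟩],
   [⟨0, 2, 0, 0, true, true⟩, ⟨1, 3, 0, 0, false, false⟩, ⟨2, 1, 0, 0, false, false⟩],
   [⟨0, 3, 0, 0, false, false⟩, ⟨2, 0, 0, 0, true, true⟩, ⟨3, 1, 0, 0, false, false⟩],
   [⟨0, 3, 0, 0, false, false⟩, ⟨1, 0, 0, 0, true, true⟩, ⟨3, 1, 0, 0, false, false⟩],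
   [⟨0, 3, 0, 0, false, false⟩, ⟨1, 1, 0, 0, false, false⟩, ⟨3, 2, 0, 0, true, true⟩],
   [⟨0, 3, 0, 0, false, false⟩, ⟨1, 1, 0, 0, false, false⟩, ⟨2, 2, 0, 0, true, true⟩]],
  [[⟨1, 0, 0, 0, true, false⟩, ⟨2, 0, 0, 1, false, true⟩, ⟨3, 0, 0, 2, true, true⟩],
   [⟨1, 0, 0, 0, true, true⟩, ⟨2, 0, 0, 1, true, false⟩, ⟨3, 0, 0, 2, false, true⟩],
   [⟨1, 2, 0, 0, false, true⟩, ⟨2, 2, 0, 1, true, false⟩, ⟨3, 2, 0, 2, true, true⟩],
   [⟨1, 2, 0, 0, true, true⟩, ⟨2, 2, 0, 1, false, true⟩, ⟨3, 2, 0, 2, true, false⟩],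
   [⟨0, 0, 0, 0, false, true⟩, ⟨2, 0, 0, 1, true, true⟩, ⟨3, 0, 0, 2, true, false⟩],
   [⟨0, 0, 0, 0, false, true⟩, ⟨1, 0, 0, 1, true, true⟩, ⟨3, 0, 0, 2, true, false⟩],
   [⟨0, 0, 0, 0, true, false⟩, ⟨1, 0, 0, 1, false, true⟩, ⟨3, 0, 0, 2, true, true⟩],
   [⟨0, 0, 0, 0, true, false⟩, ⟨1, 0, 0, 1, false, true⟩, ⟨2, 0, 0, 2, true, true⟩],
   [⟨0, 0, 0, 0, true, true⟩, ⟨2, 0, 0, 1, true, false⟩, ⟨3, 0, 0, 2, false, true⟩],
   [⟨0, 0, 0, 0, true, true⟩, ⟨1, 0, 0, 1, true, false⟩, ⟨2, 0, 0, 2, false, true⟩],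
   [⟨0, 2, 0, 0, false, true⟩, ⟨1, 2, 0, 1, true, false⟩, ⟨3, 2, 0, 2, true, true⟩],
   [⟨0, 2, 0, 0, false, true⟩, ⟨1, 2, 0, 1, true, false⟩, ⟨2, 2, 0, 2, true, true⟩],
   [⟨0, 2, 0, 0, true, false⟩, ⟨2, 2, 0, 1, true, true⟩, ⟨3, 2, 0, 2, false, true⟩],
   [⟨0, 2, 0, 0, true, false⟩, ⟨1, 2, 0, 1, true, true⟩, ⟨3, 2, 0, 2, false, true⟩],
   [⟨0, 2, 0, 0, true, true⟩, ⟨2, 2, 0, 1, false, true⟩, ⟨3, 2, 0, 2, true, false⟩],
   [⟨0, 2, 0, 0, true, true⟩, ⟨1, 2, 0, 1, false, true⟩, ⟨2, 2, 0, 2, true, false⟩]],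
  [[⟨1, 0, 0, 0, false, true⟩, ⟨2, 0, 0, 1, true, true⟩, ⟨3, 0, 0, 2, true, false⟩],
   [⟨1, 2, 0, 0, true, false⟩, ⟨2, 2, 0, 1, true, true⟩, ⟨3, 2, 0, 2, false, true⟩],
   [⟨0, 0, 0, 0, false, true⟩, ⟨1, 0, 0, 1, true, true⟩, ⟨2, 0, 0, 2, true, false⟩],
   [⟨0, 0, 0, 0, true, false⟩, ⟨2, 0, 0, 1, false, true⟩, ⟨3, 0, 0, 2, true, true⟩],
   [⟨0, 0, 0, 0, true, true⟩, ⟨1, 0, 0, 1, true, false⟩, ⟨3, 0, 0, 2, false, true⟩],
   [⟨0, 2, 0, 0, false, true⟩, ⟨2, 2, 0, 1, true, false⟩, ⟨3, 2, 0, 2, true, true⟩],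
   [⟨0, 2, 0, 0, true, false⟩, ⟨1, 2, 0, 1, true, true⟩, ⟨2, 2, 0, 2, false, true⟩],
   [⟨0, 2, 0, 0, true, true⟩, ⟨1, 2, 0, 1, false, true⟩, ⟨3, 2, 0, 2, true, false⟩],
   [⟨1, 0, 0, 0, false, true⟩, ⟨2, 0, 0, 1, true, true⟩, ⟨3, 2, 0, 2, true, false⟩],
   [⟨1, 0, 0, 0, true, false⟩, ⟨2, 2, 0, 1, true, true⟩, ⟨3, 2, 0, 2, false, true⟩],
   [⟨1, 2, 0, 0, false, true⟩, ⟨2, 0, 0, 1, true, true⟩, ⟨3, 0, 0, 2, true, false⟩],
   [⟨1, 2, 0, 0, true, false⟩, ⟨2, 2, 0, 1, true, true⟩, ⟨3, 0, 0, 2, false, true⟩],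
   [⟨0, 0, 0, 0, false, true⟩, ⟨2, 2, 0, 1, true, false⟩, ⟨3, 2, 0, 2, true, true⟩],
   [⟨0, 0, 0, 0, false, true⟩, ⟨1, 0, 0, 1, true, true⟩, ⟨2, 2, 0, 2, true, false⟩],
   [⟨0, 0, 0, 0, true, false⟩, ⟨2, 2, 0, 1, false, true⟩, ⟨3, 0, 0, 2, true, true⟩],
   [⟨0, 0, 0, 0, true, false⟩, ⟨1, 2, 0, 1, true, true⟩, ⟨2, 2, 0, 2, false, true⟩]],
  [[⟨0, 0, 0, 0, true, true⟩, ⟨1, 0, 0, 1, true, false⟩, ⟨3, 2, 0, 2, false, true⟩],
   [⟨0, 0, 0, 0, true, true⟩, ⟨1, 2, 0, 1, true, false⟩, ⟨3, 0, 0, 2, false, true⟩],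
   [⟨0, 2, 0, 0, false, true⟩, ⟨2, 0, 0, 1, true, false⟩, ⟨3, 2, 0, 2, true, true⟩],
   [⟨0, 2, 0, 0, false, true⟩, ⟨1, 0, 0, 1, true, true⟩, ⟨2, 0, 0, 2, true, false⟩],
   [⟨0, 2, 0, 0, true, false⟩, ⟨2, 0, 0, 1, false, true⟩, ⟨3, 0, 0, 2, true, true⟩],
   [⟨0, 2, 0, 0, true, false⟩, ⟨1, 2, 0, 1, true, true⟩, ⟨2, 0, 0, 2, false, true⟩],
   [⟨0, 2, 0, 0, true, true⟩, ⟨1, 0, 0, 1, false, true⟩, ⟨3, 2, 0, 2, true, false⟩],
   [⟨0, 2, 0, 0, true, true⟩, ⟨1, 2, 0, 1, false, true⟩, ⟨3, 0, 0, 2, true, false⟩],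
   [⟨2, 0, 0, 0, false, true⟩, ⟨3, 0, 0, 1, true, false⟩],
   [⟨2, 2, 0, 0, true, false⟩, ⟨3, 2, 0, 1, false, true⟩],
   [⟨1, 0, 0, 0, false, true⟩, ⟨2, 0, 0, 1, true, false⟩],
   [⟨1, 2, 0, 0, true, false⟩, ⟨2, 2, 0, 1, false, true⟩],
   [⟨0, 0, 0, 0, false, true⟩, ⟨1, 0, 0, 1, true, false⟩],
   [⟨0, 0, 0, 0, false, true⟩, ⟨1, 1, 0, 0, false, false⟩, ⟨2, 0, 1, 1, false, true⟩, ⟨3, 1, 1, 0, false, false⟩],
   [⟨0, 0, 0, 0, true, false⟩, ⟨3, 0, 0, 1, false, true⟩],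
   [⟨0, 0, 0, 0, true, false⟩, ⟨1, 3, 1, 0, false, false⟩, ⟨2, 0, 1, 1, true, false⟩, ⟨3, 3, 0, 0, false, false⟩]],
  [[⟨0, 1, 0, 0, false, false⟩, ⟨1, 0, 1, 0, false, true⟩, ⟨2, 1, 1, 0, false, false⟩, ⟨3, 0, 0, 1, false, true⟩],
   [⟨0, 1, 0, 0, false, false⟩, ⟨1, 2, 0, 0, false, true⟩, ⟨2, 1, 1, 0, false, false⟩, ⟨3, 2, 1, 1, false, true⟩],
   [⟨0, 2, 0, 0, false, true⟩, ⟨3, 2, 0, 1, true, false⟩],
   [⟨0, 2, 0, 0, false, true⟩, ⟨1, 1, 1, 0, false, false⟩, ⟨2, 2, 1, 1, false, true⟩, ⟨3, 1, 0, 0, false, false⟩],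
   [⟨0, 2, 0, 0, true, false⟩, ⟨1, 2, 0, 1, false, true⟩],
   [⟨0, 2, 0, 0, true, false⟩, ⟨1, 3, 0, 0, false, false⟩, ⟨2, 2, 1, 1, true, false⟩, ⟨3, 3, 1, 0, false, false⟩],
   [⟨0, 3, 0, 0, false, false⟩, ⟨1, 0, 0, 0, true, false⟩, ⟨2, 3, 1, 0, false, false⟩, ⟨3, 0, 1, 1, true, false⟩],
   [⟨0, 3, 0, 0, false, false⟩, ⟨1, 2, 1, 0, true, false⟩, ⟨2, 3, 1, 0, false, false⟩, ⟨3, 2, 0, 1, true, false⟩],
   [⟨0, 0, 0, 0, false, true⟩, ⟨1, 0, 0, 1, true, false⟩, ⟨2, 0, 1, 2, false, true⟩, ⟨3, 2, 1, 3, true, false⟩],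
   [⟨0, 0, 0, 0, false, true⟩, ⟨1, 0, 0, 1, true, false⟩, ⟨2, 2, 1, 2, false, true⟩, ⟨3, 0, 1, 3, true, false⟩],
   [⟨0, 0, 0, 0, false, true⟩, ⟨1, 2, 0, 1, true, false⟩, ⟨2, 0, 1, 2, false, true⟩, ⟨3, 0, 1, 3, true, false⟩],
   [⟨0, 0, 0, 0, false, true⟩, ⟨1, 2, 1, 1, true, false⟩, ⟨2, 2, 1, 2, false, true⟩, ⟨3, 2, 0, 3, true, false⟩],
   [⟨0, 0, 0, 0, true, false⟩, ⟨1, 0, 1, 1, false, true⟩, ⟨2, 0, 1, 2, true, false⟩, ⟨3, 2, 0, 3, false, true⟩],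
   [⟨0, 0, 0, 0, true, false⟩, ⟨1, 0, 1, 1, false, true⟩, ⟨2, 2, 1, 2, true, false⟩, ⟨3, 0, 0, 3, false, true⟩],
   [⟨0, 0, 0, 0, true, false⟩, ⟨1, 2, 0, 1, false, true⟩, ⟨2, 2, 1, 2, true, false⟩, ⟨3, 2, 1, 3, false, true⟩],
   [⟨0, 0, 0, 0, true, false⟩, ⟨1, 2, 1, 1, false, true⟩, ⟨2, 0, 1, 2, true, false⟩, ⟨3, 0, 0, 3, false, true⟩]],
  [[⟨0, 2, 0, 0, false, true⟩, ⟨1, 0, 0, 1, true, false⟩, ⟨2, 0, 1, 2, false, true⟩, ⟨3, 0, 1, 3, true, false⟩],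
   [⟨0, 2, 0, 0, false, true⟩, ⟨1, 0, 1, 1, true, false⟩, ⟨2, 2, 1, 2, false, true⟩, ⟨3, 2, 0, 3, true, false⟩],
   [⟨0, 2, 0, 0, false, true⟩, ⟨1, 2, 1, 1, true, false⟩, ⟨2, 0, 1, 2, false, true⟩, ⟨3, 2, 0, 3, true, false⟩],
   [⟨0, 2, 0, 0, false, true⟩, ⟨1, 2, 1, 1, true, false⟩, ⟨2, 2, 1, 2, false, true⟩, ⟨3, 0, 0, 3, true, false⟩],
   [⟨0, 2, 0, 0, true, false⟩, ⟨1, 0, 0, 1, false, true⟩, ⟨2, 2, 1, 2, true, false⟩, ⟨3, 2, 1, 3, false, true⟩],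
   [⟨0, 2, 0, 0, true, false⟩, ⟨1, 0, 1, 1, false, true⟩, ⟨2, 0, 1, 2, true, false⟩, ⟨3, 0, 0, 3, false, true⟩],
   [⟨0, 2, 0, 0, true, false⟩, ⟨1, 2, 0, 1, false, true⟩, ⟨2, 0, 1, 2, true, false⟩, ⟨3, 2, 1, 3, false, true⟩],
   [⟨0, 2, 0, 0, true, false⟩, ⟨1, 2, 0, 1, false, true⟩, ⟨2, 2, 1, 2, true, false⟩, ⟨3, 0, 1, 3, false, true⟩],
   [⟨1, 0, 0, 0, false, true⟩, ⟨2, 2, 0, 1, true, false⟩, ⟨3, 2, 0, 2, true, true⟩],
   [⟨1, 0, 0, 0, true, true⟩, ⟨2, 0, 0, 1, true, false⟩, ⟨3, 2, 0, 2, false, true⟩],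
   [⟨1, 2, 0, 0, true, false⟩, ⟨2, 0, 0, 1, false, true⟩, ⟨3, 0, 0, 2, true, true⟩],
   [⟨1, 2, 0, 0, true, true⟩, ⟨2, 2, 0, 1, false, true⟩, ⟨3, 0, 0, 2, true, false⟩],
   [⟨0, 0, 0, 0, false, true⟩, ⟨1, 0, 0, 1, true, true⟩, ⟨3, 2, 0, 2, true, false⟩],
   [⟨0, 0, 0, 0, false, true⟩, ⟨1, 2, 0, 1, true, false⟩, ⟨2, 2, 0, 2, true, true⟩],
   [⟨0, 0, 0, 0, true, false⟩, ⟨2, 2, 0, 1, true, true⟩, ⟨3, 2, 0, 2, false, true⟩],
   [⟨0, 0, 0, 0, true, false⟩, ⟨1, 2, 0, 1, false, true⟩, ⟨3, 0, 0, 2, true, true⟩]],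
  [[⟨0, 0, 0, 0, true, true⟩, ⟨2, 2, 0, 1, true, false⟩, ⟨3, 0, 0, 2, false, true⟩],
   [⟨0, 0, 0, 0, true, true⟩, ⟨1, 0, 0, 1, true, false⟩, ⟨2, 2, 0, 2, false, true⟩],
   [⟨0, 2, 0, 0, false, true⟩, ⟨2, 0, 0, 1, true, true⟩, ⟨3, 0, 0, 2, true, false⟩],
   [⟨0, 2, 0, 0, false, true⟩, ⟨1, 0, 0, 1, true, false⟩, ⟨3, 2, 0, 2, true, true⟩],
   [⟨0, 2, 0, 0, true, false⟩, ⟨1, 0, 0, 1, false, true⟩, ⟨2, 0, 0, 2, true, true⟩],
   [⟨0, 2, 0, 0, true, false⟩, ⟨1, 2, 0, 1, true, true⟩, ⟨3, 0, 0, 2, false, true⟩],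
   [⟨0, 2, 0, 0, true, true⟩, ⟨2, 0, 0, 1, false, true⟩, ⟨3, 2, 0, 2, true, false⟩],
   [⟨0, 2, 0, 0, true, true⟩, ⟨1, 2, 0, 1, false, true⟩, ⟨2, 0, 0, 2, true, false⟩],
   [⟨0, 0, 0, 0, false, true⟩, ⟨1, 0, 0, 1, true, true⟩, ⟨2, 0, 0, 2, true, true⟩, ⟨3, 0, 0, 3, true, false⟩],
   [⟨0, 0, 0, 0, true, false⟩, ⟨1, 0, 0, 1, false, true⟩, ⟨2, 0, 0, 2, true, true⟩, ⟨3, 0, 0, 3, true, true⟩],
   [⟨0, 0, 0, 0, true, true⟩, ⟨1, 0, 0, 1, true, false⟩, ⟨2, 0, 0, 2, false, true⟩, ⟨3, 0, 0, 3, true, true⟩],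
   [⟨0, 0, 0, 0, true, true⟩, ⟨1, 0, 0, 1, true, true⟩, ⟨2, 0, 0, 2, true, false⟩, ⟨3, 0, 0, 3, false, true⟩],
   [⟨0, 2, 0, 0, false, true⟩, ⟨1, 2, 0, 1, true, false⟩, ⟨2, 2, 0, 2, true, true⟩, ⟨3, 2, 0, 3, true, true⟩],
   [⟨0, 2, 0, 0, true, false⟩, ⟨1, 2, 0, 1, true, true⟩, ⟨2, 2, 0, 2, true, true⟩, ⟨3, 2, 0, 3, false, true⟩],
   [⟨0, 2, 0, 0, true, true⟩, ⟨1, 2, 0, 1, false, true⟩, ⟨2, 2, 0, 2, true, false⟩, ⟨3, 2, 0, 3, true, true⟩],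
   [⟨0, 2, 0, 0, true, true⟩, ⟨1, 2, 0, 1, true, true⟩, ⟨2, 2, 0, 2, false, true⟩, ⟨3, 2, 0, 3, true, false⟩]],
  [[⟨0, 0, 0, 0, false, true⟩, ⟨1, 1, 0, 0, false, false⟩, ⟨2, 3, 1, 0, false, false⟩, ⟨3, 0, 1, 1, true, false⟩],
   [⟨0, 0, 0, 0, true, false⟩, ⟨1, 0, 1, 1, false, true⟩, ⟨2, 1, 1, 0, false, false⟩, ⟨3, 3, 0, 0, false, false⟩],
   [⟨0, 1, 0, 0, false, false⟩, ⟨1, 2, 0, 0, false, true⟩, ⟨2, 2, 1, 1, true, false⟩, ⟨3, 3, 1, 0, false, false⟩],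
   [⟨0, 1, 0, 0, false, false⟩, ⟨1, 3, 1, 0, false, false⟩, ⟨2, 0, 1, 0, true, false⟩, ⟨3, 0, 0, 1, false, true⟩],
   [⟨0, 2, 0, 0, false, true⟩, ⟨1, 2, 1, 1, true, false⟩, ⟨2, 3, 1, 0, false, false⟩, ⟨3, 1, 0, 0, false, false⟩],
   [⟨0, 2, 0, 0, true, false⟩, ⟨1, 3, 0, 0, false, false⟩, ⟨2, 1, 1, 0, false, false⟩, ⟨3, 2, 1, 1, false, true⟩],
   [⟨0, 3, 0, 0, false, false⟩, ⟨1, 0, 0, 0, true, false⟩, ⟨2, 0, 1, 1, false, true⟩, ⟨3, 1, 1, 0, false, false⟩],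
   [⟨0, 3, 0, 0, false, false⟩, ⟨1, 1, 1, 0, false, false⟩, ⟨2, 2, 1, 0, false, true⟩, ⟨3, 2, 0, 1, true, false⟩],
   [⟨0, 0, 0, 0, false, true⟩, ⟨1, 0, 0, 1, true, true⟩, ⟨2, 0, 0, 2, true, false⟩, ⟨3, 2, 0, 1, true, true⟩],
   [⟨0, 0, 0, 0, false, true⟩, ⟨1, 0, 0, 1, true, true⟩, ⟨2, 2, 0, 2, true, false⟩, ⟨3, 2, 0, 1, true, true⟩],
   [⟨0, 0, 0, 0, true, false⟩, ⟨1, 2, 0, 1, true, true⟩, ⟨2, 0, 0, 2, false, true⟩, ⟨3, 0, 0, 1, true, true⟩],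
   [⟨0, 0, 0, 0, true, false⟩, ⟨1, 2, 0, 1, true, true⟩, ⟨2, 2, 0, 2, false, true⟩, ⟨3, 0, 0, 1, true, true⟩],
   [⟨0, 0, 0, 0, true, true⟩, ⟨1, 0, 0, 1, true, false⟩, ⟨2, 2, 0, 0, true, true⟩, ⟨3, 0, 0, 2, false, true⟩],
   [⟨0, 0, 0, 0, true, true⟩, ⟨1, 0, 0, 1, true, false⟩, ⟨2, 2, 0, 0, true, true⟩, ⟨3, 2, 0, 2, false, true⟩],
   [⟨0, 0, 0, 0, true, true⟩, ⟨1, 2, 0, 1, true, false⟩, ⟨2, 2, 0, 0, true, true⟩, ⟨3, 0, 0, 2, false, true⟩],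
   [⟨0, 0, 0, 0, true, true⟩, ⟨1, 2, 0, 1, true, false⟩, ⟨2, 2, 0, 0, true, true⟩, ⟨3, 2, 0, 2, false, true⟩]],
  [[⟨0, 2, 0, 0, false, true⟩, ⟨1, 0, 0, 1, true, true⟩, ⟨2, 0, 0, 2, true, false⟩, ⟨3, 2, 0, 1, true, true⟩],
   [⟨0, 2, 0, 0, false, true⟩, ⟨1, 0, 0, 1, true, true⟩, ⟨2, 2, 0, 2, true, false⟩, ⟨3, 2, 0, 1, true, true⟩],
   [⟨0, 2, 0, 0, true, false⟩, ⟨1, 2, 0, 1, true, true⟩, ⟨2, 0, 0, 2, false, true⟩, ⟨3, 0, 0, 1, true, true⟩],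
   [⟨0, 2, 0, 0, true, false⟩, ⟨1, 2, 0, 1, true, true⟩, ⟨2, 2, 0, 2, false, true⟩, ⟨3, 0, 0, 1, true, true⟩],
   [⟨0, 2, 0, 0, true, true⟩, ⟨1, 0, 0, 1, false, true⟩, ⟨2, 0, 0, 0, true, true⟩, ⟨3, 0, 0, 2, true, false⟩],
   [⟨0, 2, 0, 0, true, true⟩, ⟨1, 0, 0, 1, false, true⟩, ⟨2, 0, 0, 0, true, true⟩, ⟨3, 2, 0, 2, true, false⟩],
   [⟨0, 2, 0, 0, true, true⟩, ⟨1, 2, 0, 1, false, true⟩, ⟨2, 0, 0, 0, true, true⟩, ⟨3, 0, 0, 2, true, false⟩],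
   [⟨0, 2, 0, 0, true, true⟩, ⟨1, 2, 0, 1, false, true⟩, ⟨2, 0, 0, 0, true, true⟩, ⟨3, 2, 0, 2, true, false⟩],
   [⟨0, 0, 0, 0, false, true⟩, ⟨1, 0, 0, 1, true, true⟩, ⟨2, 2, 0, 2, true, false⟩, ⟨3, 2, 0, 3, true, true⟩],
   [⟨0, 0, 0, 0, true, false⟩, ⟨1, 2, 0, 1, true, true⟩, ⟨2, 2, 0, 2, false, true⟩, ⟨3, 0, 0, 3, true, true⟩],
   [⟨0, 0, 0, 0, true, true⟩, ⟨1, 0, 0, 1, true, false⟩, ⟨2, 2, 0, 2, true, true⟩, ⟨3, 2, 0, 3, false, true⟩],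
   [⟨0, 0, 0, 0, true, true⟩, ⟨1, 2, 0, 1, true, false⟩, ⟨2, 2, 0, 2, true, true⟩, ⟨3, 0, 0, 3, false, true⟩],
   [⟨0, 2, 0, 0, false, true⟩, ⟨1, 0, 0, 1, true, true⟩, ⟨2, 0, 0, 2, true, false⟩, ⟨3, 2, 0, 3, true, true⟩],
   [⟨0, 2, 0, 0, true, false⟩, ⟨1, 2, 0, 1, true, true⟩, ⟨2, 0, 0, 2, false, true⟩, ⟨3, 0, 0, 3, true, true⟩],
   [⟨0, 2, 0, 0, true, true⟩, ⟨1, 0, 0, 1, false, true⟩, ⟨2, 0, 0, 2, true, true⟩, ⟨3, 2, 0, 3, true, false⟩],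
   [⟨0, 2, 0, 0, true, true⟩, ⟨1, 2, 0, 1, false, true⟩, ⟨2, 0, 0, 2, true, true⟩, ⟨3, 0, 0, 3, true, false⟩]]]

/-- coded states of a rectangle, in groups of 16 -/
noncomputable def tlT : List (List (List Ent)) := [
  [[⟨0, 0, 0, 0, true, true⟩, ⟨1, 1, 0, 0, false, false⟩, ⟨2, 2, 0, 0, true, true⟩, ⟨3, 3, 0, 0, false, false⟩],
   [⟨0, 1, 0, 0, false, false⟩, ⟨1, 2, 0, 0, true, true⟩, ⟨2, 3, 0, 0, false, false⟩, ⟨3, 0, 0, 0, true, true⟩],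
   [⟨0, 2, 0, 0, true, true⟩, ⟨1, 3, 0, 0, false, false⟩, ⟨2, 0, 0, 0, true, true⟩, ⟨3, 1, 0, 0, false, false⟩],
   [⟨0, 3, 0, 0, false, false⟩, ⟨1, 0, 0, 0, true, true⟩, ⟨2, 1, 0, 0, false, false⟩, ⟨3, 2, 0, 0, true, true⟩],
   [⟨0, 0, 0, 0, false, false⟩],
   [⟨0, 1, 0, 0, false, false⟩],
   [⟨0, 2, 0, 0, false, false⟩],
   [⟨0, 3, 0, 0, false, false⟩],
   [⟨1, 1, 0, 0, false, false⟩],
   [⟨1, 2, 0, 0, false, false⟩],
   [⟨1, 3, 0, 0, false, false⟩],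
   [⟨1, 0, 0, 0, false, false⟩],
   [⟨0, 0, 0, 0, false, true⟩, ⟨1, 1, 0, 0, false, false⟩],
   [⟨0, 1, 0, 0, false, false⟩, ⟨1, 2, 0, 0, false, true⟩],
   [⟨0, 2, 0, 0, true, false⟩, ⟨1, 3, 0, 0, false, false⟩],
   [⟨0, 3, 0, 0, false, false⟩, ⟨1, 0, 0, 0, true, false⟩]],
  [[⟨2, 2, 0, 0, false, false⟩],
   [⟨2, 3, 0, 0, false, false⟩],
   [⟨2, 0, 0, 0, false, false⟩],
   [⟨2, 1, 0, 0, false, false⟩],
   [⟨0, 0, 0, 0, false, false⟩, ⟨2, 2, 0, 0, false, false⟩],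
   [⟨0, 1, 0, 0, false, false⟩, ⟨2, 3, 0, 0, false, false⟩],
   [⟨0, 2, 0, 0, false, false⟩, ⟨2, 0, 0, 0, false, false⟩],
   [⟨0, 3, 0, 0, false, false⟩, ⟨2, 1, 0, 0, false, false⟩],
   [⟨1, 1, 0, 0, false, false⟩, ⟨2, 2, 0, 0, false, true⟩],
   [⟨1, 2, 0, 0, true, false⟩, ⟨2, 3, 0, 0, false, false⟩],
   [⟨1, 3, 0, 0, false, false⟩, ⟨2, 0, 0, 0, true, false⟩],
   [⟨1, 0, 0, 0, false, true⟩, ⟨2, 1, 0, 0, false, false⟩],
   [⟨0, 0, 0, 0, false, true⟩, ⟨1, 1, 0, 0, false, false⟩, ⟨2, 2, 0, 0, false, true⟩],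
   [⟨0, 1, 0, 0, false, false⟩, ⟨1, 2, 0, 0, true, true⟩, ⟨2, 3, 0, 0, false, false⟩],
   [⟨0, 2, 0, 0, true, false⟩, ⟨1, 3, 0, 0, false, false⟩, ⟨2, 0, 0, 0, true, false⟩],
   [⟨0, 3, 0, 0, false, false⟩, ⟨1, 0, 0, 0, true, true⟩, ⟨2, 1, 0, 0, false, false⟩]],
  [[⟨3, 3, 0, 0, false, false⟩],
   [⟨3, 0, 0, 0, false, false⟩],
   [⟨3, 1, 0, 0, false, false⟩],
   [⟨3, 2, 0, 0, false, false⟩],
   [⟨0, 0, 0, 0, true, false⟩, ⟨3, 3, 0, 0, false, false⟩],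
   [⟨0, 1, 0, 0, false, false⟩, ⟨3, 0, 0, 0, false, true⟩],
   [⟨0, 2, 0, 0, false, true⟩, ⟨3, 1, 0, 0, false, false⟩],
   [⟨0, 3, 0, 0, false, false⟩, ⟨3, 2, 0, 0, true, false⟩],
   [⟨1, 1, 0, 0, false, false⟩, ⟨3, 3, 0, 0, false, false⟩],
   [⟨1, 2, 0, 0, false, false⟩, ⟨3, 0, 0, 0, false, false⟩],
   [⟨1, 3, 0, 0, false, false⟩, ⟨3, 1, 0, 0, false, false⟩],
   [⟨1, 0, 0, 0, false, false⟩, ⟨3, 2, 0, 0, false, false⟩],
   [⟨0, 0, 0, 0, true, true⟩, ⟨1, 1, 0, 0, false, false⟩, ⟨3, 3, 0, 0, false, false⟩],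
   [⟨0, 1, 0, 0, false, false⟩, ⟨1, 2, 0, 0, false, true⟩, ⟨3, 0, 0, 0, false, true⟩],
   [⟨0, 2, 0, 0, true, true⟩, ⟨1, 3, 0, 0, false, false⟩, ⟨3, 1, 0, 0, false, false⟩],
   [⟨0, 3, 0, 0, false, false⟩, ⟨1, 0, 0, 0, true, false⟩, ⟨3, 2, 0, 0, true, false⟩]],
  [[⟨2, 2, 0, 0, true, false⟩, ⟨3, 3, 0, 0, false, false⟩],
   [⟨2, 3, 0, 0, false, false⟩, ⟨3, 0, 0, 0, true, false⟩],
   [⟨2, 0, 0, 0, false, true⟩, ⟨3, 1, 0, 0, false, false⟩],
   [⟨2, 1, 0, 0, false, false⟩, ⟨3, 2, 0, 0, false, true⟩],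
   [⟨0, 0, 0, 0, true, false⟩, ⟨2, 2, 0, 0, true, false⟩, ⟨3, 3, 0, 0, false, false⟩],
   [⟨0, 1, 0, 0, false, false⟩, ⟨2, 3, 0, 0, false, false⟩, ⟨3, 0, 0, 0, true, true⟩],
   [⟨0, 2, 0, 0, false, true⟩, ⟨2, 0, 0, 0, false, true⟩, ⟨3, 1, 0, 0, false, false⟩],
   [⟨0, 3, 0, 0, false, false⟩, ⟨2, 1, 0, 0, false, false⟩, ⟨3, 2, 0, 0, true, true⟩],
   [⟨1, 1, 0, 0, false, false⟩, ⟨2, 2, 0, 0, true, true⟩, ⟨3, 3, 0, 0, false, false⟩],
   [⟨1, 2, 0, 0, true, false⟩, ⟨2, 3, 0, 0, false, false⟩, ⟨3, 0, 0, 0, true, false⟩],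
   [⟨1, 3, 0, 0, false, false⟩, ⟨2, 0, 0, 0, true, true⟩, ⟨3, 1, 0, 0, false, false⟩],
   [⟨1, 0, 0, 0, false, true⟩, ⟨2, 1, 0, 0, false, false⟩, ⟨3, 2, 0, 0, false, true⟩],
   [⟨0, 0, 0, 0, true, true⟩, ⟨1, 1, 0, 0, false, false⟩, ⟨2, 2, 0, 0, true, true⟩, ⟨3, 3, 0, 0, false, false⟩],
   [⟨0, 1, 0, 0, false, false⟩, ⟨1, 2, 0, 0, true, true⟩, ⟨2, 3, 0, 0, false, false⟩, ⟨3, 0, 0, 0, true, true⟩],
   [⟨0, 2, 0, 0, true, true⟩, ⟨1, 3, 0, 0, false, false⟩, ⟨2, 0, 0, 0, true, true⟩, ⟨3, 1, 0, 0, false, false⟩],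
   [⟨0, 3, 0, 0, false, false⟩, ⟨1, 0, 0, 0, true, true⟩, ⟨2, 1, 0, 0, false, false⟩, ⟨3, 2, 0, 0, true, true⟩]]]

/-- coded state number `n` of a branch -/
noncomputable def st (n : ℕ) : List Ent := nthK [] (Nat.mod n 16) (nthK [] (Nat.div n 16) stT)

/-- coded state number `n` of a rectangle -/
noncomputable def tl (n : ℕ) : List Ent := nthK [] (Nat.mod n 16) (nthK [] (Nat.mod (Nat.div n 16) 4) tlT)

/-- masks of the classes -/
noncomputable def ct : List (List (ℕ × ℕ)) := [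
  [(1606913619737163306281572188353269862210093520903174583484415, 95406826884961343829544338481984783647989427513327615), (0, 0), (0, 0), (0, 0), (0, 0), (0, 0), (0, 0), (0, 0), (0, 0), (0, 0), (0, 0), (0, 0), (0, 0), (0, 0), (0, 0), (0, 0)],
  [(94543883389898279982404077450222402009466856571258930200575, 19111229644674578804707134561825319349194318634024959), (0, 0), (94543952980760243130677430332699656216171770550847996428287, 12370418538095363551600506228575343214568704617480191), (0, 0), (0, 0), (0, 0), (0, 0), (0, 0), (94543947368593955780010224430538931210517197435825549213695, 6740896741440777611012284634666334298624450633924607), (0, 0), (94543940633994410959209577347955276120194288152399245737983, 327815380587233613262510866748148801957634685107265923390111743), (0, 0), (0, 0), (0, 0), (0, 0), (0, 0)],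
  [(1512405418542750561762137771351350707163244300491911348617215, 32290080464599997028644751634987947649608151950426111), (1512405475038557854425520871964467669997333374392390607962111, 25555452282834768318121490211288439576926582250405887), (0, 0), (0, 0), (1512405456331336896589963518957265518009326230504026402717695, 6835837170150393843089068165677863116952098314387455), (1512405449596737351769162871874681862995557309126494738448383, 81953856476470283484519812171664586086522800223644345931137023), (0, 0), (0, 0), (0, 0), (0, 0), (0, 0), (0, 0), (0, 0), (0, 0), (0, 0), (0, 0)],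
  [(13032988927464769046722357449269350534724205385877553151, 6776830376505545017818014184621018418881521581555711), (0, 0), (0, 0), (0, 0), (13045335693269020686629781065435612699008763429501513727, 28924887976557473996652411279736212291975810313939540747726847), (0, 0), (0, 0), (0, 0), (13058430747610262140001940040472172123258220344896323583, 115699545731971998949059875684592289420001493214752241975492607), (0, 0), (0, 0), (0, 0), (13032988927079685954056272314929396935877724602239987711, 95449057444855754763996877492099559323489554504089599), (0, 0), (0, 0), (0, 0)],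
  [(94529286400600381531726543408645867555662147649886526373887, 76669739397747196842028777927967711321949120780828671), (0, 0), (94529280040145255867636030888289423759181835806898214928383, 51132918434081832348935700304612935799100234902011903), (0, 0), (0, 0), (0, 0), (0, 0), (0, 0), (94529254598324753211278030798563966161659408299482274594815, 25596103123829600255219169903432916637110372258545663), (0, 0), (94529229156504250554920030708778159447652550583455410290687, 327815365990048296388728136588684108576894584721815367296483327), (0, 0), (0, 0), (0, 0), (0, 0), (0, 0)],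
  [(94524324960610286459065582957895245848270564474682221789183, 81953864681415560106680134681087478458022279585865706185424895), (0, 0), (94524324960610166592560140855794537989664070570391758528511, 81953856444205106170381467470389306704315242187296769163919359), (0, 0), (0, 0), (0, 0), (0, 0), (0, 0), (94524324960608144716403664700461236909678748720367079979775, 81953848494418955727336498800132992555590348435289405818667007), (0, 0), (94524324960608024849898222598360529799272194445736030264063, 81953864681415554397776476143171157829973485138927590569934847), (0, 0), (0, 0), (0, 0), (0, 0), (0, 0)],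
  [(3186511319599060954676750620410152651350638947861528575, 25739269445629083646636187444184896231707208172175359), (3237394960512360638013375467885898070182256660698365951, 53028968563381683957308772922349772490240171115651440951427071), (0, 0), (0, 0), (0, 0), (0, 0), (0, 0), (0, 0), (3193245919088118960086651828681237774554425644193676031, 212115823598718068752486051619457457428013270060959035929131775), (3186511319451285126776008962556417186407349071950379775, 95704272945475638950873829221495774590170059931385855), (0, 0), (0, 0), (0, 0), (0, 0), (0, 0), (0, 0)],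
  [(16186996603966503237467678250582827727922126245064605695, 24424160139567965616691178396363404770765739851612422143), (0, 0), (0, 0), (0, 0), (0, 0), (0, 0), (0, 0), (0, 0), (12451308943003697278251546029099355188743190280959, 8237175989172000726099044689130913248083472920059314175), (0, 0), (0, 0), (0, 0), (0, 0), (0, 0), (0, 0), (0, 0)],
  [(1512397499810586908724194412555479088707600026760303391801343, 63490887392136455497305213961314741866853467359805439), (1512397519640241124029884995806001429033396473187572880769023, 51144063042635362127797589554145907990965135765143551), (0, 0), (0, 0), (1512397481103365950888636848611234544088921578289945894715391, 12560386276256071769378887135293406338478746804158463), (1512397468756600118717168995626490164606759504944182474047487, 81953848557816004971098197805568194973747480127024313158074367), (0, 0), (0, 0), (0, 0), (0, 0),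 (0, 0), (0, 0), (0, 0), (0, 0), (0, 0), (0, 0)],
  [(6525529512870828131909973520651195242130145258340614143, 12423465975388243302558787977665018124519325772546047), (0, 0), (6576413153696330158175852061992540979803743948689506303, 212115834931705919105073576722428160822279876012364208496574463), (0, 0), (6532264111701305729113600542260039195135895700259206655, 53028957203762227015737641772611002400189976735495661786494463), (0, 0), (6525529511976674238732202373103542730403219245154301439, 95483525243595828351884831241270516309295838439407615), (0, 0), (0, 0), (0, 0), (0, 0), (0, 0), (0, 0), (0, 0), (0, 0), (0, 0)],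
  [(1512389199369731843845001675672338849802586346794270156914687, 327815385453296475384714681614480655116949895559122699310596095), (1512389199369731306884871192302170917826608643153794153316351, 327815380568181941088707437128877670834082916854245483666735103), (0, 0), (0, 0), (1512389199369728933510640981494198282707105271151263580399103, 327815365913948547059279953082440410006491499358455648644759551), (1512389199369728396550510498124030351191835000751683628410367, 327815385453296469675811023076561244590563044803018435481042943), (0, 0), (0, 0), (0, 0), (0, 0), (0, 0), (0, 0), (0, 0), (0, 0), (0, 0), (0, 0)],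
  [(19539347927583258788350469962910792526625974908904013823, 24424177466354955067740528102930092313215863789335871487), (0, 0), (0, 0), (0, 0), (29778095881353103997118595316876004194357776197119, 4884859320314805767597555975999406561302755601163485183), (0, 0), (0, 0), (0, 0), (0, 0), (0, 0), (0, 0), (0, 0), (0, 0), (0, 0), (0, 0), (0, 0)],
  [(1775273038338713378318325255679834463560668005586173951, 51215555634662483289349625231582151172751136091275263), (1800714857413903922571122048327447256345537613469057023, 28924891386425248293928026052669331031272750826849337018679295), (1787619801316299455730636838341001501690727281100546047, 115699542410981670772847749650083470870840840797898229845811199), (1775273034056662174130355740219832492777163265398235135, 95738740744238502152749515352636298097462191243395071), (0, 0), (0, 0), (0, 0), (0, 0), (0, 0), (0, 0), (0, 0), (0, 0),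 (0, 0), (0, 0), (0, 0), (0, 0)],
  [(8237210450901984216809920384040115022670405493902540799, 24424194604745249080210388410241545436575745841408507903), (0, 0), (46916486222435773445579713162360058873334423445503, 16187031072591082642457648444923210767988280749446922239), (0, 0), (0, 0), (0, 0), (0, 0), (0, 0), (0, 0), (0, 0), (0, 0), (0, 0), (0, 0), (0, 0), (0, 0), (0, 0)],
  [(4885114532776608598185914564648982268242647354078920703, 24424432681078373976662630592564919905409771896253186047), (284992819293370991135114710946978580478849933639679, 19539603144568286885583545616777153695783444290169995263), (0, 0), (0, 0), (0, 0), (0, 0), (0, 0), (0, 0), (0, 0), (0, 0), (0, 0), (0, 0), (0, 0), (0, 0), (0, 0), (0, 0)],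
  [(24424147682550190791042859509670992290738964861357654015, 24424521826969260389903987971968474623737217211795767295), (0, 0), (0, 0), (0, 0), (0, 0), (0, 0), (0, 0), (0, 0), (0, 0), (0, 0), (0, 0), (0, 0), (0, 0), (0, 0), (0, 0), (0, 0)]]

/-- the classes -/
noncomputable def rows : List (ℕ × ℕ × Bool) := [(0, 0, false), (0, 0, true), (1, 0, false), (1, 2, false), (1, 8, false), (1, 10, false), (1, 0, true), (1, 2, true), (1, 8, true), (1, 10, true), (2, 0, false), (2, 1, false), (2, 4, false), (2, 5, false), (2, 0, true), (2, 1, true), (2, 4, true), (2, 5, true), (3, 0, false), (3, 4, false), (3, 8, false), (3, 12, false), (3, 0, true), (3, 4, true), (3, 8, true), (3, 12, true), (4, 0, false), (4, 2, false), (4, 8, false), (4, 10, false), (4, 0, true), (4, 2, true), (4, 8, true), (4, 10, true), (5, 0, false), (5, 2, false), (5, 8, false), (5, 10, false), (5, 0, true),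 (5, 2, true), (5, 8, true), (5, 10, true), (6, 0, false), (6, 1, false), (6, 8, false), (6, 9, false), (6, 0, true), (6, 1, true), (6, 8, true), (6, 9, true), (7, 0, false), (7, 8, false), (7, 0, true), (7, 8, true), (8, 0, false), (8, 1, false), (8, 4, false), (8, 5, false), (8, 0, true), (8, 1, true), (8, 4, true), (8, 5, true), (9, 0, false), (9, 2, false), (9, 4, false), (9, 6, false), (9, 0, true), (9, 2, true), (9, 4, true), (9, 6, true), (10, 0, false), (10, 1, false), (10, 4, false), (10, 5, false), (10, 0, true), (10, 1, true), (10, 4, true), (10, 5, true), (11, 0, false), (11, 4, false), (11, 0, true), (11, 4, true), (12, 0, false), (12, 1, false), (12, 2, false), (12, 3, false), (12, 0, true), (12, 1, true), (12, 2, true), (12, 3, true), (13, 0, false), (13, 2, false), (13, 0, true), (13, 2, true), (14, 0, false), (14, 1, false), (14, 0, true), (14, 1, true), (15,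 0, false), (15, 0, true)]

/-- rotation of the states, in groups of 16 -/
noncomputable def rsT : List (List ℕ) := [
  [2,
   3,
   5,
   7,
   1,
   6,
   0,
   4,
   12,
   13,
   14,
   15,
   17,
   19,
   20,
   23],
  [9,
   22,
   10,
   16,
   18,
   11,
   8,
   21,
   32,
   33,
   34,
   35,
   36,
   37,
   38,
   39],
  [26,
   30,
   24,
   28,
   27,
   31,
   25,
   29,
   44,
   45,
   46,
   47,
   43,
   42,
   41,
   40],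
  [52,
   53,
   54,
   55,
   56,
   59,
   61,
   63,
   58,
   51,
   48,
   60,
   49,
   62,
   50,
   57],
  [69,
   73,
   75,
   79,
   65,
   72,
   66,
   74,
   76,
   77,
   67,
   78,
   64,
   68,
   70,
   71],
  [87,
   89,
   91,
   95,
   81,
   88,
   84,
   85,
   80,
   86,
   92,
   93,
   83,
   94,
   82,
   90],
  [98,
   102,
   100,
   96,
   99,
   97,
   103,
   101,
   109,
   111,
   115,
   117,
   107,
   113,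
   106,
   119],
  [110,
   116,
   105,
   112,
   104,
   118,
   108,
   114,
   122,
   123,
   124,
   132,
   126,
   128,
   120,
   134],
  [125,
   131,
   121,
   129,
   130,
   135,
   127,
   133,
   141,
   143,
   149,
   151,
   137,
   138,
   147,
   144],
  [140,
   142,
   148,
   150,
   139,
   136,
   145,
   146,
   157,
   161,
   164,
   167,
   160,
   165,
   155,
   162],
  [154,
   159,
   153,
   158,
   156,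
   166,
   152,
   163,
   171,
   168,
   169,
   170,
   173,
   175,
   172,
   174],
  [179,
   176,
   180,
   182,
   181,
   183,
   177,
   178,
   188,
   190,
   196,
   198,
   186,
   187,
   194,
   195],
  [189,
   191,
   197,
   199,
   184,
   185,
   192,
   193,
   203,
   207,
   201,
   205,
   202,
   206,
   200,
   204]]

/-- rotation of the state number `n` -/
noncomputable def rs (n : ℕ) : ℕ := nthK 0 (Nat.mod n 16) (nthK [] (Nat.div n 16) rsT)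

end Pool.Agent.Ortho.Cert
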