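import Pool.Agent.Ortho.Cert.Data

set_option autoImplicit false

/-!
# Ortho/Cert/P0_0: derivations of the pattern T = 0, top = 0 (generated)
-/

namespace Pool.Agent.Ortho.Cert

/-- derivations -/
noncomputable def Dp0_0 : List DE := [
  .d 16 25 37 23 44, .d 18 27 39 21 46, .d 16 21 15 51 44, .d 18 23 13 49 46, .d 21 18 27 39 29, .d 21 15 59 35 21,
  .d 23 16 25 37 31, .d 23 13 57 33 23, .d 24 40 36 23 36, .d 40 48 21 12 27, .d 26 42 38 21 38, .d 42 50 23 14 25,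
  .d 40 36 23 24 49, .d 48 21 12 40 12, .d 42 38 21 26 51, .d 50 23 14 42 14, .d 12 40 48 21 50, .d 36 23 24 40 26,
  .d 21 26 42 38 13, .d 21 12 40 48 37, .d 38 21 26 42 24, .d 14 42 50 23 48, .d 23 24 40 36 15, .d 23 14 42 50 39,
  .d 18 12 48 21 54, .d 24 36 11 55 36, .d 48 21 18 12 28, .d 16 21 26 38 28, .d 26 38 9 53 38, .d 16 14 50 23 52,
  .d 18 23 24 36 30, .d 50 23 16 14 30, .d 12 48 29 33 27, .d 36 18 23 24 57, .d 21 18 12 48 45, .d 21 26 38 16 45,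
  .d 38 16 21 26 59, .d 14 50 31 35 25, .d 23 24 36 18 47, .d 23 16 14 50 47, .d 50 12 48 14 22, .d 24 36 26 38 20,
  .d 26 38 24 36 22, .d 48 14 50 12 20, .d 12 48 14 50 43, .d 36 26 38 24 41, .d 38 24 36 26 43, .d 14 50 12 48 41,
  .d 41 33 20 29 50, .d 9 41 53 22 51, .d 43 35 22 31 48, .d 11 43 55 20 49, .d 33 20 29 41 27, .d 41 53 22 9 24,
  .d 35 22 31 43 25, .d 43 55 20 11 26, .d 20 29 41 33 12, .d 20 11 43 55 36, .d 29 41 33 20 37, .d 53 22 9 41 13,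
  .d 22 9 41 53 38, .d 22 31 43 35 14, .d 31 43 35 22 39, .d 55 20 11 43 15, .d 51 20 21 15 31, .d 25 37 23 20 53,
  .d 49 22 23 13 29, .d 27 39 21 22 55, .d 20 25 37 23 44, .d 20 21 15 51 44, .d 13 49 22 23 56, .d 21 22 27 39 29,
  .d 21 15 51 20 53, .d 37 23 20 25 58, .d 22 27 39 21 46, .d 22 23 13 49 46, .d 15 51 20 21 58, .d 23 20 25 37 31,
  .d 23 13 49 22 55, .d 39 21 22 27 56, .d 40 36 12 60 33, .d 40 44 36 28 33, .d 42 38 14 62 35, .d 42 46 38 30 35,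
  .d 12 40 44 52 33, .d 12 44 40 52 33, .d 36 12 40 60 33, .d 36 12 44 56 33, .d 44 40 36 28 33, .d 44 36 12 56 33,
  .d 38 14 42 62 35, .d 38 14 46 58 35, .d 14 42 46 54 35, .d 14 46 42 54 35, .d 46 42 38 30 35, .d 46 38 14 58 35,
  .d 18 12 60 36 22, .d 16 14 62 38 20, .d 12 60 36 18 43, .d 36 18 12 60 41, .d 60 36 18 12 20, .d 38 16 14 62 43,
  .d 14 62 38 16 41, .d 62 38 16 14 22, .d 50 12 52 14 22, .d 24 36 30 38 20, .d 26 38 28 36 22, .d 48 14 54 12 20,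
  .d 12 48 14 54 43, .d 12 52 14 50 43, .d 36 26 38 28 41, .d 36 30 38 24 41, .d 28 36 26 38 20, .d 52 14 50 12 20,
  .d 38 24 36 30 43, .d 38 28 36 26 43, .d 14 50 12 52 41, .d 14 54 12 48 41, .d 54 12 48 14 22, .d 30 38 24 36 22,
  .n, .n, .n, .n, .n, .n,
  .n, .n, .n, .n, .n, .n,
  .n, .n, .n, .n, .n, .n,
  .n, .n, .n, .n, .n, .n,
  .n, .n, .n, .n, .n, .n,
  .n, .n, .n, .n, .n, .n,
  .n, .n, .n, .n, .n, .n,
  .n, .n, .n, .n, .n, .n,
  .d 12 44 44 52 33, .d 36 12 44 60 33, .d 44 36 12 60 33, .d 44 44 36 28 33, .d 38 14 46 62 35, .d 14 46 46 54 35,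
  .d 46 38 14 62 35, .d 46 46 38 30 35, .n, .n, .n, .n,
  .n, .n, .n, .n, .d 12 60 36 22 43, .d 12 52 14 54 43,
  .d 36 22 12 60 41, .d 36 30 38 28 41, .d 60 36 22 12 20, .d 28 36 30 38 20, .d 52 14 54 12 20, .d 20 14 62 38 20,
  .d 38 28 36 30 43, .d 38 20 14 62 43, .d 14 54 12 52 41, .d 14 62 38 20 41, .d 22 12 60 36 22, .d 54 12 52 14 22,
  .d 30 38 28 36 22, .d 62 38 20 14 22]

theorem ders_p0_0 : dersK nSt st tl false false false false false Dp0_0 0 = true := by decide +kernel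

theorem cfg_p0_0 : cfgK nSt 1 ct rows false false false false false Dp0_0 = true := by decide +kernel

end Pool.Agent.Ortho.Cert
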