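import Pool.Agent.Ortho.Cert.Data

set_option autoImplicit false

/-!
# Ortho/Cert/P15_0: derivations of the pattern T = 15, top = 0 (generated)
-/

namespace Pool.Agent.Ortho.Cert

/-- derivations -/
noncomputable def Dp15_0 : List DE := [
  .d 9 53 4 23 15, .d 14 42 22 34 39, .d 9 35 23 43 15, .d 14 22 5 48 39, .d 19 40 11 38 51, .d 18 39 12 41 27,
  .d 39 12 41 18 12, .d 6 19 11 55 51, .d 43 9 45 23 26, .d 12 41 18 44 37, .d 40 11 46 19 24, .d 14 42 22 47 39,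
  .d 9 45 23 43 15, .d 41 18 44 12 50, .d 11 46 19 40 13, .d 42 22 47 14 48, .d 44 12 41 18 12, .d 45 23 43 9 36,
  .d 19 40 11 46 51, .d 18 44 12 41 27, .d 46 19 40 11 38, .d 47 14 42 22 14, .d 23 43 9 45 49, .d 22 47 14 42 25,
  .d 3 16 12 18 23, .d 0 17 1 7 23, .d 12 18 3 16 21, .d 0 19 11 20 23, .d 1 20 0 5 21, .d 2 21 14 22 21,
  .d 1 23 9 17 21, .d 14 22 2 21 23, .d 16 53 4 55 43, .d 17 10 7 8 43, .d 4 15 16 13 43, .d 5 10 20 8 43,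
  .d 20 50 5 48 43, .d 21 15 6 13 43, .d 7 50 17 48 43, .d 6 53 21 55 43, .d 3 16 2 21 23, .d 0 17 1 20 23,
  .d 1 20 0 17 21, .d 2 21 3 16 21, .d 16 53 21 55 43, .d 17 10 20 8 43, .d 20 50 17 48 43, .d 21 15 16 13 43,
  .d 14 30 16 34 39, .d 0 53 4 20 15, .d 9 53 21 23 15, .d 1 55 6 17 13, .d 3 16 5 48 39, .d 9 35 20 29 15,
  .d 2 21 7 50 37, .d 14 22 17 48 39, .d 16 19 11 55 51, .d 17 24 11 38 51, .d 34 14 30 16 14, .d 4 20 0 53 49,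
  .d 20 50 12 18 27, .d 21 39 12 27 27, .d 39 12 27 21 12, .d 6 17 1 55 51, .d 12 112 18 39 37, .d 9 35 23 113 15,
  .d 14 119 22 34 39, .d 11 38 19 118 13, .d 113 9 35 23 26, .d 112 18 39 12 50, .d 34 14 119 22 14, .d 19 118 11 38 51,
  .d 18 39 12 112 27, .d 35 23 113 9 36, .d 118 11 38 19 24, .d 119 22 34 14 48, .d 39 12 112 18 12, .d 23 113 9 35 49,
  .d 22 34 14 119 25, .d 38 19 118 11 38, .n, .n, .n, .n,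
  .n, .n, .n, .n, .n, .n,
  .n, .n, .n, .n, .n, .n,
  .n, .n, .n, .n, .n, .n,
  .n, .n, .n, .n, .n, .n,
  .n, .n, .n, .n, .n, .n,
  .n, .n, .n, .n, .n, .n,
  .d 1 55 16 17 13, .d 0 53 21 20 15, .d 3 16 17 48 39, .d 2 21 20 50 37, .d 16 17 1 55 51, .d 56 4 32 35 49,
  .d 17 48 3 16 25, .d 57 39 33 7 27, .d 35 56 4 32 36, .d 5 60 34 36 48, .d 20 50 2 21 27, .d 60 34 36 5 25,
  .d 21 20 0 53 49, .d 61 6 37 38 51, .d 7 57 39 33 50, .d 38 61 6 37 38, .n, .n,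
  .n, .n, .n, .n, .n, .n,
  .n, .n, .n, .n, .n, .n,
  .n, .n, .n, .n, .n, .n,
  .n, .n, .n, .n, .n, .n,
  .n, .n, .n, .n, .n, .n,
  .n, .n, .n, .n, .n, .n,
  .n, .n, .d 56 4 39 33 50, .d 57 32 35 7 26, .d 5 60 37 38 51, .d 4 39 33 56 27,
  .d 36 61 6 34 39, .d 61 6 34 36 48, .d 7 57 32 35 49, .d 6 34 36 61 25, .n, .n,
  .n, .n, .n, .n, .n, .n,
  .n, .n, .n, .n, .n, .n,
  .n, .n, .n, .n, .n, .n,
  .n, .n, .n, .n, .n, .n,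
  .n, .n, .n, .n, .n, .n,
  .n, .n, .n, .n, .n, .n,
  .n, .n, .n, .n, .n, .n,
  .n, .n, .n, .n, .n, .n,
  .n, .n, .n, .n, .n, .n,
  .n, .n, .n, .n, .n, .n,
  .n, .n, .n, .n, .n, .n,
  .n, .n, .n, .n, .n, .n,
  .n, .n, .n, .n, .n, .n,
  .n, .n, .n, .n, .n, .n,
  .n, .n, .n, .n, .n, .n,
  .n, .n, .n, .n, .n, .n,
  .n, .n, .n, .n, .n, .n,
  .n, .n, .n, .n, .n, .n,
  .n, .n, .n, .n, .n, .n,
  .n, .n, .n, .n, .n, .n,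
  .n, .n, .n, .n, .n, .n,
  .n, .n, .n, .n, .n, .n,
  .n, .n, .n, .n, .n, .n,
  .n, .n, .n, .n, .n, .n,
  .n, .n, .n, .d 32 35 56 4 15, .n, .d 33 7 57 39 37,
  .d 4 32 35 56 26, .d 34 36 5 60 14, .n, .d 36 5 60 34 39, .n, .d 37 38 61 6 13,
  .d 39 33 7 57 12, .d 6 37 38 61 24, .n, .n, .n, .n,
  .n, .n, .n, .n, .n, .n,
  .n, .n, .n, .n, .n, .n,
  .n, .n, .n, .n, .n, .n,
  .n, .n, .n, .n, .n, .n,
  .n, .n, .n, .n, .n, .n,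
  .n, .n, .n, .n, .n, .n,
  .d 32 35 7 57 15, .d 33 56 4 39 37, .d 34 36 61 6 14, .d 35 7 57 32 36, .d 60 37 38 5 24, .d 37 38 5 60 13,
  .d 39 33 56 4 12, .d 38 5 60 37 38, .n, .n, .n, .n,
  .n, .n, .n, .n, .n, .n,
  .n, .n, .n, .n, .n, .n,
  .n, .n, .n, .n, .n, .n,
  .n, .n, .n, .n, .n, .n,
  .n, .n, .n, .n, .n, .n,
  .n, .n, .n, .n, .n, .n,
  .n, .n, .n, .n, .n, .n,
  .n, .n, .n, .n, .n, .n,
  .n, .n, .n, .n, .n, .n,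
  .n, .n, .n, .n, .n, .n,
  .n, .n, .n, .n, .n, .n,
  .n, .n, .n, .n, .n, .n,
  .n, .n, .n, .n, .n, .n,
  .n, .n, .n, .n, .n, .n,
  .n, .n, .n, .n, .n, .n,
  .n, .n, .n, .n, .n, .n,
  .n, .n, .n, .n, .n, .n,
  .n, .n, .n, .n, .n, .n,
  .n, .n, .n, .n, .n, .n,
  .n, .n, .n, .n, .n, .n,
  .n, .n, .n, .n, .n, .n,
  .n, .n, .n, .n, .n, .n,
  .n, .n, .n, .n, .n, .n,
  .n, .n, .n, .n, .n, .n,
  .n, .d 44 19 136 18 20, .n, .d 45 23 143 22 20, .d 18 44 19 136 43, .d 18 46 19 145 41,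
  .n, .d 46 19 145 18 22, .n, .d 47 23 151 22 22, .d 22 45 23 143 43, .d 22 47 23 151 41,
  .n, .n, .n, .n, .n, .n,
  .n, .n, .n, .n, .n, .n,
  .n, .n, .n, .n, .n, .n,
  .n, .n, .n, .n, .n, .n,
  .n, .n, .n, .n, .n, .n,
  .n, .n, .n, .n, .n, .n,
  .n, .n, .n, .n, .n, .n,
  .n, .n, .n, .n, .n, .n,
  .n, .n, .n, .n, .n, .n,
  .n, .n, .n, .n, .n, .n,
  .n, .n, .n, .n, .n, .n,
  .n, .n, .n, .n, .n, .n,
  .n, .n, .n, .n, .n, .n,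
  .n, .n, .n, .n, .n, .n,
  .n, .n, .n, .n, .n, .n,
  .n, .n, .n, .n, .n, .n,
  .n, .n, .n, .n, .n, .n,
  .n, .n, .n, .n, .n, .n,
  .n, .n, .n, .n, .n, .n,
  .n, .n, .n, .n, .n, .n,
  .n, .n, .n, .n, .n, .n,
  .n, .n, .n, .n, .n, .n,
  .n, .n, .n, .n, .n, .n,
  .n, .n, .n, .n, .n, .n,
  .n, .n, .n, .n, .n, .n,
  .n, .n, .n, .n, .n, .n,
  .n, .n, .n, .n, .n, .n,
  .n, .n, .n, .n, .n, .n,
  .n, .n, .n, .n, .n, .n,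
  .n, .n, .n, .n, .n, .n,
  .n, .n, .n, .n, .n, .n,
  .n, .n, .n, .n, .n, .n,
  .n, .n, .n, .n, .n, .d 136 18 44 19 22,
  .n, .d 143 22 45 23 22, .d 19 136 18 44 41, .d 19 145 18 46 43, .n, .d 145 18 46 19 20,
  .n, .d 151 22 47 23 20, .d 23 143 22 45 41, .d 23 151 22 47 43, .n, .n,
  .n, .n, .n, .n, .n, .n,
  .n, .n, .n, .n, .n, .n,
  .n, .n, .n, .n, .n, .n,
  .n, .n, .n, .n, .n, .n,
  .n, .n, .n, .n, .n, .n,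
  .n, .n, .n, .n, .n, .n,
  .n, .n, .n, .n, .n, .n,
  .n, .n, .n, .n, .n, .n,
  .n, .n, .n, .n, .n, .n,
  .n, .n, .n, .n, .n, .n,
  .n, .n, .n, .n, .n, .n,
  .n, .n, .n, .n, .n, .n,
  .n, .n, .n, .n, .n, .n,
  .n, .n, .n, .n, .n, .n,
  .n, .n, .n, .n, .n, .n,
  .n, .n, .n, .n, .n, .n,
  .n, .n, .n, .n, .n, .n,
  .n, .n, .n, .n, .n, .n,
  .n, .n, .n, .n, .n, .n,
  .n, .n, .n, .n, .n, .n,
  .n, .n, .n, .n, .n, .n,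
  .n, .n, .n, .n, .n, .n,
  .n, .n, .n, .n, .n, .n,
  .n, .n, .n, .n, .n, .n,
  .n, .n, .n, .n, .n, .n,
  .n, .n, .n, .n, .n, .n,
  .n, .n, .n, .n, .n, .n,
  .n, .n, .n, .n, .n, .n,
  .n, .n, .n, .n, .n, .n,
  .n, .n, .n, .n, .n, .n,
  .n, .n, .n, .n, .n, .n,
  .n, .n, .n, .n, .n, .n,
  .n, .n, .n, .d 32 59 176 4 23, .n, .d 177 62 33 7 23,
  .d 59 176 4 32 40, .d 58 36 5 180 42, .n, .d 180 58 36 5 21, .n, .d 37 63 181 6 21,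
  .d 7 177 62 33 42, .d 63 181 6 37 42]

theorem ders_p15_0 : dersK nSt st tl true true true true false Dp15_0 0 = true := by decide +kernel

theorem cfg_p15_0 : cfgK nSt 5 ct rows true true true true false Dp15_0 = true := by decide +kernel

end Pool.Agent.Ortho.Cert
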