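import Pool.Agent.Ortho.Cert.Data

set_option autoImplicit false

/-!
# Ortho/Cert/P1_0: derivations of the pattern T = 1, top = 0 (generated)
-/

namespace Pool.Agent.Ortho.Cert

/-- derivations -/
noncomputable def Dp1_0 : List DE := [
  .d 27 48 21 15 27, .d 30 50 23 13 25, .d 29 37 23 24 49, .d 24 39 21 26 51, .d 5 42 50 23 48, .d 4 23 24 40 26,
  .d 7 40 48 21 50, .d 6 21 26 42 24, .d 27 56 36 15 11, .d 0 16 21 12 31, .d 30 58 38 13 9, .d 1 18 23 14 29,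
  .d 2 36 23 16 53, .d 29 37 12 56 33, .d 3 38 21 18 55, .d 24 39 14 58 35, .d 44 25 41 37 12, .d 45 15 43 51 36,
  .d 5 42 42 54 35, .d 4 12 40 56 33, .d 46 13 41 49 38, .d 47 27 43 39 14, .d 7 40 40 52 33, .d 6 14 42 58 35,
  .n, .d 2 36 27 39 21, .d 0 13 49 12 23, .n, .d 3 38 25 37 23, .n,
  .n, .d 1 15 51 14 21, .d 16 16 21 26 59, .d 17 50 23 16 57, .d 4 18 12 56 41, .d 4 26 38 24 41,
  .d 20 48 21 18 59, .d 21 18 23 24 57, .d 6 24 36 26 43, .d 6 16 14 58 43, .d 48 12 48 14 22, .d 53 36 26 38 20,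
  .d 55 38 24 36 22, .d 50 14 50 12 20, .d 16 16 14 58 43, .d 17 58 38 16 41, .d 20 56 36 18 43, .d 21 18 12 56 41,
  .n, .n, .n, .n, .n, .n,
  .n, .n, .d 16 21 26 42 24, .d 17 42 50 23 48, .n, .n,
  .d 20 40 48 21 50, .d 21 23 24 40 26, .n, .n, .d 27 52 21 15 27, .d 29 37 23 28 49,
  .d 30 54 23 13 25, .d 24 39 21 30 51, .n, .n, .d 5 42 54 23 48, .d 5 46 50 23 48,
  .d 4 23 24 44 26, .d 4 23 28 40 26, .n, .n, .d 7 40 52 21 50, .d 7 44 48 21 50,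
  .d 6 21 26 46 24, .d 6 21 30 42 24, .d 2 36 12 52 37, .d 2 44 36 20 37, .d 3 38 14 54 39, .d 3 46 38 22 39,
  .d 32 24 44 36 15, .d 32 28 40 36 15, .d 33 12 40 52 37, .d 33 12 44 48 37, .d 69 40 36 20 37, .d 69 36 12 48 37,
  .d 36 14 42 54 39, .d 36 14 46 50 39, .d 37 26 46 38 13, .d 37 30 42 38 13, .d 75 42 38 22 39, .d 75 38 14 50 39,
  .n, .n, .d 16 28 36 26 43, .d 17 50 12 52 41, .n, .d 20 48 14 54 43,
  .d 21 30 38 24 41, .n, .d 48 12 52 14 22, .d 53 36 30 38 20, .d 55 38 28 36 22, .d 50 14 54 12 20,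
  .d 16 16 14 62 43, .d 16 20 14 58 43, .d 17 58 38 20 41, .d 17 62 38 16 41, .n, .n,
  .d 20 56 36 22 43, .d 20 60 36 18 43, .d 21 18 12 60 41, .d 21 22 12 56 41, .n, .n,
  .n, .n, .n, .n, .n, .n,
  .n, .n, .d 4 20 21 12 27, .d 5 38 21 22 51, .n, .n,
  .n, .n, .d 7 36 23 20 49, .d 6 22 23 14 25, .n, .n,
  .n, .d 16 14 38 30 35, .n, .n, .d 17 38 14 54 35, .n,
  .d 20 36 12 52 33, .n, .n, .n, .n, .d 21 12 36 28 33,
  .n, .n, .n, .n, .n, .n,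
  .n, .d 16 14 46 58 35, .d 17 42 46 54 35, .n, .n, .n,
  .d 20 40 44 52 33, .n, .d 21 12 44 56 33, .n, .n, .n,
  .d 32 28 44 36 15, .d 33 12 44 52 37, .d 69 36 12 52 37, .d 69 44 36 20 37, .d 36 14 46 54 39, .d 37 30 46 38 13,
  .d 75 38 14 54 39, .d 75 46 38 22 39, .n, .n, .d 5 38 22 23 48, .d 4 23 20 12 26,
  .n, .n, .d 7 36 20 21 50, .d 6 21 22 14 24, .d 16 28 36 30 43, .d 16 20 14 62 43,
  .d 17 54 12 52 41, .d 17 62 38 20 41, .n, .n, .n, .n,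
  .d 20 60 36 22 43, .d 20 52 14 54 43, .d 21 22 12 60 41, .d 21 30 38 28 41, .n, .n,
  .n, .n, .n, .n, .n, .n,
  .n, .n, .n, .n, .d 97 41 37 15 4, .d 96 43 39 13 6,
  .d 97 37 15 43 4, .d 96 39 13 41 6, .n, .n, .n, .n,
  .d 41 51 20 15 26, .n, .d 42 49 22 13 24, .n, .n, .d 43 37 20 25 50,
  .n, .d 40 39 22 27 48, .d 32 16 25 37 31, .d 33 15 51 16 53, .n, .n,
  .d 36 13 49 18 55, .d 37 18 27 39 29, .n, .n, .n, .n,
  .n, .n, .n, .n, .n, .n,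
  .n, .n, .n, .n, .n, .n,
  .n, .n, .n, .n, .n, .n,
  .n, .n, .n, .n, .n, .n,
  .n, .n, .n, .n, .n, .n,
  .n, .n, .n, .n, .n, .n,
  .n, .n, .n, .n, .n, .n,
  .n, .n, .n, .n, .n, .n,
  .n, .n, .n, .n, .n, .n,
  .n, .n, .n, .n, .d 56 40 44 52 33, .d 56 44 40 52 33,
  .d 57 12 40 60 33, .d 57 12 44 56 33, .d 68 24 36 12 15, .d 68 20 12 40 15, .d 60 14 42 62 35, .d 60 14 46 58 35,
  .d 61 42 46 54 35, .d 61 46 42 54 35, .d 74 26 38 14 13, .d 74 22 14 42 13, .n, .n,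
  .n, .n, .n, .n, .n, .n,
  .n, .n, .n, .n, .n, .n,
  .n, .n, .n, .n, .n, .n,
  .n, .n, .n, .n, .n, .n,
  .n, .n, .n, .n, .n, .n,
  .n, .n, .n, .n, .n, .n,
  .n, .n, .n, .n, .n, .n,
  .n, .n, .n, .n, .n, .n,
  .n, .n, .n, .n, .n, .n,
  .n, .n, .n, .n, .n, .n,
  .n, .n, .n, .n, .n, .n,
  .n, .n, .n, .n, .d 56 44 44 52 33, .d 57 12 44 60 33,
  .d 68 20 12 44 15, .d 68 28 36 12 15, .d 60 14 46 62 35, .d 61 46 46 54 35, .d 74 22 14 46 13, .d 74 30 38 14 13,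
  .n, .n, .n, .n, .n, .n,
  .n, .n, .n, .n, .n, .n,
  .n, .n, .n, .n, .n, .n,
  .n, .n, .n, .n, .n, .n,
  .n, .n, .n, .n, .n, .n,
  .n, .n, .n, .n, .n, .n,
  .n, .n, .n, .n, .n, .n,
  .n, .n, .n, .n, .n, .n,
  .d 84 9 41 45 6, .d 87 47 43 35 6, .n, .n, .d 91 45 41 33 4, .d 92 11 43 47 4,
  .n, .n, .n, .n, .n, .n,
  .n, .n, .n, .n, .n, .n,
  .n, .n, .n, .n, .n, .n,
  .n, .n, .n, .n, .n, .n,
  .n, .n, .n, .n, .n, .n,
  .n, .n, .n, .n, .n, .n,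
  .n, .n, .n, .n, .n, .n,
  .n, .n, .n, .n, .n, .n,
  .n, .n, .n, .n, .n, .n,
  .n, .n, .n, .n, .n, .n,
  .n, .n, .n, .n, .n, .n,
  .n, .n, .n, .n, .n, .n,
  .n, .n, .n, .n, .n, .n,
  .n, .n, .n, .n, .n, .n,
  .n, .n, .n, .n, .n, .n,
  .n, .n, .n, .n, .n, .n,
  .n, .n, .n, .n, .n, .n,
  .n, .n, .n, .n, .n, .n,
  .n, .n, .n, .n, .n, .n,
  .n, .n, .n, .n, .n, .n,
  .n, .n, .n, .n, .n, .n,
  .n, .n, .n, .n, .n, .n,
  .n, .n, .n, .n, .n, .n,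
  .n, .n, .n, .n, .n, .n,
  .n, .n, .n, .n, .n, .n,
  .n, .n, .n, .n, .n, .n,
  .n, .n, .n, .n, .n, .n,
  .n, .n, .n, .n, .n, .n,
  .n, .n, .n, .n, .n, .n,
  .n, .n, .n, .n, .n, .n,
  .n, .n, .n, .n, .n, .n,
  .n, .n, .n, .n, .n, .n,
  .n, .n, .n, .n, .n, .n,
  .n, .n, .n, .n, .d 56 40 48 21 50, .d 57 23 24 40 26,
  .n, .n, .d 60 21 26 42 24, .d 61 42 50 23 48]

theorem ders_p1_0 : dersK nSt st tl true false false false false Dp1_0 0 = true := by decide +kernel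

theorem cfg_p1_0 : cfgK nSt 4 ct rows true false false false false Dp1_0 = true := by decide +kernel

end Pool.Agent.Ortho.Cert
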