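import Pool.Agent.Ortho.Cert.Data

set_option autoImplicit false

/-!
# Ortho/Cert/P1_1: derivations of the pattern T = 1, top = 1 (generated)
-/

namespace Pool.Agent.Ortho.Cert

/-- derivations -/
noncomputable def Dp1_1 : List DE := [
  .d 41 51 21 15 3, .d 42 49 23 13 2, .d 43 37 23 25 1, .d 40 39 21 27 0, .d 5 50 11 55 29, .d 4 31 35 24 30,
  .d 7 48 9 53 24, .d 6 29 33 26 27, .d 13 40 36 23 21, .d 8 25 37 12 20, .d 15 42 38 21 16, .d 10 27 39 14 17,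
  .d 13 36 15 51 21, .d 0 21 12 40 7, .d 15 38 13 49 16, .d 1 23 14 42 5, .d 44 9 41 53 16, .d 45 31 43 35 17,
  .d 59 57 33 22 27, .d 58 20 9 57 24, .d 46 29 41 33 20, .d 47 11 43 55 21, .d 63 59 35 20 30, .d 62 22 11 59 29,
  .d 51 20 9 45 19, .d 2 36 11 55 4, .d 0 29 33 12 7, .d 54 45 33 22 18, .d 3 38 9 53 6, .d 49 22 11 47 23,
  .d 52 47 35 20 22, .d 1 31 35 14 5, .d 44 9 45 49 16, .d 45 27 47 35 17, .d 5 50 12 48 43, .d 4 26 38 24 42,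
  .d 46 25 45 33 20, .d 47 11 47 51 21, .d 6 24 36 26 41, .d 7 48 14 50 40, .d 10 20 16 14 87, .d 13 36 18 22 92,
  .d 15 38 16 20 84, .d 8 22 18 12 91, .d 56 48 14 50 40, .d 57 26 38 24 42, .d 60 24 36 26 41, .d 61 50 12 48 43,
  .d 42 49 20 13 13, .d 54 41 37 22 18, .d 41 51 22 15 15, .d 52 43 39 20 22, .d 51 20 13 41 19, .d 43 37 22 25 10,
  .d 49 22 15 43 23, .d 40 39 20 27 8, .d 44 13 41 49 16, .d 45 27 43 39 17, .d 59 57 33 20 26, .d 58 22 9 57 28,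
  .d 46 25 41 37 20, .d 47 15 43 51 21, .d 63 59 35 22 31, .d 62 20 11 59 25, .n, .n,
  .n, .n, .d 112 51 21 15 3, .d 113 37 23 25 1, .d 5 42 54 23 50, .d 5 54 11 55 29,
  .d 4 31 35 28 30, .d 4 23 28 40 55, .d 119 49 23 13 2, .d 118 39 21 27 0, .d 7 40 52 21 48, .d 7 52 9 53 24,
  .d 6 29 33 30 27, .d 6 21 30 42 53, .d 2 36 12 52 58, .d 2 44 36 20 58, .d 3 38 14 54 62, .d 3 46 38 22 62,
  .d 32 24 44 36 63, .d 32 28 40 36 63, .d 33 12 40 52 58, .d 33 12 44 48 58, .n, .n,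
  .d 36 14 42 54 62, .d 36 14 46 50 62, .d 37 26 46 38 59, .d 37 30 42 38 59, .n, .n,
  .n, .n, .d 16 28 36 26 41, .d 17 50 12 52 43, .n, .d 20 48 14 54 40,
  .d 21 30 38 24 42, .n, .d 10 20 20 14 87, .d 13 36 22 22 92, .d 15 38 20 20 84, .d 8 22 22 12 91,
  .d 56 48 14 54 40, .d 56 52 14 50 40, .d 57 26 38 28 42, .d 57 30 38 24 42, .d 69 36 26 38 35, .d 68 14 50 12 39,
  .d 60 24 36 30 41, .d 60 28 36 26 41, .d 61 50 12 52 43, .d 61 54 12 48 43, .d 74 12 48 14 34, .d 75 38 24 36 38,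
  .n, .n, .n, .n, .n, .d 138 37 20 13 47,
  .n, .d 140 39 20 15 46, .n, .n, .n, .d 147 37 22 13 45,
  .n, .d 148 39 22 15 44, .n, .n, .n, .n,
  .d 32 22 12 36 23, .n, .d 33 12 36 22 18, .n, .n, .n,
  .n, .n, .n, .d 36 14 38 20 22, .d 37 20 14 38 19, .n,
  .n, .n, .d 1 20 14 46 19, .d 2 44 36 22 18, .d 0 22 12 44 23, .d 3 46 38 20 22,
  .n, .d 108 14 54 11 44, .d 111 33 30 38 45, .n, .n, .n,
  .d 115 35 28 36 46, .n, .d 116 12 52 9 47, .n, .n, .n,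
  .d 32 28 44 36 63, .d 33 12 44 52 58, .n, .n, .d 36 14 46 54 62, .d 37 30 46 38 59,
  .n, .n, .n, .n, .d 5 38 22 23 50, .d 4 23 20 12 55,
  .n, .n, .d 7 36 20 21 48, .d 6 21 22 14 53, .n, .n,
  .n, .n, .n, .n, .n, .n,
  .n, .n, .n, .n, .n, .n,
  .n, .n, .n, .n, .d 69 36 30 38 35, .d 68 14 54 12 39,
  .n, .n, .d 74 12 52 14 34, .d 75 38 28 36 38, .n, .n,
  .n, .n, .d 5 42 50 23 50, .d 4 23 24 40 55, .d 7 40 48 21 48, .d 6 21 26 42 53,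
  .n, .n, .n, .n, .n, .n,
  .n, .n, .n, .n, .d 59 49 26 38 53, .d 58 12 48 25 48,
  .n, .n, .d 63 51 24 36 55, .d 62 14 50 27 50, .n, .n,
  .n, .n, .n, .n, .n, .n,
  .n, .n, .d 5 50 20 16 154, .d 4 18 22 24 155, .n, .n,
  .d 6 16 20 26 153, .d 7 48 22 18 152, .d 1 12 48 14 34, .d 2 36 26 38 35, .d 3 38 24 36 38, .d 0 14 50 12 39,
  .d 109 35 22 18 108, .d 110 18 22 9 111, .d 114 16 20 11 115, .d 117 33 20 16 116, .n, .n,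
  .n, .n, .n, .n, .n, .n,
  .n, .n, .d 59 41 49 20 9, .d 58 22 25 41 14, .n, .n,
  .d 63 43 51 22 11, .d 62 20 27 43 12, .n, .n, .n, .n,
  .n, .n, .n, .d 5 46 50 23 50, .d 4 23 24 44 55, .n,
  .n, .n, .n, .d 7 44 48 21 48, .d 6 21 26 46 53, .n,
  .d 13 36 20 20 116, .d 0 28 36 12 63, .d 15 38 22 22 108, .d 1 30 38 14 59, .d 44 16 28 36 98, .d 44 20 24 36 98,
  .d 45 12 48 20 99, .d 45 12 52 16 99, .n, .n, .d 46 14 50 22 101, .d 46 14 54 18 101,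
  .d 47 18 30 38 102, .d 47 22 26 38 102, .n, .n, .n, .n,
  .d 108 20 20 11 98, .d 111 33 20 20 99, .n, .d 115 35 22 22 101, .d 116 22 22 9 102, .n,
  .d 1 12 52 14 34, .d 2 36 30 38 35, .d 3 38 28 36 38, .d 0 14 54 12 39, .d 109 35 22 22 108, .d 56 52 22 18 152,
  .d 57 18 22 28 155, .d 110 22 22 9 111, .n, .n, .d 60 16 20 30 153, .d 114 20 20 11 115,
  .d 117 33 20 20 116, .d 61 54 20 16 154, .n, .n, .n, .n,
  .n, .n, .n, .d 44 21 20 21 125, .n, .d 45 23 20 23 127,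
  .n, .n, .n, .d 46 21 22 21 131, .n, .d 47 23 22 23 133,
  .n, .n, .n, .n, .n, .n,
  .n, .n, .n, .n, .n, .n,
  .n, .n, .n, .n, .n, .n,
  .n, .n, .n, .n, .n, .d 32 14 46 50 62,
  .d 33 26 46 38 59, .n, .n, .n, .d 36 24 44 36 63, .n,
  .d 37 12 44 48 58, .n, .n, .n, .d 44 20 28 36 98, .d 45 12 52 20 99,
  .n, .n, .d 46 14 54 22 101, .d 47 22 30 38 102, .n, .n,
  .n, .n, .n, .n, .n, .n,
  .n, .n, .n, .n, .n, .n,
  .n, .n, .n, .n, .n, .n,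
  .n, .n, .n, .n, .n, .n,
  .n, .n, .n, .n, .n, .n,
  .n, .n, .n, .n, .n, .n,
  .n, .n, .n, .n, .n, .n,
  .n, .n, .n, .n, .n, .n,
  .n, .n, .d 5 50 18 22 97, .d 4 20 16 24 96, .n, .n,
  .d 7 48 16 20 96, .d 6 22 18 26 97, .n, .n, .n, .n,
  .n, .n, .n, .n, .n, .n,
  .d 34 18 20 16 194, .d 35 18 22 16 187, .n, .n, .d 38 16 20 18 192, .d 39 16 22 18 185,
  .d 48 12 48 14 47, .d 53 36 26 38 45, .d 55 38 24 36 46, .d 50 14 50 12 44, .d 44 16 14 50 156, .d 111 33 22 16 110,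
  .d 115 35 20 18 114, .d 47 18 12 48 165, .n, .n, .n, .n,
  .n, .n, .n, .n, .n, .n,
  .n, .n, .n, .n, .n, .n,
  .n, .n, .n, .n, .n, .n,
  .n, .n, .n, .n, .n, .n,
  .n, .n, .n, .n, .d 0 20 12 44 63, .d 8 20 20 12 115,
  .d 1 22 14 46 59, .d 10 22 22 14 111, .d 44 16 20 20 168, .d 44 20 16 20 168, .d 45 20 16 20 169, .d 45 20 20 16 169,
  .n, .n, .d 46 22 18 22 172, .d 46 22 22 18 172, .d 47 18 22 22 173, .d 47 22 18 22 173,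
  .n, .n, .n, .n, .d 44 20 20 18 184, .d 45 18 20 20 186,
  .n, .d 46 16 22 22 193, .d 47 22 22 16 195, .n, .d 48 12 52 14 47, .d 53 36 30 38 45,
  .d 55 38 28 36 46, .d 50 14 54 12 44, .d 44 16 14 54 156, .d 108 20 22 11 109, .d 111 33 22 20 110, .d 45 30 38 16 159,
  .n, .n, .d 115 35 20 22 114, .d 46 28 36 18 163, .d 47 18 12 52 165, .d 116 22 20 9 117,
  .n, .n, .n, .n, .n, .n,
  .n, .n, .n, .n, .n, .n,
  .n, .n, .n, .n, .n, .n,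
  .n, .n, .n, .n, .n, .n,
  .n, .n, .n, .n, .n, .n,
  .n, .n, .n, .n, .n, .n,
  .n, .n, .n, .d 16 22 22 26 97, .d 17 50 22 22 97, .n,
  .n, .n, .d 20 48 20 20 96, .n, .d 21 20 20 24 96, .n,
  .n, .n, .d 44 20 20 20 168, .d 45 20 20 20 169, .n, .n,
  .d 46 22 22 22 172, .d 47 22 22 22 173, .n, .n, .n, .n,
  .n, .n, .n, .n, .n, .n,
  .n, .n, .n, .n, .n, .n,
  .n, .n, .n, .n, .n, .n,
  .n, .n, .n, .n, .n, .n,
  .n, .n, .n, .n, .n, .n,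
  .n, .n, .n, .n, .n, .n,
  .n, .n, .n, .n, .n, .n,
  .n, .n, .n, .n, .n, .n,
  .d 35 18 26 38 111, .d 35 12 48 16 99, .n, .n, .d 38 16 24 36 115, .d 38 14 50 18 101,
  .n, .n, .n, .n, .n, .n,
  .n, .n, .n, .n, .d 35 18 20 16 186, .d 34 18 22 16 195,
  .n, .n, .d 39 16 20 18 184, .d 38 16 22 18 193, .n, .n,
  .n, .n, .d 108 16 22 11 109, .d 45 26 38 16 159, .d 46 24 36 18 163, .d 116 18 20 9 117,
  .n, .n, .n, .n, .n, .n,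
  .n, .n, .n, .n, .n, .n,
  .n, .n, .n, .n, .n, .n,
  .n, .n, .n, .n, .n, .n,
  .n, .n, .n, .n, .n, .n,
  .n, .n, .n, .n, .n, .n,
  .n, .n, .n, .n, .n, .n,
  .n, .n, .n, .n, .n, .n,
  .n, .n, .n, .n, .n, .n,
  .n, .n, .n, .n, .n, .n,
  .d 125 48 22 30 148, .d 44 20 14 50 156, .d 45 26 38 20 159, .d 127 54 22 24 147, .n, .n,
  .d 46 24 36 22 163, .d 131 52 20 26 140, .d 133 50 20 28 138, .d 47 22 12 48 165, .n, .n,
  .n, .n, .n, .n, .n, .n,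
  .n, .n, .n, .n, .n, .n,
  .n, .n, .n, .n, .n, .n,
  .n, .n, .n, .n, .n, .n,
  .n, .n, .n, .n, .n, .n,
  .n, .n, .n, .n, .n, .n,
  .n, .n, .n, .n, .n, .n,
  .n, .n, .n, .n, .n, .n,
  .n, .n, .n, .n, .n, .n,
  .n, .n, .n, .n, .n, .n,
  .n, .n, .n, .n, .n, .n,
  .n, .n, .n, .n, .n, .n,
  .n, .n, .n, .n, .n, .n,
  .n, .n, .n, .n, .n, .n,
  .n, .n, .n, .n, .n, .n,
  .n, .n, .n, .n, .n, .n,
  .n, .n, .n, .n, .n, .n,
  .n, .n, .n, .n, .d 34 18 26 38 102, .d 4 12 48 24 120,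
  .n, .n, .d 39 16 24 36 98, .d 6 14 50 26 121, .n, .n,
  .n, .n, .n, .n, .n, .n,
  .n, .n, .n, .n, .n, .n,
  .n, .n, .n, .n, .n, .n,
  .d 136 51 22 27 133, .d 143 49 22 25 131, .d 145 51 20 27 127, .d 151 49 20 25 125, .n, .n,
  .n, .n, .n, .n, .n, .n,
  .n, .n, .n, .n, .n, .n,
  .n, .n, .n, .n, .n, .n,
  .n, .n, .n, .n, .n, .n,
  .n, .n, .n, .n, .n, .n,
  .n, .n, .n, .n, .n, .n,
  .n, .n, .n, .n, .n, .n,
  .n, .n, .n, .n, .n, .n,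
  .n, .n, .n, .n, .n, .n,
  .n, .n, .n, .n, .n, .n,
  .n, .n, .n, .n, .n, .n,
  .n, .n, .n, .n, .n, .n,
  .n, .n, .n, .n, .n, .n,
  .n, .n, .n, .n, .n, .n,
  .n, .n, .n, .n, .n, .n,
  .n, .n, .n, .n, .n, .n,
  .n, .n, .n, .n, .n, .n,
  .n, .n, .n, .n, .n, .n,
  .n, .n, .n, .n, .n, .n,
  .n, .n, .n, .n, .n, .n,
  .n, .n, .n, .n, .n, .n,
  .n, .n, .n, .n, .n, .n,
  .n, .n, .n, .n, .n, .n,
  .n, .n, .n, .n, .n, .n,
  .n, .n, .n, .n, .n, .n,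
  .n, .n, .n, .n, .n, .n,
  .n, .n, .n, .n, .n, .n,
  .n, .n, .n, .n, .n, .n,
  .n, .n, .n, .n, .n, .n,
  .n, .n, .d 5 50 26 38 123, .d 34 12 48 16 116, .n, .n,
  .d 7 48 24 36 122, .d 39 14 50 18 108, .n, .n, .n, .n,
  .n, .n, .n, .n, .n, .n,
  .n, .n, .n, .n, .n, .n,
  .n, .n, .n, .n, .n, .n,
  .n, .n, .n, .n, .n, .n,
  .n, .n, .n, .n, .n, .n,
  .n, .n, .n, .n, .n, .n,
  .n, .n, .n, .n, .n, .n,
  .n, .n, .n, .n, .n, .n,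
  .n, .n, .n, .n, .n, .n,
  .n, .n, .n, .n, .n, .n,
  .n, .n, .n, .n, .n, .n,
  .n, .n, .n, .n, .n, .n,
  .n, .n, .n, .n, .n, .n,
  .n, .n, .n, .n, .n, .n,
  .n, .n, .n, .n, .n, .n,
  .n, .n, .n, .n, .n, .n,
  .n, .n, .n, .n, .n, .n,
  .n, .n, .n, .n, .n, .n,
  .n, .n, .n, .n, .n, .n,
  .n, .n, .n, .n, .n, .n,
  .n, .n, .n, .n, .n, .n,
  .n, .n, .n, .n, .n, .n,
  .n, .n, .n, .n, .n, .n,
  .n, .n, .n, .n, .n, .n,
  .n, .n, .n, .n, .n, .n,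
  .n, .n, .n, .n, .n, .n,
  .n, .n, .n, .n, .n, .n,
  .n, .n, .n, .n, .n, .n,
  .n, .n, .n, .n, .n, .n,
  .n, .n, .n, .n, .n, .n,
  .n, .n, .n, .n, .n, .n,
  .n, .n, .n, .n, .n, .n,
  .n, .n, .n, .n, .n, .n,
  .d 34 18 18 22 173, .d 35 20 16 16 169, .n, .n, .d 39 16 16 20 168, .d 38 22 18 18 172]

theorem ders_p1_1 : dersK nSt st tl true false false false true Dp1_1 0 = true := by decide +kernel

theorem cfg_p1_1 : cfgK nSt 7 ct rows true false false false true Dp1_1 = true := by decide +kernel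

end Pool.Agent.Ortho.Cert
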