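import Pool.Agent.Ortho.Cert.Data

set_option autoImplicit false

/-!
# Ortho/Cert/P3_0: derivations of the pattern T = 3, top = 0 (generated)
-/

namespace Pool.Agent.Ortho.Cert

/-- derivations -/
noncomputable def Dp3_0 : List DE := [
  .d 97 43 37 15 4, .d 96 40 39 13 6, .d 12 18 23 16 53, .d 14 22 21 18 55, .d 19 11 18 23 56, .d 4 7 40 56 33,
  .d 23 9 16 21 58, .d 6 5 42 58 35, .d 27 0 20 15 26, .d 2 29 37 20 37, .d 30 1 22 13 24, .d 3 24 39 22 39,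
  .d 49 45 15 43 15, .d 0 35 12 40 15, .d 51 46 13 41 13, .d 1 38 14 42 13, .d 44 54 41 37 12, .d 33 7 40 48 37,
  .d 34 3 42 38 14, .d 4 32 24 40 26, .d 36 5 42 50 39, .d 47 52 43 39 14, .d 39 2 40 36 12, .d 6 37 26 42 24,
  .d 3 16 25 37 23, .d 49 45 11 47 15, .d 0 59 49 12 23, .d 53 4 26 38 20, .d 51 46 9 45 13, .d 2 21 27 39 21,
  .d 55 6 24 36 22, .d 1 63 51 14 21, .d 44 54 45 33 12, .d 17 1 15 51 40, .d 5 48 12 48 41, .d 58 3 38 25 42,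
  .d 20 0 13 49 42, .d 47 52 47 35 14, .d 62 2 36 27 40, .d 7 50 14 50 43, .d 14 85 35 22 39, .n,
  .n, .d 12 93 33 20 37, .n, .d 33 55 38 16 45, .d 36 53 36 18 47, .n,
  .n, .n, .n, .n, .d 3 16 21 18 55, .n,
  .d 2 21 23 16 53, .n, .d 16 5 42 58 35, .d 17 1 18 23 56, .n, .d 4 20 40 56 33,
  .d 20 0 16 21 58, .d 21 7 40 56 33, .n, .d 6 17 42 58 35, .n, .d 12 18 23 20 53,
  .n, .d 14 22 21 22 55, .n, .d 161 18 15 51 36, .d 19 11 22 23 56, .d 19 166 27 39 25,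
  .d 4 7 40 60 33, .d 4 7 44 56 33, .n, .d 167 22 13 49 38, .d 23 9 20 21 58, .d 23 160 25 37 27,
  .d 6 5 42 62 35, .d 6 5 46 58 35, .d 0 45 12 44 15, .d 50 69 36 12 12, .d 1 46 14 46 13, .d 48 75 38 14 14,
  .d 44 2 44 36 12, .d 44 69 40 36 12, .d 33 56 40 52 37, .d 33 56 44 48 37, .d 68 53 36 12 15, .d 68 45 12 40 15,
  .d 36 61 42 54 39, .d 36 61 46 50 39, .d 47 3 46 38 14, .d 47 75 42 38 14, .d 74 55 38 14 13, .d 74 46 14 42 13,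
  .d 55 16 28 36 22, .d 53 21 30 38 20, .d 108 69 36 11 12, .d 17 48 12 52 41, .d 68 111 33 12 15, .d 20 50 14 54 43,
  .d 116 75 38 9 14, .d 74 115 35 14 13, .d 48 32 20 14 30, .n, .n, .d 50 37 22 12 28,
  .n, .n, .d 33 55 38 20 45, .n, .n, .n,
  .d 36 53 36 22 47, .n, .n, .n, .n, .n,
  .n, .n, .n, .n, .d 16 17 42 58 35, .n,
  .n, .d 45 7 36 23 36, .d 4 44 21 12 27, .n, .n, .d 46 5 38 21 38,
  .d 21 20 40 56 33, .n, .n, .d 6 47 23 14 25, .n, .n,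
  .d 44 37 12 36 12, .d 16 37 22 14 24, .n, .n, .d 33 46 14 38 13, .d 33 20 36 20 37,
  .d 36 45 12 36 15, .d 36 17 38 22 39, .n, .n, .d 47 32 14 38 14, .d 21 32 20 12 26,
  .n, .n, .d 3 16 14 54 39, .n, .d 2 21 12 52 37, .n,
  .n, .d 16 37 30 42 24, .d 17 1 30 38 24, .d 33 20 40 52 37, .n, .n,
  .d 20 0 28 36 26, .d 36 17 42 54 39, .d 21 32 28 40 26, .n, .n, .n,
  .d 44 69 44 36 12, .d 33 56 44 52 37, .d 68 45 12 44 15, .n, .d 36 61 46 54 39, .d 47 75 46 38 14,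
  .d 74 46 14 46 13, .n, .n, .n, .n, .d 4 7 36 28 33,
  .n, .n, .n, .d 6 5 38 30 35, .n, .n,
  .n, .n, .n, .n, .n, .n,
  .n, .n, .n, .n, .n, .n,
  .n, .n, .n, .n, .n, .n,
  .n, .n, .n, .n, .d 53 29 37 23 36, .d 55 24 39 21 38,
  .n, .n, .n, .n, .n, .n,
  .n, .n, .n, .n, .d 2 57 23 16 53, .n,
  .d 3 60 21 18 55, .n, .d 56 0 16 21 58, .n, .n, .n,
  .n, .d 61 1 18 23 56, .n, .n, .n, .d 2 57 27 39 21,
  .d 50 5 50 12 20, .n, .d 3 60 25 37 23, .n, .n, .d 48 7 48 14 22,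
  .d 56 0 13 49 42, .n, .n, .d 4 55 38 24 41, .n, .d 61 1 15 51 40,
  .d 6 53 36 26 43, .n, .d 48 32 16 14 30, .n, .n, .d 50 37 18 12 28,
  .n, .d 86 11 22 9 24, .d 90 9 20 11 26, .n, .n, .n,
  .n, .n, .n, .n, .n, .n,
  .n, .n, .n, .n, .n, .n,
  .n, .n, .n, .n, .n, .n,
  .n, .d 69 4 23 16 53, .n, .d 5 74 18 23 56, .n, .n,
  .n, .d 75 6 21 18 55, .n, .d 7 68 16 21 58, .n, .n,
  .n, .n, .n, .n, .n, .n,
  .d 57 32 24 44 26, .d 57 32 28 40 26, .n, .n, .d 60 37 26 46 24, .d 60 37 30 42 24,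
  .n, .n, .n, .n, .n, .n,
  .n, .n, .n, .n, .n, .n,
  .n, .n, .n, .n, .n, .n,
  .n, .n, .n, .n, .n, .n,
  .n, .n, .n, .n, .n, .n,
  .n, .n, .n, .n, .n, .n,
  .n, .n, .n, .n, .n, .n,
  .n, .n, .n, .n, .n, .n,
  .n, .n, .n, .n, .n, .n,
  .n, .n, .n, .n, .n, .n,
  .n, .n, .n, .n, .n, .n,
  .n, .n, .n, .n, .n, .n,
  .n, .n, .n, .n, .n, .d 57 32 28 44 26,
  .n, .n, .d 60 37 30 46 24, .n, .n, .n,
  .n, .n, .n, .n, .n, .n,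
  .n, .n, .n, .n, .n, .n,
  .n, .n, .n, .n, .n, .n,
  .n, .n, .n, .n, .n, .n,
  .n, .n, .n, .n, .n, .n,
  .n, .n, .d 27 50 21 15 27, .d 30 48 23 13 25, .n, .n,
  .n, .n, .n, .n, .n, .n,
  .n, .n, .n, .n, .n, .n,
  .n, .n, .n, .n, .n, .n,
  .n, .n, .n, .n, .n, .n,
  .n, .n, .n, .n, .n, .n,
  .n, .n, .n, .n, .n, .n,
  .n, .n, .n, .n, .n, .n,
  .n, .n, .n, .n, .n, .n,
  .n, .n, .n, .n, .n, .n,
  .n, .n, .n, .n, .n, .n,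
  .n, .n, .n, .n, .n, .n,
  .n, .n, .n, .n, .n, .n,
  .n, .n, .n, .n, .n, .n,
  .n, .n, .n, .n, .d 17 125 40 52 41, .d 17 125 44 48 41,
  .n, .n, .d 20 133 42 54 43, .d 20 133 46 50 43, .n, .n,
  .n, .n, .n, .n, .n, .n,
  .n, .n, .n, .n, .n, .n,
  .n, .n, .n, .n, .n, .n,
  .n, .n, .n, .n, .n, .n,
  .n, .n, .n, .n, .n, .n,
  .n, .n, .n, .n, .n, .n,
  .n, .n, .n, .n, .n, .n,
  .n, .n, .n, .n, .n, .n,
  .n, .n, .n, .n, .n, .n,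
  .n, .n, .n, .n, .n, .n,
  .n, .n, .n, .n, .n, .n,
  .n, .n, .n, .n, .n, .n,
  .n, .n, .n, .d 17 125 44 52 41, .n, .n,
  .d 20 133 46 54 43, .n, .n, .n, .n, .n,
  .n, .n, .n, .n, .n, .n,
  .n, .n, .n, .n, .n, .n,
  .n, .n, .n, .n, .n, .n,
  .n, .n, .n, .n, .n, .n,
  .n, .n, .n, .n, .n, .n,
  .n, .n, .n, .n, .n, .n,
  .n, .n, .n, .n, .n, .n,
  .n, .n, .n, .n, .n, .n,
  .n, .n, .n, .n, .n, .n,
  .n, .n, .n, .n, .n, .n,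
  .n, .n, .n, .n, .n, .n,
  .n, .n, .n, .n, .n, .n,
  .n, .n, .n, .n, .n, .n,
  .n, .n, .n, .n, .n, .n,
  .n, .n, .n, .n, .n, .n,
  .n, .n, .n, .n, .n, .n,
  .n, .n, .n, .n, .n, .n,
  .n, .n, .n, .n, .n, .n,
  .n, .n, .n, .n, .n, .n,
  .n, .n, .d 127 16 24 44 22, .d 127 16 28 40 22, .n, .n,
  .d 131 21 26 46 20, .d 131 21 30 42 20, .n, .n, .n, .n,
  .n, .n, .n, .n, .n, .n,
  .n, .n, .n, .n, .n, .n,
  .n, .n, .n, .n, .n, .n,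
  .n, .n, .n, .n, .n, .n,
  .n, .n, .n, .n, .n, .n,
  .n, .n, .n, .n, .n, .n,
  .n, .n, .n, .n, .n, .n,
  .n, .n, .n, .n, .n, .n,
  .n, .n, .n, .n, .n, .n,
  .n, .n, .n, .n, .n, .n,
  .n, .n, .n, .n, .n, .n,
  .n, .n, .n, .n, .n, .n,
  .n, .d 127 16 28 44 22, .n, .n, .d 131 21 30 46 20]

theorem ders_p3_0 : dersK nSt st tl true true false false false Dp3_0 0 = true := by decide +kernel

theorem cfg_p3_0 : cfgK nSt 4 ct rows true true false false false Dp3_0 = true := by decide +kernel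

end Pool.Agent.Ortho.Cert
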