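import Pool.Agent.Ortho.Cert.Data

set_option autoImplicit false

/-!
# Ortho/Cert/P3_1: derivations of the pattern T = 3, top = 1 (generated)
-/

namespace Pool.Agent.Ortho.Cert

/-- derivations -/
noncomputable def Dp3_1 : List DE := [
  .d 27 8 21 15 14, .d 30 10 23 13 12, .d 13 4 15 51 21, .d 15 6 13 49 16, .d 5 10 27 39 12, .d 58 38 25 41 14,
  .d 7 8 25 37 14, .d 62 35 27 43 12, .d 12 27 36 23 4, .d 29 9 21 12 3, .d 14 30 38 21 6, .d 24 11 23 14 2,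
  .d 13 57 15 51 21, .d 0 34 12 40 23, .d 15 60 13 49 16, .d 1 39 14 42 19, .d 56 8 25 37 14, .d 33 63 43 51 4,
  .d 35 3 42 38 17, .d 58 44 9 57 24, .d 36 59 41 49 6, .d 61 10 27 39 12, .d 38 2 40 36 20, .d 62 47 11 59 29,
  .d 3 16 9 53 6, .d 49 17 50 15 39, .d 0 5 50 12 39, .d 53 4 26 38 45, .d 51 20 48 13 34, .d 2 21 11 55 4,
  .d 55 6 24 36 46, .d 1 7 48 14 34, .d 16 54 37 26 27, .d 17 1 31 35 2, .d 5 48 12 48 43, .d 4 3 38 24 30,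
  .d 20 0 29 33 3, .d 21 52 39 24 30, .d 6 2 36 26 27, .d 7 50 14 50 40, .d 1 56 48 14 34, .d 53 57 26 38 45,
  .d 55 60 24 36 46, .d 0 61 50 12 39, .d 56 50 14 50 40, .d 57 3 38 24 30, .d 60 2 36 26 27, .d 61 48 12 48 43,
  .d 30 1 20 13 13, .d 2 29 37 22 18, .d 27 0 22 15 15, .d 3 24 39 20 22, .d 15 16 13 49 16, .d 26 4 22 25 10,
  .d 13 21 15 51 21, .d 31 6 20 27 8, .d 44 59 41 49 16, .d 17 10 27 39 12, .d 5 28 49 20 9, .d 58 46 25 41 14,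
  .d 20 8 25 37 14, .d 47 63 43 51 21, .d 7 25 51 22 11, .d 62 45 27 43 12, .d 54 113 37 23 4, .d 25 18 23 28 51,
  .d 52 118 39 21 6, .d 28 22 21 30 49, .d 112 49 21 15 3, .d 89 18 15 51 21, .d 19 31 54 23 50, .d 19 94 27 39 12,
  .d 4 63 51 28 51, .d 4 38 20 24 106, .d 119 51 23 13 2, .d 95 22 13 49 16, .d 23 26 52 21 48, .d 23 88 25 37 14,
  .d 6 59 49 30 49, .d 6 35 22 26 105, .d 8 33 12 44 20, .d 8 69 36 12 20, .d 10 36 14 46 17, .d 10 75 38 14 17,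
  .d 32 13 44 36 23, .d 32 69 40 36 7, .d 33 56 40 52 58, .d 33 56 44 48 58, .d 68 13 36 12 23, .d 68 33 12 40 7,
  .d 36 61 42 54 62, .d 36 61 46 50 62, .d 37 15 46 38 19, .d 37 75 42 38 5, .d 74 15 38 14 19, .d 74 36 14 42 5,
  .d 55 16 28 36 46, .d 53 21 30 38 45, .d 16 69 36 26 27, .d 17 48 12 52 43, .d 68 17 50 12 39, .d 20 50 14 54 40,
  .d 21 75 38 24 30, .d 74 20 48 14 34, .d 1 56 52 14 34, .d 53 57 30 38 45, .d 55 60 28 36 46, .d 0 61 54 12 39,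
  .d 56 50 14 54 40, .n, .d 57 3 38 28 30, .d 57 75 38 24 30, .n, .d 68 61 50 12 39,
  .d 60 2 36 30 27, .d 60 69 36 26 27, .d 61 48 12 52 43, .n, .d 74 56 48 14 34, .n,
  .n, .n, .d 31 16 20 27 8, .d 26 21 22 25 10, .d 32 17 42 50 62, .n,
  .d 17 28 49 20 9, .d 33 7 36 23 4, .d 4 32 21 12 3, .n, .d 20 25 51 22 11, .d 36 5 38 21 6,
  .d 37 20 40 48 58, .n, .n, .d 6 37 23 14 2, .n, .n,
  .d 32 47 12 36 23, .d 32 61 38 22 62, .d 33 56 36 22 18, .d 57 32 22 12 15, .d 45 36 14 38 17, .d 33 20 36 20 58,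
  .d 46 33 12 36 20, .d 36 17 38 22 62, .d 60 37 20 14 13, .d 36 61 38 20 22, .d 37 44 14 38 19, .d 37 56 36 20 58,
  .n, .n, .d 1 44 14 46 19, .n, .d 0 47 12 44 23, .n,
  .n, .d 32 61 46 50 62, .d 33 15 46 38 19, .d 33 20 40 52 58, .n, .n,
  .d 36 13 44 36 23, .d 36 17 42 54 62, .d 37 56 44 48 58, .n, .n, .n,
  .d 32 69 44 36 7, .d 33 56 44 52 58, .d 68 33 12 44 7, .d 68 69 36 12 7, .d 36 61 46 54 62, .d 37 75 46 38 5,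
  .d 74 36 14 46 5, .d 74 75 38 14 5, .d 56 4 23 20 51, .n, .d 5 60 22 23 50, .n,
  .n, .d 61 6 21 22 49, .d 7 57 20 21 48, .n, .n, .n,
  .n, .n, .n, .n, .n, .n,
  .n, .n, .n, .n, .n, .n,
  .n, .n, .n, .d 57 75 38 28 30, .n, .d 68 61 54 12 39,
  .d 60 69 36 30 27, .n, .d 74 56 52 14 34, .n, .n, .n,
  .n, .n, .n, .n, .n, .n,
  .n, .n, .n, .n, .d 49 45 15 43 63, .d 12 18 12 48 58,
  .d 51 46 13 41 59, .d 14 22 14 50 62, .d 44 54 41 37 56, .n, .d 5 1 26 38 53, .n,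
  .n, .d 47 52 43 39 61, .d 7 0 24 36 55, .n, .n, .n,
  .n, .d 12 18 26 38 35, .n, .n, .d 14 22 24 36 38, .n,
  .n, .n, .d 5 1 12 48 26, .n, .n, .n,
  .n, .d 7 0 14 50 31, .d 10 44 16 14 87, .d 2 57 26 38 35, .d 3 60 24 36 38, .d 8 47 18 12 91,
  .d 56 0 14 50 31, .d 45 15 38 16 86, .d 46 13 36 18 90, .d 61 1 12 48 26, .n, .n,
  .n, .n, .n, .n, .n, .n,
  .n, .n, .n, .n, .n, .n,
  .n, .n, .n, .n, .n, .n,
  .n, .n, .n, .n, .d 34 7 48 20 116, .d 58 7 52 25 48,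
  .n, .n, .n, .n, .d 39 5 50 22 108, .d 62 5 54 27 50,
  .d 0 45 12 44 63, .n, .d 1 46 14 46 59, .n, .d 44 2 44 36 56, .d 44 69 40 36 56,
  .d 57 32 24 44 55, .d 57 32 28 40 55, .n, .d 68 45 12 40 63, .d 60 37 26 46 53, .d 60 37 30 42 53,
  .d 47 3 46 38 61, .d 47 75 42 38 61, .n, .d 74 46 14 42 59, .d 3 16 28 36 38, .d 2 21 30 38 35,
  .n, .d 17 1 12 52 26, .n, .d 20 0 14 54 31, .n, .n,
  .d 10 44 20 14 87, .d 2 57 30 38 35, .d 3 60 28 36 38, .d 8 47 22 12 91, .d 56 0 14 54 31, .n,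
  .d 45 15 38 20 86, .n, .n, .n, .d 46 13 36 22 90, .n,
  .d 61 1 12 52 26, .n, .n, .n, .n, .n,
  .n, .n, .d 16 33 26 42 53, .n, .n, .n,
  .n, .n, .n, .n, .d 21 36 24 40 55, .n,
  .n, .n, .n, .n, .d 44 37 12 36 56, .d 16 37 22 14 53,
  .n, .n, .d 33 46 14 38 59, .d 57 36 20 12 55, .d 36 45 12 36 63, .d 60 33 22 14 53,
  .n, .n, .d 47 32 14 38 61, .d 21 32 20 12 55, .n, .n,
  .n, .n, .n, .n, .n, .d 16 37 30 42 53,
  .n, .d 57 36 24 44 55, .n, .n, .n, .d 60 33 26 46 53,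
  .d 21 32 28 40 55, .n, .n, .n, .d 44 69 44 36 56, .d 57 32 28 44 55,
  .d 68 45 12 44 63, .n, .d 60 37 30 46 53, .d 47 75 46 38 61, .d 74 46 14 46 59, .n,
  .n, .n, .n, .n, .n, .n,
  .n, .n, .n, .n, .n, .n,
  .n, .n, .n, .n, .n, .n,
  .n, .n, .n, .n, .n, .n,
  .n, .n, .n, .n, .n, .n,
  .n, .n, .n, .n, .n, .n,
  .n, .n, .n, .n, .n, .n,
  .n, .n, .n, .n, .n, .n,
  .n, .n, .n, .n, .n, .n,
  .n, .n, .n, .n, .n, .d 13 4 18 22 92,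
  .n, .n, .d 15 6 16 20 84, .n, .n, .n,
  .d 5 10 20 16 80, .n, .n, .n, .n, .d 7 8 22 18 82,
  .n, .d 13 57 18 22 92, .d 15 60 16 20 84, .n, .d 56 8 22 18 82, .n,
  .n, .d 61 10 20 16 80, .n, .n, .n, .n,
  .n, .n, .n, .n, .n, .n,
  .n, .n, .n, .n, .n, .n,
  .n, .n, .n, .n, .n, .n,
  .n, .n, .n, .n, .n, .n,
  .n, .n, .n, .n, .n, .n,
  .n, .n, .n, .n, .d 45 109 35 20 86, .d 45 56 52 16 99,
  .n, .n, .d 46 117 33 22 90, .d 46 61 54 18 101, .n, .n,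
  .n, .n, .d 15 16 20 20 84, .d 13 21 22 22 92, .n, .d 17 10 20 20 80,
  .n, .d 20 8 22 22 82, .n, .n, .n, .d 13 57 22 22 92,
  .d 15 60 20 20 84, .n, .d 56 8 22 22 82, .n, .n, .n,
  .n, .n, .n, .n, .d 61 10 20 20 80, .n,
  .n, .n, .n, .n, .n, .n,
  .d 44 17 50 18 108, .n, .n, .n, .n, .n,
  .n, .n, .d 47 20 48 16 116, .n, .n, .n,
  .n, .n, .n, .d 56 133 38 22 40, .n, .n,
  .n, .d 127 60 20 12 46, .n, .d 131 57 22 14 45, .n, .n,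
  .n, .d 61 125 36 20 43, .n, .n, .n, .n,
  .n, .n, .n, .d 16 47 22 26 97, .n, .d 45 20 48 20 99,
  .n, .n, .n, .d 46 17 50 22 101, .d 21 44 20 24 96, .n,
  .n, .n, .n, .d 45 56 52 20 99, .n, .n,
  .d 46 61 54 22 101, .n, .n, .n, .n, .n,
  .n, .n, .n, .n, .n, .n,
  .n, .n, .n, .n, .n, .n,
  .n, .n, .n, .n, .n, .n,
  .n, .n, .n, .n, .n, .n,
  .n, .n, .n, .n, .n, .n,
  .n, .n, .n, .n, .n, .n,
  .n, .n, .n, .n, .n, .n,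
  .n, .n, .n, .n, .n, .n,
  .n, .n, .n, .n, .n, .n,
  .n, .n, .n, .n, .n, .n,
  .n, .n, .n, .n, .n, .n,
  .n, .n, .n, .n, .n, .d 2 127 42 38 59,
  .d 3 131 40 36 63, .n, .d 125 0 14 42 61, .n, .n, .d 133 1 12 40 56,
  .n, .n, .n, .n, .n, .n,
  .n, .n, .n, .n, .n, .n,
  .n, .n, .n, .n, .n, .n,
  .n, .n, .n, .n, .n, .n,
  .n, .n, .n, .n, .n, .n,
  .n, .n, .n, .n, .n, .n,
  .n, .n, .d 57 44 16 28 96, .d 110 44 20 9 87, .n, .n,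
  .d 60 47 18 30 97, .d 114 47 22 11 91, .n, .n, .n, .n,
  .n, .n, .n, .n, .n, .n,
  .n, .n, .n, .d 2 127 46 38 59, .d 3 131 44 36 63, .n,
  .d 125 0 14 46 61, .n, .n, .n, .n, .n,
  .n, .n, .d 133 1 12 44 56, .n, .n, .n,
  .n, .n, .n, .n, .n, .n,
  .n, .n, .n, .n, .n, .n,
  .n, .n, .n, .n, .n, .n,
  .n, .n, .n, .n, .n, .n,
  .n, .n, .n, .n, .n, .n,
  .n, .n, .n, .n, .n, .n,
  .n, .n, .n, .n, .n, .n,
  .n, .n, .n, .n, .n, .n,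
  .n, .d 57 44 20 28 96, .n, .n, .d 60 47 22 30 97, .n,
  .n, .n, .n, .n, .n, .n,
  .n, .n, .n, .n, .n, .n,
  .n, .n, .n, .n, .n, .n,
  .n, .n, .n, .n, .n, .n,
  .n, .n, .n, .n, .n, .n,
  .n, .n, .n, .n, .n, .n,
  .n, .n, .n, .n, .n, .n,
  .n, .n, .n, .n, .n, .n,
  .n, .n, .n, .n, .n, .n,
  .n, .n, .n, .n, .n, .n,
  .n, .n, .n, .n, .n, .n,
  .n, .n, .n, .n, .n, .n,
  .n, .n, .n, .n, .n, .n,
  .n, .n, .n, .n, .n, .n,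
  .n, .n, .n, .n, .n, .n,
  .n, .n, .n, .n, .n, .n,
  .n, .n, .n, .n, .n, .n,
  .n, .n, .n, .n, .n, .n,
  .n, .n, .n, .n, .n, .n,
  .n, .n, .n, .n, .n, .n,
  .d 45 44 16 20 169, .d 45 44 20 16 169, .n, .n, .d 46 47 18 22 172, .d 46 47 22 18 172,
  .n, .n, .n, .n, .n, .n,
  .n, .n, .n, .n, .n, .n,
  .n, .n, .n, .n, .n, .n,
  .n, .n, .n, .n, .n, .n,
  .n, .n, .n, .n, .n, .n,
  .n, .n, .n, .n, .n, .n,
  .n, .n, .n, .n, .n, .n,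
  .n, .n, .n, .n, .n, .n,
  .n, .n, .n, .n, .n, .n,
  .n, .n, .n, .n, .n, .n,
  .n, .n, .n, .n, .n, .n,
  .n, .n, .n, .n, .n, .n,
  .n, .n, .n, .n, .n, .d 45 44 20 20 169,
  .n, .n, .d 46 47 22 22 172]

theorem ders_p3_1 : dersK nSt st tl true true false false true Dp3_1 0 = true := by decide +kernel

theorem cfg_p3_1 : cfgK nSt 5 ct rows true true false false true Dp3_1 = true := by decide +kernel

end Pool.Agent.Ortho.Cert
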