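import Pool.Agent.Ortho.Cert.Data

set_option autoImplicit false

/-!
# Ortho/Cert/P5_0: derivations of the pattern T = 5, top = 0 (generated)
-/

namespace Pool.Agent.Ortho.Cert

/-- derivations -/
noncomputable def Dp5_0 : List DE := [
  .d 27 56 4 15 11, .d 30 58 6 13 9, .d 29 37 7 56 33, .d 24 39 5 58 35, .d 5 58 24 39 9, .d 4 15 27 56 33,
  .d 7 56 29 37 11, .d 6 13 30 58 35, .d 27 48 33 15 27, .d 2 40 4 20 37, .d 30 50 36 13 25, .d 3 42 6 22 39,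
  .d 2 36 7 48 37, .d 29 37 32 24 49, .d 3 38 5 50 39, .d 24 39 37 26 51, .d 32 24 29 37 15, .d 33 15 27 48 37,
  .d 5 42 1 22 51, .d 4 12 0 24 49, .d 36 13 30 50 39, .d 37 26 24 39 13, .d 7 40 0 20 49, .d 6 14 1 26 51,
  .n, .n, .n, .n, .n, .n,
  .n, .n, .d 16 24 4 26 43, .d 17 58 6 16 41, .d 4 26 16 24 41, .d 4 18 20 56 41,
  .d 20 56 4 18 43, .d 21 26 6 24 41, .d 6 16 17 58 43, .d 6 24 21 26 43, .d 1 12 0 14 21, .d 2 36 3 38 21,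
  .d 3 38 2 36 23, .d 0 14 1 12 23, .d 16 24 21 26 43, .d 17 50 20 48 41, .d 20 48 17 50 43, .d 21 26 16 24 41,
  .d 30 58 16 13 9, .n, .d 27 56 21 15 11, .n, .n, .d 29 37 20 56 33,
  .n, .d 24 39 17 58 35, .d 16 13 30 58 35, .d 17 58 24 39 9, .n, .n,
  .d 20 56 29 37 11, .d 21 15 27 56 33, .n, .n, .d 27 60 4 15 11, .d 29 37 7 60 33,
  .d 30 62 6 13 9, .d 24 39 5 62 35, .d 161 43 18 23 36, .d 113 37 39 25 50, .d 34 27 118 39 14, .d 5 62 24 39 9,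
  .d 4 15 27 60 33, .d 18 23 161 43 26, .d 167 41 22 21 38, .d 118 39 34 27 48, .d 39 25 113 37 12, .d 7 60 29 37 11,
  .d 6 13 30 62 35, .d 22 21 167 41 24, .d 2 36 32 20 53, .d 0 20 33 12 31, .d 3 38 37 22 55, .d 1 22 36 14 29,
  .n, .d 32 20 2 36 31, .d 33 12 0 20 53, .n, .n, .n,
  .d 36 14 1 22 55, .n, .n, .d 37 22 3 38 29, .n, .n,
  .n, .n, .d 16 20 17 58 43, .d 17 58 16 20 41, .n, .d 20 56 21 22 43,
  .d 21 22 20 56 41, .n, .n, .n, .n, .n,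
  .d 16 24 21 30 43, .d 16 28 21 26 43, .d 17 50 20 52 41, .d 17 54 20 48 41, .n, .n,
  .d 20 48 17 54 43, .d 20 52 17 50 43, .d 21 26 16 28 41, .d 21 30 16 24 41, .n, .n,
  .n, .n, .n, .n, .n, .n,
  .n, .n, .d 4 12 4 28 33, .d 5 38 5 54 35, .n, .n,
  .n, .n, .d 7 36 7 52 33, .d 6 14 6 30 35, .n, .d 32 20 20 36 15,
  .n, .d 16 22 36 14 25, .n, .d 33 12 21 20 37, .d 17 38 37 22 51, .n,
  .d 20 36 32 20 49, .n, .d 36 14 16 22 39, .n, .n, .d 21 20 33 12 27,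
  .d 37 22 17 38 13, .n, .n, .n, .n, .n,
  .n, .n, .n, .n, .n, .n,
  .n, .n, .n, .n, .n, .n,
  .n, .n, .n, .n, .n, .n,
  .n, .n, .n, .n, .n, .n,
  .n, .n, .n, .n, .d 16 20 17 62 43, .d 16 28 21 30 43,
  .d 17 62 16 20 41, .d 17 54 20 52 41, .n, .n, .n, .n,
  .d 20 52 17 54 43, .d 20 60 21 22 43, .d 21 30 16 28 41, .d 21 22 20 60 41, .n, .n,
  .n, .n, .n, .n, .n, .n,
  .n, .n, .n, .n, .d 53 40 4 23 36, .d 55 42 6 21 38,
  .d 50 21 7 40 12, .d 48 23 5 42 14, .d 5 42 48 23 48, .d 4 23 53 40 26, .d 7 40 50 21 50, .d 6 21 55 42 24,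
  .d 41 51 45 15 26, .n, .d 42 49 46 13 24, .n, .n, .d 43 37 44 25 50,
  .n, .d 40 39 47 27 48, .d 44 25 43 37 12, .d 45 15 41 51 36, .n, .n,
  .d 46 13 42 49 38, .d 47 27 40 39 14, .n, .n, .n, .n,
  .n, .n, .n, .n, .n, .n,
  .n, .n, .n, .n, .n, .n,
  .n, .n, .n, .n, .n, .n,
  .n, .n, .n, .n, .d 55 42 16 21 38, .n,
  .d 53 40 21 23 36, .n, .n, .d 50 21 20 40 12, .n, .d 48 23 17 42 14,
  .d 16 21 55 42 24, .d 17 42 48 23 48, .n, .n, .d 20 40 50 21 50, .d 21 23 53 40 26,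
  .n, .n, .d 53 44 4 23 36, .d 50 21 7 44 12, .d 55 46 6 21 38, .d 48 23 5 46 14,
  .d 112 51 35 15 26, .d 160 21 23 41 12, .d 19 43 166 23 48, .d 5 46 48 23 48, .d 4 23 53 44 26, .d 35 15 112 51 36,
  .d 119 49 38 13 24, .d 166 23 19 43 14, .d 23 41 160 21 50, .d 7 44 50 21 50, .d 6 21 55 46 24, .d 38 13 119 49 38,
  .d 2 36 56 52 37, .d 2 44 57 20 37, .d 3 38 61 54 39, .d 3 46 60 22 39, .n, .d 56 44 0 20 49,
  .d 57 12 0 28 49, .n, .n, .n, .d 60 14 1 30 51, .n,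
  .n, .d 61 46 1 22 51, .n, .n, .n, .n,
  .n, .n, .n, .n, .n, .n,
  .n, .n, .n, .n, .n, .n,
  .n, .n, .n, .n, .n, .n,
  .n, .n, .n, .n, .n, .n,
  .n, .n, .n, .n, .n, .n,
  .n, .n, .n, .n, .n, .n,
  .n, .n, .n, .d 56 36 20 52 33, .n, .d 16 14 60 30 35,
  .n, .d 57 12 21 28 33, .d 17 38 61 54 35, .n, .d 20 36 56 52 33, .n,
  .d 60 14 16 30 35, .n, .n, .d 21 12 57 28 33, .d 61 38 17 54 35, .n,
  .n, .n, .n, .n, .n, .n,
  .n, .n, .n, .n, .n, .n,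
  .n, .n, .n, .n, .n, .n,
  .n, .n, .n, .n, .n, .n,
  .n, .n, .n, .n, .n, .n,
  .n, .n, .n, .n, .n, .n,
  .n, .n, .n, .n, .n, .n,
  .n, .n, .n, .n, .n, .n,
  .n, .n, .n, .n, .n, .n,
  .n, .n, .n, .n, .n, .n,
  .n, .n, .n, .n, .d 2 40 177 39 21, .n,
  .d 3 42 180 37 23, .n, .n, .d 0 13 176 40 23, .n, .d 1 15 181 42 21,
  .d 176 40 0 13 21, .d 177 39 2 40 23, .n, .n, .d 180 37 3 42 21, .d 181 42 1 15 23]

theorem ders_p5_0 : dersK nSt st tl true false true false false Dp5_0 0 = true := by decide +kernel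

theorem cfg_p5_0 : cfgK nSt 3 ct rows true false true false false Dp5_0 = true := by decide +kernel

end Pool.Agent.Ortho.Cert
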