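import Pool.Agent.Ortho.Cert.Data

set_option autoImplicit false

/-!
# Ortho/Cert/P7_0: derivations of the pattern T = 7, top = 0 (generated)
-/

namespace Pool.Agent.Ortho.Cert

/-- derivations -/
noncomputable def Dp7_0 : List DE := [
  .d 27 0 35 15 26, .d 30 1 38 13 24, .d 0 35 7 40 15, .d 1 38 5 42 13, .d 34 3 24 39 14, .d 4 39 2 40 27,
  .d 39 2 29 37 12, .d 6 34 3 42 25, .d 27 0 45 15 26, .d 0 53 4 12 15, .d 30 1 46 13 24, .d 1 55 6 14 13,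
  .d 0 45 7 40 15, .d 12 18 32 16 53, .d 1 46 5 42 13, .d 14 22 37 18 55, .d 44 2 29 37 12, .d 33 23 9 16 53,
  .d 34 14 30 38 14, .d 4 44 2 40 27, .d 36 19 11 18 55, .d 47 3 24 39 14, .d 39 12 27 36 12, .d 6 47 3 42 25,
  .d 3 16 54 37 23, .d 49 17 1 15 23, .d 0 19 11 12 23, .d 12 18 3 38 21, .d 51 20 0 13 21, .d 2 21 52 39 21,
  .d 14 22 2 36 23, .d 1 23 9 14 21, .d 16 53 4 26 43, .d 17 48 7 48 41, .d 4 55 16 24 41, .d 5 48 20 48 41,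
  .d 20 50 5 50 43, .d 21 55 6 24 41, .d 7 50 17 50 43, .d 6 53 21 26 43, .d 1 56 0 14 21, .d 2 57 3 38 21,
  .d 3 60 2 36 23, .d 0 61 1 12 23, .d 16 53 21 26 43, .d 17 48 20 48 41, .d 20 50 17 50 43, .d 21 55 16 24 41,
  .d 30 48 32 13 25, .n, .d 27 50 37 15 27, .n, .d 3 16 5 50 39, .d 0 35 20 40 15,
  .d 2 21 7 48 37, .d 1 38 17 42 13, .d 16 34 3 42 25, .d 33 55 24 39 13, .n, .d 4 20 0 24 49,
  .d 36 53 29 37 15, .d 21 39 2 40 27, .n, .d 6 17 1 26 51, .n, .d 0 35 7 44 15,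
  .n, .d 1 38 5 46 13, .n, .d 113 58 39 25 50, .n, .n,
  .d 4 39 2 44 27, .d 35 63 112 51 36, .n, .d 118 62 34 27 48, .n, .n,
  .d 6 34 3 46 25, .d 38 59 119 49 38, .d 2 57 32 20 53, .n, .d 3 60 37 22 55, .n,
  .n, .n, .d 33 56 0 20 53, .n, .n, .n,
  .d 36 61 1 22 55, .n, .n, .n, .n, .n,
  .n, .n, .n, .d 33 55 16 20 45, .n, .d 36 53 21 22 47,
  .n, .n, .n, .n, .n, .n,
  .d 16 53 21 30 43, .n, .d 17 48 20 52 41, .n, .n, .n,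
  .d 20 50 17 54 43, .n, .d 21 55 16 28 41, .n, .n, .n,
  .n, .n, .d 3 16 17 50 39, .d 2 21 20 48 37, .d 16 17 1 26 51, .n,
  .n, .n, .d 4 32 35 12 26, .d 34 36 5 38 14, .n, .n,
  .d 21 20 0 24 49, .n, .d 39 33 7 36 12, .d 6 37 38 14 24, .n, .d 44 33 20 36 12,
  .n, .d 16 37 46 14 24, .n, .d 33 56 21 20 37, .d 17 60 37 22 51, .n,
  .d 20 57 32 20 49, .n, .d 36 61 16 22 39, .n, .n, .d 21 32 45 12 26,
  .d 47 36 17 38 14, .n, .d 3 16 37 22 55, .n, .d 2 21 32 20 53, .n,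
  .n, .n, .n, .d 33 20 0 20 53, .n, .n,
  .n, .d 36 17 1 22 55, .n, .n, .n, .n,
  .n, .n, .n, .n, .n, .n,
  .n, .n, .d 32 35 7 36 15, .n, .n, .d 4 39 33 12 27,
  .n, .d 37 38 5 38 13, .n, .d 6 34 36 14 25, .n, .n,
  .n, .n, .n, .n, .n, .n,
  .n, .n, .n, .n, .n, .n,
  .n, .n, .n, .n, .n, .n,
  .n, .n, .n, .n, .n, .n,
  .n, .n, .n, .n, .n, .n,
  .n, .n, .n, .n, .n, .n,
  .n, .n, .n, .n, .n, .n,
  .n, .n, .n, .n, .d 51 56 0 13 21, .d 2 57 52 39 21,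
  .n, .n, .d 3 60 54 37 23, .d 49 61 1 15 23, .n, .n,
  .n, .n, .n, .n, .n, .n,
  .n, .n, .d 24 136 49 14 25, .d 54 143 30 38 13, .d 52 145 27 36 15, .d 29 151 51 12 27,
  .n, .n, .n, .n, .n, .n,
  .n, .n, .n, .n, .n, .n,
  .n, .n, .n, .n, .n, .n,
  .n, .n, .n, .n, .n, .n,
  .n, .d 68 35 7 40 15, .n, .n, .n, .d 4 39 69 40 27,
  .n, .d 74 38 5 42 13, .n, .n, .n, .d 6 34 75 42 25,
  .d 0 45 56 44 15, .n, .d 1 46 61 46 13, .n, .n, .n,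
  .d 57 44 2 44 27, .n, .n, .n, .d 60 47 3 46 25, .n,
  .n, .n, .n, .n, .n, .n,
  .n, .n, .n, .n, .n, .n,
  .n, .n, .n, .n, .n, .n,
  .n, .n, .n, .n, .n, .n,
  .n, .n, .n, .n, .n, .n,
  .n, .n, .n, .n, .n, .n,
  .n, .n, .n, .n, .n, .n,
  .n, .n, .n, .n, .n, .n,
  .n, .d 57 44 37 12 27, .d 33 46 61 38 13, .n, .d 36 45 56 36 15, .n,
  .d 60 47 32 14 25, .n, .n, .n, .n, .n,
  .n, .n, .n, .n, .n, .n,
  .n, .n, .n, .n, .n, .n,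
  .n, .n, .n, .n, .n, .n,
  .n, .n, .n, .n, .n, .n,
  .n, .n, .n, .n, .n, .n,
  .n, .n, .n, .n, .n, .n,
  .n, .n, .n, .n, .n, .n,
  .n, .n, .n, .n, .n, .n,
  .n, .n, .n, .n, .n, .n,
  .n, .n, .n, .n, .n, .n,
  .n, .n, .n, .n, .n, .n,
  .n, .n, .n, .n, .n, .n,
  .n, .n, .n, .n, .n, .n,
  .n, .n, .n, .n, .n, .n,
  .n, .n, .n, .n, .n, .n,
  .n, .n, .n, .n, .n, .n,
  .d 28 176 8 14 24, .d 13 177 31 38 14, .d 15 180 26 36 12, .d 25 181 10 12 26, .n, .n,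
  .n, .n, .n, .n, .n, .n,
  .n, .n, .n, .n, .n, .n,
  .n, .n, .n, .n, .n, .n,
  .n, .n, .n, .n, .n, .d 170 18 39 9 22,
  .n, .n, .n, .d 35 23 171 35 20, .n, .d 174 22 34 11 20,
  .n, .n, .n, .d 38 19 175 33 22]

theorem ders_p7_0 : dersK nSt st tl true true true false false Dp7_0 0 = true := by decide +kernel

theorem cfg_p7_0 : cfgK nSt 3 ct rows true true true false false Dp7_0 = true := by decide +kernel

end Pool.Agent.Ortho.Cert
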