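import Pool.Agent.Ortho.Cert.Data

set_option autoImplicit false

/-!
# Ortho/Cert/P7_1: derivations of the pattern T = 7, top = 1 (generated)
-/

namespace Pool.Agent.Ortho.Cert

/-- derivations -/
noncomputable def Dp7_1 : List DE := [
  .d 12 27 4 23 4, .d 14 30 6 21 6, .d 0 34 7 40 23, .d 1 39 5 42 19, .d 19 31 10 23 8, .d 4 38 2 40 14,
  .d 23 26 8 21 10, .d 6 35 3 42 12, .d 41 49 45 15 55, .d 8 12 18 12 20, .d 42 51 46 13 53, .d 10 14 22 14 17,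
  .d 8 33 7 40 20, .d 29 58 32 24 51, .d 10 36 5 42 17, .d 24 62 37 26 49, .d 44 54 43 37 56, .d 33 23 26 48 58,
  .d 5 1 15 38 13, .d 4 32 13 40 15, .d 36 59 30 50 62, .d 47 52 40 39 61, .d 7 0 13 36 15, .d 6 37 15 42 13,
  .d 51 56 8 13 35, .d 49 17 10 15 38, .d 8 19 11 12 36, .d 12 18 15 38 34, .d 51 20 8 13 35, .d 49 61 10 15 38,
  .d 14 22 13 36 39, .d 10 23 9 14 33, .d 16 12 18 26 27, .d 17 48 7 48 43, .d 4 3 16 24 30, .d 19 11 20 48 26,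
  .d 20 50 5 50 40, .d 21 14 22 24 30, .d 23 9 17 50 31, .d 6 53 21 26 41, .d 10 56 0 14 33, .d 13 57 15 38 47,
  .d 15 60 13 36 44, .d 8 61 1 12 36, .d 16 53 21 26 41, .d 17 48 20 48 43, .d 20 50 17 50 40, .d 21 55 16 24 42,
  .d 42 51 44 13 13, .d 12 41 18 22 18, .d 41 49 47 15 15, .d 14 42 22 20 22, .d 10 32 5 42 17, .d 0 34 20 40 23,
  .d 8 37 7 40 20, .d 1 39 17 42 19, .d 16 35 3 42 12, .d 17 24 11 23 0, .d 19 40 11 20 9, .d 4 36 13 40 15,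
  .d 20 29 9 21 1, .d 21 38 2 40 14, .d 23 26 0 22 11, .d 6 33 15 42 13, .d 12 112 18 23 4, .d 0 34 7 44 23,
  .d 14 119 22 21 6, .d 1 39 5 46 19, .d 89 27 4 23 21, .d 113 58 38 25 10, .d 5 24 94 23 8, .d 19 118 11 23 0,
  .d 4 38 2 44 14, .d 58 23 88 25 10, .d 95 30 6 21 16, .d 118 62 35 27 8, .d 7 29 88 21 10, .d 23 113 9 21 1,
  .d 6 35 3 46 12, .d 62 19 94 27 8, .d 8 33 56 44 20, .d 29 88 33 12 14, .d 10 36 61 46 17, .d 24 94 36 14 12,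
  .n, .d 32 89 27 36 23, .d 57 32 2 44 3, .n, .n, .n,
  .d 60 37 3 46 2, .n, .n, .d 37 95 30 38 19, .n, .n,
  .n, .n, .n, .d 17 48 56 52 43, .n, .d 20 50 61 54 40,
  .n, .n, .n, .n, .n, .n,
  .d 16 53 21 30 41, .d 32 89 93 33 23, .d 17 48 20 52 43, .d 86 94 36 9 12, .n, .n,
  .d 20 50 17 54 40, .d 90 88 33 11 14, .d 21 55 16 28 42, .d 37 95 85 35 19, .n, .n,
  .d 14 30 16 20 22, .d 12 27 21 22 18, .d 10 32 17 42 17, .d 8 37 20 40 20, .d 16 33 3 42 2, .d 56 4 32 21 1,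
  .d 17 24 11 20 9, .d 33 7 57 23 4, .d 4 32 35 12 55, .d 34 36 5 38 61, .d 20 29 9 22 11, .d 36 5 60 21 6,
  .d 21 36 2 40 3, .d 61 6 37 23 0, .d 39 33 7 36 56, .d 6 37 38 14 53, .d 56 57 32 22 11, .d 44 33 20 36 56,
  .d 56 21 32 20 51, .d 16 37 46 14 53, .d 33 56 57 22 18, .d 33 56 21 20 58, .d 17 60 37 22 49, .d 33 20 57 20 58,
  .d 20 57 32 20 51, .d 36 17 60 22 62, .d 36 61 16 22 62, .d 36 61 60 20 22, .d 61 16 37 22 49, .d 21 32 45 12 55,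
  .d 47 36 17 38 61, .d 61 60 37 20 9, .d 10 32 61 46 17, .n, .d 8 37 56 44 20, .n,
  .n, .n, .n, .d 57 46 2 44 14, .n, .n,
  .n, .d 60 45 3 46 12, .n, .n, .n, .n,
  .n, .n, .n, .n, .n, .n,
  .n, .n, .d 32 34 7 36 23, .d 33 56 4 23 4, .d 5 60 37 23 0, .d 4 38 33 12 14,
  .d 36 61 6 21 6, .d 37 39 5 38 19, .d 7 57 32 21 1, .d 6 35 36 14 12, .n, .n,
  .n, .n, .n, .n, .n, .n,
  .n, .n, .n, .n, .n, .n,
  .n, .n, .n, .n, .n, .n,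
  .n, .n, .n, .n, .n, .n,
  .n, .n, .n, .n, .n, .n,
  .d 12 27 57 23 4, .n, .d 14 30 60 21 6, .n, .n, .n,
  .n, .n, .d 56 29 9 21 1, .n, .n, .n,
  .n, .d 61 24 11 23 0, .n, .n, .d 51 56 50 13 34, .d 49 17 48 15 39,
  .n, .n, .d 51 20 50 13 34, .d 49 61 48 15 39, .n, .n,
  .n, .n, .n, .n, .n, .n,
  .n, .n, .n, .n, .n, .n,
  .n, .n, .n, .n, .n, .n,
  .n, .n, .n, .n, .n, .n,
  .n, .n, .n, .n, .n, .n,
  .n, .n, .n, .n, .n, .n,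
  .n, .n, .n, .n, .n, .n,
  .n, .n, .n, .n, .n, .n,
  .d 13 57 44 20 116, .n, .d 15 60 47 22 108, .n, .n, .n,
  .d 45 56 8 20 110, .n, .n, .n, .d 46 61 10 22 114, .n,
  .n, .n, .n, .n, .n, .n,
  .n, .d 17 10 44 20 80, .n, .d 20 8 47 22 82, .n, .n,
  .n, .n, .n, .n, .n, .n,
  .n, .n, .n, .n, .n, .n,
  .n, .n, .n, .n, .n, .n,
  .n, .n, .n, .n, .n, .n,
  .d 4 32 34 12 15, .d 35 36 5 38 17, .n, .n, .n, .n,
  .d 38 33 7 36 20, .d 6 37 39 14 13, .d 125 57 44 14 47, .d 32 33 20 36 7, .d 44 37 56 36 56, .d 16 37 36 14 2,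
  .d 45 56 127 38 45, .n, .n, .d 57 36 45 12 55, .n, .d 60 33 46 14 53,
  .n, .d 46 61 131 36 46, .d 47 32 61 38 61, .d 21 32 33 12 3, .d 37 36 17 38 5, .d 133 60 47 12 44,
  .d 15 16 47 22 108, .n, .d 13 21 44 20 116, .n, .n, .n,
  .n, .d 45 20 8 20 110, .n, .n, .n, .d 46 17 10 22 114,
  .n, .n, .n, .n, .n, .n,
  .n, .n, .n, .n, .n, .n,
  .n, .n, .n, .n, .n, .n,
  .n, .n, .n, .n, .n, .n,
  .n, .n, .n, .n, .n, .n,
  .n, .n, .n, .n, .n, .n,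
  .n, .n, .n, .n, .n, .n,
  .n, .n, .n, .n, .n, .n,
  .n, .n, .n, .n, .n, .n,
  .n, .n, .n, .n, .n, .n,
  .n, .n, .n, .n, .n, .n,
  .n, .n, .n, .n, .n, .n,
  .n, .n, .n, .n, .n, .n,
  .n, .n, .n, .n, .n, .n,
  .n, .n, .n, .n, .n, .n,
  .n, .n, .n, .n, .n, .n,
  .n, .n, .n, .n, .n, .n,
  .n, .n, .n, .n, .n, .n,
  .n, .n, .n, .n, .n, .n,
  .n, .n, .n, .n, .n, .n,
  .n, .n, .n, .n, .n, .n,
  .n, .n, .n, .n, .n, .n,
  .n, .n, .n, .n, .n, .n,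
  .n, .n, .n, .n, .n, .n,
  .n, .n, .n, .n, .n, .n,
  .n, .n, .n, .n, .n, .n,
  .n, .n, .n, .n, .n, .n,
  .n, .n, .n, .n, .n, .n,
  .n, .n, .n, .n, .n, .n,
  .n, .n, .n, .n, .n, .n,
  .n, .n, .d 44 61 125 36 44, .n, .n, .n,
  .n, .d 127 60 45 12 46, .n, .d 131 57 46 14 45, .n, .n,
  .d 47 56 133 38 47]

theorem ders_p7_1 : dersK nSt st tl true true true false true Dp7_1 0 = true := by decide +kernel

theorem cfg_p7_1 : cfgK nSt 3 ct rows true true true false true Dp7_1 = true := by decide +kernel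

end Pool.Agent.Ortho.Cert
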