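import Pool.Agent.Ortho.Cert.Tables
import Pool.Agent.Ortho.DerSound
import Pool.Agent.Ortho.CfgSound
import Pool.Agent.Ortho.Cert.P0_0
import Pool.Agent.Ortho.Cert.P0_1
import Pool.Agent.Ortho.Cert.P1_0
import Pool.Agent.Ortho.Cert.P1_1
import Pool.Agent.Ortho.Cert.P3_0
import Pool.Agent.Ortho.Cert.P3_1
import Pool.Agent.Ortho.Cert.P5_0
import Pool.Agent.Ortho.Cert.P5_1
import Pool.Agent.Ortho.Cert.P7_0
import Pool.Agent.Ortho.Cert.P7_1
import Pool.Agent.Ortho.Cert.P15_0
import Pool.Agent.Ortho.Cert.P15_1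

set_option autoImplicit false

/-!
# Ortho/Cert/Main: the certificate reproduces itself
-/

namespace Pool.Agent.Ortho.Cert

/-- the states of a class -/
def S (κ : Cls) : Set (State (Fin 4)) :=
  {σ | ∃ n, n < 208 ∧ bitK (gOf ct (enc κ.T) κ.top (enc κ.B)) n = true ∧
    σ = toSt (Fin.val : Fin 4 → ℕ) (st n)}

theorem good_nil : Good (Fin.val : Fin 4 → ℕ) [] :=
  ⟨List.nodup_nil, fun _ ha => absurd ha List.not_mem_nil⟩

theorem st_ge (n : ℕ) (h : 208 ≤ n) : st n = [] := by
  unfold st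
  rw [nthK_eq, nthK_eq]
  have h1 : stT.length ≤ Nat.div n 16 := by
    have : stT.length = 13 := by rfl
    rw [this]
    show 13 ≤ n / 16
    omega
  rw [List.getD_eq_default stT _ h1]
  rfl

theorem good_st (n : ℕ) : Good (Fin.val : Fin 4 → ℕ) (st n) := by
  by_cases h : n < 208
  · exact good_st_aux n h
  · rw [st_ge n (by omega)]
    exact good_nil

theorem tl_mod (n : ℕ) : tl n = tl (n % 64) := by
  unfold tl
  have h1 : Nat.mod n 16 = Nat.mod (n % 64) 16 := by
    show n % 16 = n % 64 % 16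
    omega
  have h2 : Nat.mod (Nat.div n 16) 4 = Nat.mod (Nat.div (n % 64) 16) 4 := by
    show n / 16 % 4 = n % 64 / 16 % 4
    omega
  rw [h1, h2]

theorem good_tl (n : ℕ) : Good (Fin.val : Fin 4 → ℕ) (tl n) := by
  rw [tl_mod]
  exact good_tl_aux _ (Nat.mod_lt _ (by norm_num))

theorem tile_real {S : Cls → Set (State (Fin 4))} {V : Type} {R : Rects V} {A : Finset V}
    {e : Fin 4 → E3 × E3} (h : Realizes S R A e none) (n : ℕ) :
    Real R A e (toSt (Fin.val : Fin 4 → ℕ) (tl n)) := by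
  rw [tl_mod]
  have hn : n % 64 < 64 := Nat.mod_lt _ (by norm_num)
  exact Real.equiv (h _ _ (tile_aux' _ hn)) (tile_aux _ hn)

theorem bitK_eq (g n : ℕ) : bitK g n = g.testBit n := by
  unfold bitK
  have h1 : Nat.land (Nat.shiftRight g n) 1 = (g >>> n) &&& 1 := rfl
  rw [h1, Nat.testBit, Nat.and_comm, Nat.one_and_eq_mod_two]
  have h2 : g >>> n % 2 < 2 := Nat.mod_lt _ (by norm_num)
  generalize g >>> n % 2 = m at h2
  interval_cases m <;> rfl

theorem lt_of_bitK {g n : ℕ} (hg : g < 2 ^ 208) (h : bitK g n = true) : n < 208 := by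
  by_contra hn
  rw [bitK_eq, Nat.testBit_lt_two_pow (lt_of_lt_of_le hg (Nat.pow_le_pow_right (by norm_num)
    (by omega)))] at h
  exact absurd h (by simp)

/-- mask `T` of an element -/
def fT (o : Option Cls) (k : Fin 4) : Bool := o.any fun κ => κ.T k

/-- mask `B` of an element -/
def fB (o : Option Cls) (k : Fin 4) : Bool := o.any fun κ => κ.B k

/-- `top` of an element -/
def ftop (o : Option Cls) : Bool := o.any fun κ => κ.top

theorem fT_some (κ : Cls) : fT (some κ) = κ.T := rfl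

theorem fB_some (κ : Cls) : fB (some κ) = κ.B := rfl

theorem fT_none : fT none = fun _ => false := rfl

theorem forbOf_side (b : Fin 5 → Bool) (k : Fin 4) : forbOf b k.castSucc =
    forb (b (k + 1).castSucc) (b 4) (b (k + 3).castSucc) := by
  fin_cases k <;> rfl

theorem forbOf_top (b : Fin 5 → Bool) : forbOf b 4 = enc (fun k => b k.castSucc) := rfl

theorem fin5_cases {P : Fin 5 → Prop} (h : ∀ k : Fin 4, P k.castSucc) (h4 : P 4) (k : Fin 5) : P k := by
  refine Fin.lastCases ?_ h k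
  exact h4

theorem f31 (k : Fin 4) : k + 3 + 1 = k := by revert k; decide

theorem f13 (k : Fin 4) : k + 1 + 3 = k := by revert k; decide

/-- the composition of all elements works -/
def CompOK (L : Fin 5 → Option Cls) : Prop :=
  ∀ {V : Type} [DecidableEq V] (R : Rects V) (A : Fin 5 → Finset V) (e : Fin 5 → Fin 4 → E3 × E3),
    Conf A e → (∀ i, Realizes S R (A i) (e i) (L i)) →
    Realizes S R (Finset.univ.biUnion A) (fun k : Fin 4 => e k.castSucc 0) (some (out L))

theorem core {r : ℕ} {D : List DE} (b : Fin 5 → Bool)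
    (hD : dersK nSt st tl (b 0) (b 1) (b 2) (b 3) (b 4) D 0 = true)
    (hc : cfgK nSt r ct rows (b 0) (b 1) (b 2) (b 3) (b 4) D = true)
    (L : Fin 5 → Option Cls) (hL : Valid L) (hb : ∀ k, (L k).isSome = b k) : CompOK L := by
  intro V _ R A e hC hx σ hσ
  obtain ⟨n, hn, hg, rfl⟩ := hσ
  have hnone : ∀ k, b k = false → L k = none := fun k hk => by
    have := hb k
    rw [hk] at this
    exact Option.isNone_iff_eq_none.1 (by rw [← Option.not_isSome, this]; rfl)
  have hsome : ∀ k, b k = true → ∃ κ, L k = some κ := fun k hk => by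
    have := hb k
    rw [hk] at this
    exact Option.isSome_iff_exists.1 this
  have hbn : ∀ k, L k = none → b k = false := fun k hk => by
    rw [← hb k, hk]; rfl
  have hB : outB (enc (fT (L 0))) (enc (fT (L 1))) (enc (fT (L 2))) (enc (fT (L 3))) =
      enc (out L).B := by
    rw [outB_enc]
    congr 1
    funext k
    fin_cases k <;> rfl
  have hT : ∀ k, b k = true → enc (fT (L k)) &&& forbOf b k = 0 := by
    refine fin5_cases ?_ ?_
    · intro k hk
      obtain ⟨κ, hκ⟩ := hsome _ hk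
      rw [forbOf_side, hκ, fT_some]
      exact enc_forb _ _ _ _ (hL.side0 k κ hκ).1 (fun h => hbn _ (hL.side1 k κ hκ (Or.inl h)))
        (fun h => hbn _ (hL.side2 k κ hκ (Or.inl h))) (fun h => hbn _ (hL.side3 k κ hκ (Or.inl h)))
    · intro hk
      obtain ⟨κ, hκ⟩ := hsome _ hk
      rw [forbOf_top, hκ, fT_some]
      exact enc_disj _ _ fun k h => hbn _ (hL.stop κ hκ k (Or.inl h))
  have hBB : ∀ k, b k = true → enc (fB (L k)) &&& forbOf b k = 0 := by
    refine fin5_cases ?_ ?_
    · intro k hk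
      obtain ⟨κ, hκ⟩ := hsome _ hk
      rw [forbOf_side, hκ, fB_some]
      exact enc_forb _ _ _ _ (hL.side0 k κ hκ).2 (fun h => hbn _ (hL.side1 k κ hκ (Or.inr h)))
        (fun h => hbn _ (hL.side2 k κ hκ (Or.inr h))) (fun h => hbn _ (hL.side3 k κ hκ (Or.inr h)))
    · intro hk
      obtain ⟨κ, hκ⟩ := hsome _ hk
      rw [forbOf_top, hκ, fB_some]
      exact enc_disj _ _ fun k h => hbn _ (hL.stop κ hκ k (Or.inr h))
  have hsib : ∀ k : Fin 4, ¬ (fT (L k.castSucc) 2 = true ∧ fT (L (k + 1).castSucc) 2 = true) := by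
    rintro k ⟨h1, h2⟩
    obtain ⟨κ, hκ, h1⟩ := (Option.any_eq_true _ _).1 h1
    obtain ⟨κ', hκ', h2⟩ := (Option.any_eq_true _ _).1 h2
    exact hL.sib k κ κ' hκ hκ' ⟨h1, h2⟩
  have h4 : enc (fT (L 4)) &&& enc (out L).B = 0 := by
    refine enc_disj _ _ fun k hk => ?_
    obtain ⟨κ', hκ', hk⟩ := (Option.any_eq_true _ _).1 hk
    by_contra hB'
    rw [Bool.not_eq_false] at hB'
    have hB2 : ((L (k + 3).castSucc).any (fun κ => κ.T 1) || (L (k + 1).castSucc).any (fun κ => κ.T 3))
      = true := hB'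
    rw [Bool.or_eq_true] at hB2
    rcases hB2 with h | h
    · obtain ⟨κ, hκ, h⟩ := (Option.any_eq_true _ _).1 h
      refine hL.sib1 (k + 3) κ κ' hκ hκ' ⟨h, ?_⟩
      rw [f31 k]; exact hk
    · obtain ⟨κ, hκ, h⟩ := (Option.any_eq_true _ _).1 h
      refine hL.sib3 (k + 1) κ κ' hκ hκ' ⟨h, ?_⟩
      rw [f13 k]; exact hk
  have hout : forbOf b 4 = enc (out L).T := by
    rw [forbOf_top]
    congr 1
    funext k
    exact (hb _).symm
  have hg' : bitK (gOf ct (forbOf b 4) (b 4)
      (outB (enc (fT (L 0))) (enc (fT (L 1))) (enc (fT (L 2))) (enc (fT (L 3))))) n = true := by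
    rw [hB, hout]
    have : b 4 = (out L).top := (hb 4).symm
    rw [this]
    exact hg
  obtain ⟨j, x, hj, hjn, hsel⟩ := cfg_sound (b := b) hc (fun k => enc (fT (L k)))
    (fun k => enc (fB (L k))) (fun k => ftop (L k))
    (fun k hk => by
      show enc (fT (L k)) = 0
      rw [hnone k hk, fT_none]; exact enc_zero)
    (fun k hk => by
      obtain ⟨κ, hκ⟩ := hsome k hk
      show (enc (fT (L k)), enc (fB (L k)), ftop (L k)) ∈ rows
      rw [hκ]
      exact mem_rows κ.T κ.B κ.top (hL.ok k κ hκ))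
    hT hBB (enc_bit2 _ _ (hsib 0)) (enc_bit2 _ _ (hsib 1)) (enc_bit2 _ _ (hsib 2))
    (enc_bit2 _ _ (hsib 3)) (by
      show enc (fT (L 4)) &&& outB (enc (fT (L 0))) (enc (fT (L 1))) (enc (fT (L 2))) (enc (fT (L 3))) = 0
      rw [hB]; exact h4) (show n < nSt from hn) hg'
  have hd := ders_sound hD j hj
  rw [Nat.zero_add, hjn] at hd
  refine der_sound good_st good_tl (b := b) (x := x) hd hC fun k => ?_
  cases hbk : b k with
  | false =>
    have h1 := hx k
    rw [hnone k hbk] at h1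
    exact tile_real h1 (x k)
  | true =>
    obtain ⟨κ, hκ⟩ := hsome k hbk
    have h1 := hx k
    rw [hκ] at h1
    have h2 := hsel k hbk
    have h3 : bitK (gOf ct (enc κ.T) κ.top (enc κ.B)) (x k) = true := by
      have h4 : bitK (gOf ct (enc (fT (L k))) (ftop (L k)) (enc (fB (L k)))) (x k) = true := h2
      rw [hκ] at h4
      exact h4
    exact h1 _ ⟨x k, lt_of_bitK (g_lt _ (enc_lt _) _ (enc_lt _) _) h3, h3, rfl⟩

theorem core' {r : ℕ} {D : List DE} {b0 b1 b2 b3 b4 : Bool}
    (hD : dersK nSt st tl b0 b1 b2 b3 b4 D 0 = true)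
    (hc : cfgK nSt r ct rows b0 b1 b2 b3 b4 D = true)
    (L : Fin 5 → Option Cls) (hL : Valid L) (b : Fin 5 → Bool) (hb : ∀ k, (L k).isSome = b k)
    (h0 : b 0 = b0) (h1 : b 1 = b1) (h2 : b 2 = b2) (h3 : b 3 = b3) (h4 : b 4 = b4) : CompOK L := by
  subst h0 h1 h2 h3 h4
  exact core b hD hc L hL hb

/-! ### rotations -/

/-- rotated class -/
def rotC (κ : Cls) : Cls := ⟨fun k => κ.T (k + 1), κ.top, fun k => κ.B (k + 1)⟩

/-- rotated configuration of classes -/
def rotL (L : Fin 5 → Option Cls) : Fin 5 → Option Cls :=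
  ![L 1, L 2, L 3, L 0, (L 4).map rotC]

theorem rotL_side (L : Fin 5 → Option Cls) (k : Fin 4) : rotL L k.castSucc = L (k + 1).castSucc := by
  fin_cases k <;> rfl

theorem rotL_top (L : Fin 5 → Option Cls) : rotL L 4 = (L 4).map rotC := rfl

theorem rotL_top_some {L : Fin 5 → Option Cls} {κ : Cls} (h : rotL L 4 = some κ) :
    ∃ κ', L 4 = some κ' ∧ κ = rotC κ' := by
  rw [rotL_top] at h
  obtain ⟨κ', h1, h2⟩ := Option.map_eq_some_iff.1 h
  exact ⟨κ', h1, h2.symm⟩

theorem ok_rot {κ : Cls} (h : κ.Ok) : (rotC κ).Ok := by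
  intro k hk
  obtain ⟨h1, h2⟩ := h (k + 1) hk
  refine ⟨h1, ?_⟩
  show κ.T (k + 1 + 1) = true ∨ κ.T (k + 3 + 1) = true
  rw [f31]
  rwa [f13] at h2

theorem f4 (k : Fin 4) : k + 1 + 1 + 1 + 1 = k := by revert k; decide

theorem valid_rot {L : Fin 5 → Option Cls} (h : Valid L) : Valid (rotL L) where
  ok := by
    refine fin5_cases (fun k κ hκ => ?_) (fun κ hκ => ?_)
    · rw [rotL_side] at hκ
      exact h.ok _ κ hκ
    · obtain ⟨κ', h1, rfl⟩ := rotL_top_some hκ
      exact ok_rot (h.ok _ κ' h1)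
  side0 k κ hκ := by
    rw [rotL_side] at hκ
    exact h.side0 _ κ hκ
  side1 k κ hκ := by
    rw [rotL_side] at hκ ⊢
    exact h.side1 _ κ hκ
  side2 k κ hκ := by
    rw [rotL_side] at hκ
    intro h1
    rw [rotL_top, h.side2 _ κ hκ h1]
    rfl
  side3 k κ hκ := by
    rw [rotL_side] at hκ ⊢
    intro h1
    have := h.side3 _ κ hκ h1
    rw [f13] at this
    rw [f31]
    exact this
  stop κ hκ k := by
    obtain ⟨κ', h1, rfl⟩ := rotL_top_some hκ
    rw [rotL_side]
    exact h.stop κ' h1 (k + 1)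
  sib k κ κ' hκ hκ' := by
    rw [rotL_side] at hκ hκ'
    exact h.sib _ κ κ' hκ hκ'
  sib1 k κ κ' hκ hκ' := by
    obtain ⟨κ'', h1, rfl⟩ := rotL_top_some hκ'
    rw [rotL_side] at hκ
    exact h.sib1 _ κ κ'' hκ h1
  sib3 k κ κ' hκ hκ' := by
    obtain ⟨κ'', h1, rfl⟩ := rotL_top_some hκ'
    rw [rotL_side] at hκ
    have := h.sib3 _ κ κ'' hκ h1
    show ¬ (κ.T 3 = true ∧ κ''.T (k + 3 + 1) = true)
    rw [f31]
    rwa [f13] at this

theorem out_rot (L : Fin 5 → Option Cls) : out (rotL L) = rotC (out L) := by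
  refine Cls.ext ?_ ?_ ?_
  · funext k
    show (rotL L k.castSucc).isSome = (L (k + 1).castSucc).isSome
    rw [rotL_side]
  · show (rotL L 4).isSome = (L 4).isSome
    rw [rotL_top, Option.isSome_map]
  · funext k
    show ((rotL L (k + 3).castSucc).any (fun κ => κ.T 1) || (rotL L (k + 1).castSucc).any (fun κ => κ.T 3))
      = ((L (k + 1 + 3).castSucc).any (fun κ => κ.T 1) || (L (k + 1 + 1).castSucc).any (fun κ => κ.T 3))
    rw [rotL_side, rotL_side, f31, f13]

/-- the states of a class, rotated backwards -/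
theorem S_rot {κ : Cls} {σ : State (Fin 4)} (h : σ ∈ S κ) :
    ∃ σ' ∈ S (rotC κ), (σ'.comap (fun k => k + 3)).Equiv σ := by
  obtain ⟨n, hn, hg, rfl⟩ := h
  refine ⟨_, ⟨rs n, rs_lt n hn, ?_, rfl⟩, rot_st n hn⟩
  have h1 : enc (rotC κ).T = rm (enc κ.T) := enc_rot κ.T
  have h2 : enc (rotC κ).B = rm (enc κ.B) := enc_rot κ.B
  rw [h1, h2]
  rcases rot_mask _ (enc_lt κ.T) _ (enc_lt κ.B) κ.top with h3 | h3
  · rw [h3] at hg
    rw [bitK_eq, Nat.zero_testBit] at hg
    exact absurd hg (by simp)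
  · exact h3 n hn hg

theorem inj_add (a : Fin 4) : Function.Injective (fun k : Fin 4 => k + a) :=
  fun x y h => by simpa using h

theorem cov_add (a : Fin 4) (i : Fin 4) : ∃ k : Fin 4, k + a = i := ⟨i - a, by simp⟩

/-- if the rotated class is realized on the rotated interface, then the class is realized -/
theorem real_unrot {κ : Cls} {V : Type} {R : Rects V} {A : Finset V} {e : Fin 4 → E3 × E3}
    (h : Realizes S R A (fun k => e (k + 1)) (some (rotC κ))) : Realizes S R A e (some κ) := by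
  intro σ hσ
  obtain ⟨σ', h1, h2⟩ := S_rot hσ
  have h3 := Real.comap (h σ' h1) (fun k : Fin 4 => k + 3) (inj_add 3) (fun i _ => cov_add 3 i)
  have h4 : (fun k => e (k + 1)) ∘ (fun k : Fin 4 => k + 3) = e := by
    funext k
    show e (k + 3 + 1) = e k
    rw [f31]
  rw [h4] at h3
  exact Real.equiv h3 h2

theorem rotC4 (κ : Cls) : rotC (rotC (rotC (rotC κ))) = κ := by
  refine Cls.ext ?_ rfl ?_
  · funext k
    exact congrArg κ.T (f4 k)
  · funext k
    exact congrArg κ.B (f4 k)

theorem real_rot {κ : Cls} {V : Type} {R : Rects V} {A : Finset V} {e : Fin 4 → E3 × E3}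
    (h : Realizes S R A e (some κ)) : Realizes S R A (fun k => e (k + 1)) (some (rotC κ)) := by
  refine real_unrot (real_unrot (real_unrot ?_))
  rw [rotC4]
  have : (fun k : Fin 4 => e (k + 1 + 1 + 1 + 1)) = e := by
    funext k
    rw [f4]
  rw [this]
  exact h

theorem tile_rot (t : Fin 4) (s : Fin 4 → Bool) :
    ((tileState (t + 3) (fun k => s (k + 3))).comap (fun k : Fin 4 => k + 1)).Equiv (tileState t s) := by
  have h1 : ∀ t k : Fin 4, k + 1 + (t + 3) = k + t := by decide
  have h2 : ∀ t : Fin 4, 3 - (t + 3) + 3 = 3 - t := by decide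
  have h3 : ∀ t : Fin 4, 1 - (t + 3) + 3 = 1 - t := by decide
  refine ⟨fun k => ?_, fun _ _ _ _ => Iff.rfl, fun _ _ _ _ => Iff.rfl, fun _ _ => ?_, fun _ _ => ?_⟩
  · show (if s (k + 1 + 3) = true then some (k + 1 + (t + 3)) else none) =
      if s k = true then some (k + t) else none
    rw [f13, h1]
  · show s (3 - (t + 3) + 3) = s (3 - t)
    rw [h2]
  · show s (1 - (t + 3) + 3) = s (1 - t)
    rw [h3]

theorem real_rot_none {V : Type} {R : Rects V} {A : Finset V} {e : Fin 4 → E3 × E3}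
    (h : Realizes S R A e none) : Realizes S R A (fun k => e (k + 1)) none := by
  intro t s hs
  obtain ⟨k, hk⟩ := hs
  have h1 := h (t + 3) (fun k => s (k + 3)) ⟨k + 1, by show s (k + 1 + 3) = true; rw [f13]; exact hk⟩
  exact Real.equiv (Real.comap h1 (fun k : Fin 4 => k + 1) (inj_add 1) (fun i _ => cov_add 1 i))
    (tile_rot t s)

theorem rot_comp {L : Fin 5 → Option Cls} (h : CompOK (rotL L)) : CompOK L := by
  intro V _ R A e hC hx
  refine real_unrot ?_
  rw [← out_rot]
  have hA : ∀ k : Fin 4, (![A 1, A 2, A 3, A 0, A 4] : Fin 5 → Finset V) k.castSucc = A (k + 1).castSucc := by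
    intro k; fin_cases k <;> rfl
  have he : ∀ k : Fin 4, (![e 1, e 2, e 3, e 0, fun m => e 4 (m + 1)] : Fin 5 → Fin 4 → E3 × E3)
      k.castSucc = e (k + 1).castSucc := by
    intro k; fin_cases k <;> rfl
  have hC' : Conf ![A 1, A 2, A 3, A 0, A 4] ![e 1, e 2, e 3, e 0, fun m => e 4 (m + 1)] := by
    refine ⟨?_, fun k => ?_, fun k => ?_⟩
    · intro i j hij
      fin_cases i <;> fin_cases j <;> first | exact absurd rfl hij | exact hC.disj _ _ (by decide)
    · rw [he]
      exact hC.top (k + 1)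
    · rw [he, he]
      exact hC.lat (k + 1)
  have h1 := h R ![A 1, A 2, A 3, A 0, A 4] ![e 1, e 2, e 3, e 0, fun m => e 4 (m + 1)] hC' (by
    refine fin5_cases (fun k => ?_) ?_
    · rw [hA, he, rotL_side]
      exact hx _
    · show Realizes S R (A 4) (fun m => e 4 (m + 1)) ((L 4).map rotC)
      have h4 := hx 4
      cases hL : L 4 with
      | none => rw [hL] at h4; exact real_rot_none h4
      | some κ => rw [hL] at h4; exact real_rot h4)
  have h2 : Finset.univ.biUnion (![A 1, A 2, A 3, A 0, A 4] : Fin 5 → Finset V) =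
      Finset.univ.biUnion A := by
    ext v
    simp only [Finset.mem_biUnion, Finset.mem_univ, true_and]
    constructor
    · rintro ⟨i, hi⟩
      fin_cases i
      · exact ⟨1, hi⟩
      · exact ⟨2, hi⟩
      · exact ⟨3, hi⟩
      · exact ⟨0, hi⟩
      · exact ⟨4, hi⟩
    · rintro ⟨i, hi⟩
      fin_cases i
      · exact ⟨3, hi⟩
      · exact ⟨0, hi⟩
      · exact ⟨1, hi⟩
      · exact ⟨2, hi⟩
      · exact ⟨4, hi⟩
  rw [h2] at h1
  have h3 : (fun k : Fin 4 => (![e 1, e 2, e 3, e 0, fun m => e 4 (m + 1)] : Fin 5 → Fin 4 → E3 × E3)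
      k.castSucc 0) = fun k => e (k + 1).castSucc 0 := by
    funext k
    rw [he]
  rw [h3] at h1
  exact h1

/-! ### all patterns -/

theorem core_all (L : Fin 5 → Option Cls) (hL : Valid L) (b : Fin 5 → Bool)
    (hb : ∀ k, (L k).isSome = b k)
    (h : (b 0, b 1, b 2, b 3) ∈ [(false, false, false, false), (true, false, false, false),
      (true, true, false, false), (true, false, true, false), (true, true, true, false),
      (true, true, true, true)]) : CompOK L := by
  simp only [List.mem_cons, Prod.mk.injEq, List.not_mem_nil, or_false] at h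
  rcases h with ⟨h0, h1, h2, h3⟩ | ⟨h0, h1, h2, h3⟩ | ⟨h0, h1, h2, h3⟩ | ⟨h0, h1, h2, h3⟩ |
    ⟨h0, h1, h2, h3⟩ | ⟨h0, h1, h2, h3⟩ <;> cases h4 : b 4
  · exact core' ders_p0_0 cfg_p0_0 L hL b hb h0 h1 h2 h3 h4
  · exact core' ders_p0_1 cfg_p0_1 L hL b hb h0 h1 h2 h3 h4
  · exact core' ders_p1_0 cfg_p1_0 L hL b hb h0 h1 h2 h3 h4
  · exact core' ders_p1_1 cfg_p1_1 L hL b hb h0 h1 h2 h3 h4
  · exact core' ders_p3_0 cfg_p3_0 L hL b hb h0 h1 h2 h3 h4
  · exact core' ders_p3_1 cfg_p3_1 L hL b hb h0 h1 h2 h3 h4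
  · exact core' ders_p5_0 cfg_p5_0 L hL b hb h0 h1 h2 h3 h4
  · exact core' ders_p5_1 cfg_p5_1 L hL b hb h0 h1 h2 h3 h4
  · exact core' ders_p7_0 cfg_p7_0 L hL b hb h0 h1 h2 h3 h4
  · exact core' ders_p7_1 cfg_p7_1 L hL b hb h0 h1 h2 h3 h4
  · exact core' ders_p15_0 cfg_p15_0 L hL b hb h0 h1 h2 h3 h4
  · exact core' ders_p15_1 cfg_p15_1 L hL b hb h0 h1 h2 h3 h4

theorem reps (b0 b1 b2 b3 : Bool) :
    (b0, b1, b2, b3) ∈ [(false, false, false, false), (true, false, false, false),
      (true, true, false, false), (true, false, true, false), (true, true, true, false),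
      (true, true, true, true)] ∨
    (b1, b2, b3, b0) ∈ [(false, false, false, false), (true, false, false, false),
      (true, true, false, false), (true, false, true, false), (true, true, true, false),
      (true, true, true, true)] ∨
    (b2, b3, b0, b1) ∈ [(false, false, false, false), (true, false, false, false),
      (true, true, false, false), (true, false, true, false), (true, true, true, false),
      (true, true, true, true)] ∨
    (b3, b0, b1, b2) ∈ [(false, false, false, false), (true, false, false, false),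
      (true, true, false, false), (true, false, true, false), (true, true, true, false),
      (true, true, true, true)] := by
  revert b0 b1 b2 b3
  decide

theorem comp_all (L : Fin 5 → Option Cls) (hL : Valid L) : CompOK L := by
  rcases reps (L 0).isSome (L 1).isSome (L 2).isSome (L 3).isSome with h | h | h | h
  · exact core_all L hL (fun k => (L k).isSome) (fun _ => rfl) h
  · exact rot_comp (core_all (rotL L) (valid_rot hL) (fun k => (rotL L k).isSome) (fun _ => rfl) h)
  · exact rot_comp (rot_comp (core_all (rotL (rotL L)) (valid_rot (valid_rot hL))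
      (fun k => (rotL (rotL L) k).isSome) (fun _ => rfl) h))
  · exact rot_comp (rot_comp (rot_comp (core_all (rotL (rotL (rotL L)))
      (valid_rot (valid_rot (valid_rot hL))) (fun k => (rotL (rotL (rotL L)) k).isSome)
      (fun _ => rfl) h)))

end Pool.Agent.Ortho.Cert
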