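import Pool.Agent.Ortho.Cert.Data

set_option autoImplicit false

/-!
# Ortho/Cert/P15_1: derivations of the pattern T = 15, top = 1 (generated)
-/

namespace Pool.Agent.Ortho.Cert

/-- derivations -/
noncomputable def Dp15_1 : List DE := [
  .d 0 12 18 7 7, .d 1 14 22 5 5, .d 0 35 63 27 63, .d 1 38 59 30 59, .d 5 48 14 22 54, .d 58 39 54 43 52,
  .d 7 50 12 18 52, .d 62 19 11 52 0, .d 0 2 57 7 7, .d 0 12 18 56 7, .d 1 3 60 5 5, .d 1 14 22 61 5,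
  .d 0 45 63 27 63, .d 29 58 32 53 51, .d 1 46 59 30 59, .d 28 22 37 55 49, .d 56 50 54 58 52, .d 57 23 9 53 51,
  .d 19 11 15 60 13, .d 58 56 8 54 10, .d 60 59 51 55 49, .d 61 48 52 62 54, .d 23 9 13 57 15, .d 62 61 10 52 8,
  .d 48 56 0 5 37, .d 50 17 1 7 32, .d 50 19 11 56 32, .d 50 19 11 20 32, .d 48 20 0 5 37, .d 50 61 1 7 32,
  .d 48 23 9 17 37, .d 48 23 9 61 37, .d 16 54 58 55 27, .d 57 14 22 53 30, .d 58 15 16 54 24, .d 58 15 60 54 24,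
  .d 60 12 18 15 26, .d 21 52 62 53 30, .d 62 13 57 52 29, .d 62 13 21 52 29, .d 48 56 0 61 37, .d 50 17 1 20 32,
  .d 48 20 0 17 37, .d 50 61 1 56 32, .d 16 53 21 55 41, .d 57 3 60 53 30, .d 60 2 57 15 26, .d 21 55 16 53 42,
  .d 1 3 16 5 5, .d 0 12 18 20 7, .d 0 2 21 7 7, .d 1 14 22 17 5, .d 1 32 19 31 5, .d 29 58 36 53 51,
  .d 0 37 23 26 7, .d 28 22 33 55 49, .d 16 5 48 3 50, .d 17 48 14 22 54, .d 19 11 15 16 13, .d 58 46 2 29 14,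
  .d 20 50 12 18 52, .d 21 7 50 2 48, .d 23 9 13 21 15, .d 62 45 52 40 12, .d 0 89 18 7 23, .d 9 35 23 113 63,
  .d 1 95 22 5 19, .d 11 38 19 118 59, .d 112 49 34 63 15, .d 89 18 63 49 21, .d 34 52 118 62 61, .d 19 94 52 62 12,
  .d 58 39 54 113 52, .d 58 23 88 54 10, .d 119 51 39 59 13, .d 95 22 59 51 16, .d 39 54 113 58 56, .d 23 88 54 58 14,
  .d 62 35 52 118 12, .d 62 19 94 52 8, .d 27 57 32 89 11, .d 29 88 33 56 14, .d 30 60 37 95 9, .d 24 94 36 61 12,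
  .d 56 29 88 33 10, .d 32 89 27 57 23, .d 33 56 29 88 18, .d 57 32 89 27 15, .d 89 27 57 32 21, .d 88 33 56 29 20,
  .d 36 61 24 94 22, .d 60 37 95 30 13, .d 61 24 94 36 8, .d 37 95 30 60 19, .d 95 30 60 37 16, .d 94 36 61 24 17,
  .n, .n, .n, .n, .n, .n,
  .n, .n, .n, .n, .n, .n,
  .n, .n, .n, .n, .n, .n,
  .n, .n, .n, .n, .n, .n,
  .d 1 3 16 17 5, .d 0 2 21 20 7, .d 11 32 17 24 5, .d 9 37 20 29 7, .d 16 17 1 55 49, .d 56 4 32 35 51,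
  .d 17 1 55 16 53, .d 57 38 33 7 14, .d 4 32 34 56 15, .d 5 60 35 36 8, .d 20 0 53 21 55, .d 60 35 36 5 12,
  .d 21 20 0 13 11, .d 61 6 37 38 49, .d 39 33 7 57 56, .d 6 37 39 61 13, .d 56 57 32 37 1, .d 56 57 36 33 1,
  .d 32 37 56 57 7, .d 16 37 46 61 53, .d 57 32 45 20 55, .d 57 32 47 56 15, .d 33 46 61 60 59, .d 57 36 45 56 55,
  .d 36 45 56 57 63, .d 60 33 46 61 53, .d 60 37 44 61 13, .d 60 37 46 17 53, .d 37 32 61 60 5, .d 21 32 45 56 55,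
  .d 61 60 33 36 0, .d 61 60 37 32 0, .d 30 16 37 95 9, .d 29 88 33 20 14, .d 27 21 32 89 11, .d 24 94 36 17 12,
  .d 32 89 27 21 23, .d 16 37 95 30 13, .d 17 24 94 36 8, .d 33 20 29 88 18, .d 89 27 21 32 21, .d 88 33 20 29 20,
  .d 20 29 88 33 10, .d 36 17 24 94 22, .d 21 32 89 27 15, .d 37 95 30 16 19, .d 95 30 16 37 16, .d 94 36 17 24 17,
  .n, .n, .n, .n, .n, .n,
  .n, .n, .d 56 4 38 33 10, .d 57 32 35 7 55, .d 5 60 37 39 9, .d 4 38 33 56 14,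
  .d 60 37 38 5 53, .d 61 6 35 36 8, .d 39 33 56 4 56, .d 6 35 36 61 12]

theorem ders_p15_1 : dersK nSt st tl true true true true true Dp15_1 0 = true := by decide +kernel

theorem cfg_p15_1 : cfgK nSt 1 ct rows true true true true true Dp15_1 = true := by decide +kernel

end Pool.Agent.Ortho.Cert
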