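import Pool.Agent.Ortho.Cert.Main

set_option autoImplicit false

/-!
# Ortho/Cert/Root: closing the net at the root

Six discs: the five elements `A` (all of them rectangles) and the disc `A'`. Boundary edges `Fin 4 ⊕ (Fin 5 × Fin 4)`, coded by `c6`.
-/

namespace Pool.Agent.Ortho.Cert

/-- numbers of the boundary edges -/
def c6 : Fin 4 ⊕ (Fin 5 × Fin 4) → ℕ
  | Sum.inl m => 20 + m
  | Sum.inr p => cd p

theorem c6_inj : Function.Injective c6 := by decide +kernel

/-- numbering of the entries of the sixth disc -/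
def sh6 (a : Ent) : Ent := ⟨a.i + 20, a.lab, a.cmp + 1000, a.col + 1000, a.lu, a.ru⟩

/-- coded state of the six discs -/
noncomputable def l6 (x : Fin 5 → ℕ) (l' : List Ent) : List Ent :=
  catL (fun k => tl (x k)) ++ l'.map sh6

instance instDecGood6 (l : List Ent) : Decidable (Good c6 l) :=
  decidable_of_iff ((l.map Ent.i).Nodup ∧ ∀ a ∈ l, (∃ k, c6 k = a.i) ∧ a.lab < 4)
    ⟨fun h => ⟨h.1, h.2⟩, fun h => ⟨h.1, h.2⟩⟩

theorem six {V : Type} [DecidableEq V] {R : Rects V} {A : Fin 5 → Finset V}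
    {e : Fin 5 → Fin 4 → E3 × E3} {A' : Finset V} {e' : Fin 4 → E3 × E3} (hC : Conf A e)
    (hA : ∀ i, Disjoint (A i) A') (hx : ∀ i, Realizes S R (A i) (e i) none) (x : Fin 5 → ℕ)
    (l' : List Ent) (h' : Real R A' e' (toSt (Fin.val : Fin 4 → ℕ) l'))
    (heq : ((toSt (Fin.val : Fin 4 → ℕ) l').sum (toSt cd (catL fun k => tl (x k)))).Equiv
      (toSt c6 (l6 x l'))) :
    Real R (A' ∪ Finset.univ.biUnion A) (Sum.elim e' fun p => e p.1 p.2) (toSt c6 (l6 x l')) := by
  have h1 := real_cat (R := R) hC.disj (x := fun k => tl (x k)) fun i => tile_real (hx i) (x i)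
  have h2 : Disjoint A' (Finset.univ.biUnion A) := by
    rw [Finset.disjoint_biUnion_right]
    intro i _
    exact (hA i).symm
  exact Real.equiv (real_union R h2 h' h1) heq

/-- tiles of the root for a branch -/
def xs : Fin 5 → ℕ := ![34, 7, 21, 26, 51]

/-- tiles of a single brick -/
def xn : Fin 5 → ℕ := ![8, 60, 40, 32, 11]

theorem good_s : Good c6 (l6 xs (st 3)) := by decide +kernel

theorem good_n : Good c6 (l6 xn (tl 16)) := by decide +kernel

theorem equiv_s : ((toSt (Fin.val : Fin 4 → ℕ) (st 3)).sum (toSt cd (catL fun k => tl (xs k)))).Equiv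
    (toSt c6 (l6 xs (st 3))) := by decide +kernel

theorem equiv_n : ((toSt (Fin.val : Fin 4 → ℕ) (tl 16)).sum (toSt cd (catL fun k => tl (xn k)))).Equiv
    (toSt c6 (l6 xn (tl 16))) := by decide +kernel

/-- last state, branch -/
def ls : List Ent := [⟨1, 3, 0, 0, false, false⟩, ⟨22, 1, 1, 0, false, false⟩]

/-- last state, single brick -/
def ln : List Ent := [⟨1, 0, 0, 0, true, true⟩, ⟨22, 2, 1, 1, false, false⟩]

theorem chain_s : linkK 8 15 (l6 xs (st 3)) (fun l => linkK 13 19 l fun l => linkK 12 14 l fun l =>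
    linkK 2 21 l fun l => eqvK l ls) = true := by decide +kernel

theorem chain_n : linkK 5 16 (l6 xn (tl 16)) (fun l => linkK 6 17 l fun l => linkK 7 18 l fun l =>
    linkK 11 9 l fun l => eqvK l ln) = true := by decide +kernel

/-- index of the boundary edge `m` of the element `k` -/
abbrev ix (k : Fin 5) (m : Fin 4) : Fin 4 ⊕ (Fin 5 × Fin 4) := Sum.inr (k, m)

theorem root_some {V : Type} [DecidableEq V] {R : Rects V} {A : Fin 5 → Finset V}
    {e : Fin 5 → Fin 4 → E3 × E3} {A' : Finset V} {e' : Fin 4 → E3 × E3} (hC : Conf A e)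
    (hA : ∀ i, Disjoint (A i) A') (he' : ∀ k : Fin 4, e' (3 - k) = (e k.castSucc 0).swap)
    (hx : ∀ i, Realizes S R (A i) (e i) none)
    (h' : Real R A' e' (toSt (Fin.val : Fin 4 → ℕ) (st 3))) :
    ∃ (ι : Type) (d : ι → E3 × E3) (σ : State ι) (N : PNet V ι),
      Ok R (A' ∪ Finset.univ.biUnion A) d σ N ∧
      ∀ f ∈ A' ∪ Finset.univ.biUnion A, ∀ g ∈ A' ∪ Finset.univ.biUnion A, N.cp f = N.cp g := by
  have h0 := six hC hA hx xs (st 3) h' equiv_s
  obtain ⟨l1, g1, h1, -, k1⟩ := link_sound c6_inj good_s h0 (ix 3 1) (ix 0 3) (by decide)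
    (show e 0 3 = (e 3 1).swap from hC.lat 3) chain_s
  obtain ⟨l2, g2, h2, -, k2⟩ := link_sound c6_inj g1 h1 (ix 3 2) (ix 4 3) (by decide)
    (show e 4 3 = (e 3 2).swap from hC.top 3) k1
  obtain ⟨l3, g3, h3, -, k3⟩ := link_sound c6_inj g2 h2 (ix 2 2) (ix 4 2) (by decide)
    (show e 4 2 = (e 2 2).swap from hC.top 2) k2
  obtain ⟨l4, g4, h4, -, k4⟩ := link_sound c6_inj g3 h3 (ix 2 0) (Sum.inl 1) (by decide)
    (show e' 1 = (e 2 0).swap from he' 2) k3
  have h5 := Real.equiv h4 (eqv_sound (c := c6) k4)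
  have he : e 1 0 = (e' 2).swap := by
    have := he' 1
    have h2 : (3 : Fin 4) - 1 = 2 := by decide
    rw [h2] at this
    rw [this]
    rfl
  obtain ⟨N, hN, hcp⟩ := Real.closeH h5 (Sum.inl 2) (ix 1 0) (by decide +kernel) (by decide +kernel)
    (by decide +kernel) he (by decide +kernel)
  exact ⟨_, _, _, N, hN, hcp⟩

theorem root_none {V : Type} [DecidableEq V] {R : Rects V} {A : Fin 5 → Finset V}
    {e : Fin 5 → Fin 4 → E3 × E3} {A' : Finset V} {e' : Fin 4 → E3 × E3} (hC : Conf A e)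
    (hA : ∀ i, Disjoint (A i) A') (he' : ∀ k : Fin 4, e' (3 - k) = (e k.castSucc 0).swap)
    (hx : ∀ i, Realizes S R (A i) (e i) none)
    (h' : Real R A' e' (toSt (Fin.val : Fin 4 → ℕ) (tl 16))) :
    ∃ (ι : Type) (d : ι → E3 × E3) (σ : State ι) (N : PNet V ι),
      Ok R (A' ∪ Finset.univ.biUnion A) d σ N ∧
      ∀ f ∈ A' ∪ Finset.univ.biUnion A, ∀ g ∈ A' ∪ Finset.univ.biUnion A, N.cp f = N.cp g := by
  have h0 := six hC hA hx xn (tl 16) h' equiv_n
  obtain ⟨l1, g1, h1, -, k1⟩ := link_sound c6_inj good_n h0 (ix 0 1) (ix 1 3) (by decide)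
    (show e 1 3 = (e 0 1).swap from hC.lat 0) chain_n
  obtain ⟨l2, g2, h2, -, k2⟩ := link_sound c6_inj g1 h1 (ix 1 1) (ix 2 3) (by decide)
    (show e 2 3 = (e 1 1).swap from hC.lat 1) k1
  obtain ⟨l3, g3, h3, -, k3⟩ := link_sound c6_inj g2 h2 (ix 2 1) (ix 3 3) (by decide)
    (show e 3 3 = (e 2 1).swap from hC.lat 2) k2
  obtain ⟨l4, g4, h4, -, k4⟩ := link_sound c6_inj g3 h3 (ix 1 2) (ix 4 1) (by decide)
    (show e 4 1 = (e 1 2).swap from hC.top 1) k3
  have h5 := Real.equiv h4 (eqv_sound (c := c6) k4)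
  have he : e 1 0 = (e' 2).swap := by
    have := he' 1
    have h2 : (3 : Fin 4) - 1 = 2 := by decide
    rw [h2] at this
    rw [this]
    rfl
  obtain ⟨N, hN, hcp⟩ := Real.closeV h5 (Sum.inl 2) (ix 1 0) (by decide +kernel) (by decide +kernel)
    (by decide +kernel) (by decide +kernel) (by decide +kernel) he (by decide +kernel)
  exact ⟨_, _, _, N, hN, hcp⟩

/-- the certificate -/
theorem cert : Cert S where
  comp L hL _ _ R A e hC hx := comp_all L hL R A e hC hx
  root κ hκ V _ R A e A' e' hC hA he' hx h' := by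
    cases κ with
    | none => exact root_none hC hA he' hx (tile_real h' 16)
    | some c =>
      refine root_some hC hA he' hx (h' _ ⟨3, by norm_num, ?_, rfl⟩)
      exact root_row _ (mem_rows c.T c.B c.top (hκ c rfl))

end Pool.Agent.Ortho.Cert
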