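import Pool.Agent.Ortho.Cert.Data

set_option autoImplicit false

/-!
# Ortho/Cert/Tables: finite facts about the tables of the certificate
-/

namespace Pool.Agent.Ortho

instance instDecOpen {ι : Type} (σ : State ι) (i : ι) : Decidable (σ.Open i) :=
  inferInstanceAs (Decidable (¬ σ.lab i = none))

instance instDecVert {ι : Type} (σ : State ι) (i : ι) : Decidable (σ.Vert i) :=
  inferInstanceAs (Decidable (_ ∨ _))

instance instDecEquiv {ι : Type} [Fintype ι] [DecidableEq ι] (σ τ : State ι) : Decidable (σ.Equiv τ) :=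
  decidable_of_iff ((∀ i, σ.lab i = τ.lab i) ∧
    (∀ i, σ.Open i → ∀ j, σ.Open j → (σ.cmp i = σ.cmp j ↔ τ.cmp i = τ.cmp j)) ∧
    (∀ i, σ.Vert i → (σ.lu i = τ.lu i ∧ σ.ru i = τ.ru i ∧
      ∀ j, σ.Vert j → (σ.col i = σ.col j ↔ τ.col i = τ.col j))))
    ⟨fun h => ⟨h.1, fun i j hi hj => h.2.1 i hi j hj, fun i j hi hj => (h.2.2 i hi).2.2 j hj,
      fun i hi => (h.2.2 i hi).1, fun i hi => (h.2.2 i hi).2.1⟩,
    fun h => ⟨h.lab, fun i hi j hj => h.cmp i j hi hj, fun i hi => ⟨h.lu i hi, h.ru i hi,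
      fun j hj => h.col i j hi hj⟩⟩⟩

instance instDecGood (l : List Ent) : Decidable (Good (Fin.val : Fin 4 → ℕ) l) :=
  decidable_of_iff ((l.map Ent.i).Nodup ∧ ∀ a ∈ l, (∃ k : Fin 4, k.val = a.i) ∧ a.lab < 4)
    ⟨fun h => ⟨h.1, h.2⟩, fun h => ⟨h.1, h.2⟩⟩

/-- mask of a function -/
def enc (f : Fin 4 → Bool) : ℕ :=
  cond (f 0) 1 0 + (cond (f 1) 2 0 + (cond (f 2) 4 0 + cond (f 3) 8 0))

/-- bits of a mask -/
def dec (s : ℕ) (k : Fin 4) : Bool := Nat.beq (Nat.land (Nat.shiftRight s k) 1) 1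

/-- rotation of a mask -/
def rm (T : ℕ) : ℕ := Nat.lor (Nat.shiftRight T 1) (Nat.mul (Nat.land T 1) 8)

theorem enc_rot (f : Fin 4 → Bool) : enc (fun k => f (k + 1)) = rm (enc f) := by
  revert f; decide +kernel

theorem enc_lt (f : Fin 4 → Bool) : enc f < 16 := by
  revert f; decide +kernel

theorem enc_forb (f : Fin 4 → Bool) (c1 c2 c3 : Bool) (h0 : f 0 = false) (h1 : f 1 = true → c1 = false)
    (h2 : f 2 = true → c2 = false) (h3 : f 3 = true → c3 = false) : enc f &&& forb c1 c2 c3 = 0 := by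
  revert f c1 c2 c3; decide +kernel

theorem enc_disj (f g : Fin 4 → Bool) (h : ∀ k, f k = true → g k = false) : enc f &&& enc g = 0 := by
  revert f g; decide +kernel

theorem enc_bit2 (f g : Fin 4 → Bool) (h : ¬ (f 2 = true ∧ g 2 = true)) :
    (enc f &&& enc g) &&& 4 ≠ 4 := by
  revert f g; decide +kernel

theorem enc_zero : enc (fun _ => false) = 0 := by decide

theorem enc_10 (f : Fin 4 → Bool) : Nat.land (enc f) 10 = cond (f 1) 2 0 + cond (f 3) 8 0 := by
  revert f; decide +kernel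

theorem enc_2 (f : Fin 4 → Bool) : Nat.land (enc f) 2 = cond (f 1) 2 0 := by
  revert f; decide +kernel

theorem enc_8 (f : Fin 4 → Bool) : Nat.land (enc f) 8 = cond (f 3) 8 0 := by
  revert f; decide +kernel

theorem outB_enc (f0 f1 f2 f3 : Fin 4 → Bool) : outB (enc f0) (enc f1) (enc f2) (enc f3) =
    enc ![f3 1 || f1 3, f0 1 || f2 3, f1 1 || f3 3, f2 1 || f0 3] := by
  unfold outB
  rw [enc_10, enc_2, enc_8, enc_2, enc_8, enc_10]
  generalize f0 1 = a1
  generalize f0 3 = a3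
  generalize f1 1 = b1
  generalize f1 3 = b3
  generalize f2 1 = c1
  generalize f2 3 = c3
  generalize f3 1 = d1
  generalize f3 3 = d3
  revert a1 a3 b1 b3 c1 c3 d1 d3
  decide +kernel

theorem nthK_eq {α : Type} (d : α) (n : ℕ) (l : List α) : nthK d n l = l.getD n d := by
  induction n generalizing l with
  | zero => cases l <;> rfl
  | succ n ih =>
    cases l with
    | nil => rfl
    | cons a l => exact (ih l).trans (by simp [List.getD])

namespace Cert

theorem good_st_aux : ∀ n < 208, Good (Fin.val : Fin 4 → ℕ) (st n) := by decide +kernel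

theorem good_tl_aux : ∀ n < 64, Good (Fin.val : Fin 4 → ℕ) (tl n) := by decide +kernel

theorem tile_aux : ∀ n < 64, (tileState (Fin.ofNat 4 n) (dec ((cond (Nat.blt n 4) 60 n) / 4))).Equiv
    (toSt (Fin.val : Fin 4 → ℕ) (tl n)) := by decide +kernel

theorem tile_aux' : ∀ n < 64, ∃ k, dec ((cond (Nat.blt n 4) 60 n) / 4) k = true := by decide +kernel

theorem rs_lt : ∀ n < 208, rs n < 208 := by decide +kernel

theorem rot_st : ∀ n < 208, ((toSt (Fin.val : Fin 4 → ℕ) (st (rs n))).comap (fun k => k + 3)).Equiv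
    (toSt (Fin.val : Fin 4 → ℕ) (st n)) := by decide +kernel

theorem rot_mask : ∀ T < 16, ∀ B < 16, ∀ top : Bool, gOf ct T top B = 0 ∨
    ∀ n < 208, bitK (gOf ct T top B) n = true → bitK (gOf ct (rm T) top (rm B)) (rs n) = true := by
  decide +kernel

theorem g_lt : ∀ T < 16, ∀ B < 16, ∀ top : Bool, gOf ct T top B < 2 ^ 208 := by decide +kernel

theorem mem_rows : ∀ (f g : Fin 4 → Bool) (top : Bool),
    (∀ k, g k = true → f k = false ∧ (f (k + 1) = true ∨ f (k + 3) = true)) →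
    (enc f, enc g, top) ∈ rows := by decide +kernel

theorem root_row : ∀ r ∈ rows, bitK (gOf ct r.1 r.2.2 r.2.1) 3 = true := by decide +kernel

end Cert

end Pool.Agent.Ortho
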